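import Mathlib.Algebra.Order.Ring.Nat
import Mathlib.Algebra.Order.Sub.Basic
import Mathlib.Data.Nat.Pairing
import Mathlib.Order.Lattice.Nat
import Mathlib.Data.Nat.SuccPred
import Mathlib.Algebra.Notation.Lemmas
import Mathlib.Data.List.GetD
import Mathlib.Order.CompletePartialOrder
import Mathlib.Data.W.Cardinal
import Mathlib.Analysis.Real.Cardinality
import Mathlib.MeasureTheory.MeasurableSpace.Card
import Mathlib.Tactic.Monotonicity.Lemmas

-- ======== part 0: formerly Pool.Agent.MP_5f86f1_lc.Tree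
section MrgPart0

/-! Laver trees as sets of nodes. -/

open Set

namespace Pool.Agent.MP_5f86f1_lc

/-- the initial segment of length `n` -/
def seg (y : ℕ → ℕ) (n : ℕ) : List ℕ := (List.range n).map y

@[simp] theorem seg_length (y : ℕ → ℕ) (n : ℕ) : (seg y n).length = n := by simp [seg]

@[simp] theorem seg_zero (y : ℕ → ℕ) : seg y 0 = [] := by simp [seg]

theorem seg_succ (y : ℕ → ℕ) (n : ℕ) : seg y (n + 1) = seg y n ++ [y n] := by
  simp [seg, List.range_succ]

theorem seg_pre (y : ℕ → ℕ) {m n : ℕ} (h : m ≤ n) : seg y m <+: seg y n := by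
  induction h with
  | refl => exact List.prefix_refl _
  | step _ ih => rw [seg_succ]; exact ih.trans (List.prefix_append _ _)

theorem eq_seg_of_pre {y : ℕ → ℕ} {u : List ℕ} {n : ℕ} (h : u <+: seg y n) :
    seg y u.length = u := by
  have h1 : u.length ≤ n := by simpa using h.length_le
  exact (List.prefix_of_prefix_length_le (seg_pre y h1) h (by simp)).eq_of_length (by simp)

theorem pre_total {u v w : List ℕ} (h : u <+: w) (h' : v <+: w) : u <+: v ∨ v <+: u :=
  List.prefix_or_prefix_of_prefix h h'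

theorem pre_of_len {u v w : List ℕ} (h : u <+: w) (h' : v <+: w) (hl : u.length ≤ v.length) :
    u <+: v := List.prefix_of_prefix_length_le h h' hl

theorem pre_concat {u v : List ℕ} {k : ℕ} (h : u <+: v ++ [k]) : u = v ++ [k] ∨ u <+: v :=
  List.prefix_concat_iff.1 h

theorem seg_getD (y : ℕ → ℕ) {n i : ℕ} (h : i < n) : (seg y n).getD i 0 = y i := by
  simp [seg, List.getD, h]

theorem seg_eq_iff {y y' : ℕ → ℕ} {n : ℕ} : seg y n = seg y' n ↔ ∀ i < n, y i = y' i := by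
  constructor
  · intro h i hi
    rw [← seg_getD y hi, ← seg_getD y' hi, h]
  · intro h
    exact List.map_congr_left fun i hi => h i (List.mem_range.1 hi)

theorem mem_seg {y : ℕ → ℕ} {n e : ℕ} : e ∈ seg y n ↔ ∃ i < n, y i = e := by
  simp [seg]

/-- `T` is a Laver tree with stem `s` -/
structure IsLav (s : List ℕ) (T : Set (List ℕ)) : Prop where
  stem : s ∈ T
  down : ∀ u ∈ T, ∀ v, v <+: u → v ∈ T
  comp : ∀ u ∈ T, u <+: s ∨ s <+: u
  inf : ∀ u ∈ T, s <+: u → ∀ m, ∃ k, m ≤ k ∧ u ++ [k] ∈ T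

/-- the branches -/
def br (T : Set (List ℕ)) : Set (ℕ → ℕ) := {y | ∀ n, seg y n ∈ T}

theorem br_mono {T T' : Set (List ℕ)} (h : T ⊆ T') : br T ⊆ br T' := fun _ hy n => h (hy n)

theorem isLav_univ : IsLav [] univ :=
  ⟨trivial, fun _ _ _ _ => trivial, fun _ _ => Or.inr List.nil_prefix,
    fun _ _ _ m => ⟨m, le_rfl, trivial⟩⟩

theorem IsLav.stem_eq_nil {s : List ℕ} (h : IsLav s univ) : s = [] := by
  cases s with
  | nil => rfl
  | cons a s =>
    rcases h.comp [a + 1] trivial with h | h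
    · simp at h
    · have := List.cons_prefix_cons.1 h
      omega

theorem IsLav.seg_stem {s : List ℕ} {T : Set (List ℕ)} (h : IsLav s T) {y : ℕ → ℕ}
    (hy : y ∈ br T) : seg y s.length = s := by
  rcases h.comp _ (hy s.length) with h' | h'
  · exact h'.eq_of_length (by simp)
  · exact (h'.eq_of_length (by simp)).symm

theorem IsLav.stem_pre {s : List ℕ} {T : Set (List ℕ)} (h : IsLav s T) {u : List ℕ}
    (hu : u ∈ T) (hl : s.length ≤ u.length) : s <+: u := by
  rcases h.comp u hu with h' | h'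
  · rw [h'.eq_of_length_le hl]
  · exact h'

theorem IsLav.stem_pre_seg {s : List ℕ} {T : Set (List ℕ)} (h : IsLav s T) {y : ℕ → ℕ}
    (hy : y ∈ br T) {j : ℕ} (hj : s.length ≤ j) : s <+: seg y j :=
  h.stem_pre (hy j) (by simpa using hj)

theorem IsLav.stem_pre_of_sub {s s' : List ℕ} {T T' : Set (List ℕ)} (h : IsLav s T)
    (h' : IsLav s' T') (hs : T' ⊆ T) : s <+: s' := by
  by_cases hl : s.length ≤ s'.length
  · exact h.stem_pre (hs h'.stem) hl
  · obtain ⟨k, hk, h1⟩ := h'.inf s' h'.stem (List.prefix_refl _) (s.getD s'.length 0 + 1)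
    rcases h.comp _ (hs h1) with h2 | h2
    · obtain ⟨w, rfl⟩ := h2
      simp at hk
    · have := h2.eq_of_length_le (by simp; omega)
      subst this
      simp at hk

theorem exists_branch_of_chain (v : ℕ → List ℕ) (h : ∀ n, ∃ k, v (n + 1) = v n ++ [k]) :
    ∃ y : ℕ → ℕ, ∀ n, seg y (v n).length = v n ∧ n ≤ (v n).length := by
  have hl : ∀ n, (v n).length = (v 0).length + n := by
    intro n
    induction n with
    | zero => rfl
    | succ n ih => obtain ⟨k, hk⟩ := h n; rw [hk]; simp [ih]; omega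
  have hp : ∀ m n, m ≤ n → v m <+: v n := by
    intro m n hmn
    induction hmn with
    | refl => exact List.prefix_refl _
    | step _ ih => obtain ⟨k, hk⟩ := h _; rw [hk]; exact ih.trans (List.prefix_append _ _)
  refine ⟨fun i => (v (i + 1)).getD i 0, fun n => ⟨?_, by rw [hl]; omega⟩⟩
  refine List.ext_getElem (by simp) fun i h1 h2 => ?_
  have h3 : i < (v (i + 1)).length := by rw [hl]; omega
  simp only [seg, List.getElem_map, List.getElem_range]
  rw [List.getD_eq_getElem _ _ h3]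
  rcases le_total n (i + 1) with h4 | h4
  · exact ((hp _ _ h4).getElem h2).symm
  · exact (hp _ _ h4).getElem h3

theorem IsLav.exists_br {s : List ℕ} {T : Set (List ℕ)} (h : IsLav s T) {u : List ℕ}
    (hu : u ∈ T) : ∃ y ∈ br T, seg y u.length = u := by
  have key : ∀ u ∈ T, s <+: u → ∃ y ∈ br T, seg y u.length = u := by
    intro u hu hs
    have step : ∀ w : {w // w ∈ T ∧ s <+: w}, ∃ w' : {w // w ∈ T ∧ s <+: w},
        ∃ k, w'.1 = w.1 ++ [k] := by
      rintro ⟨w, hw, hs⟩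
      obtain ⟨k, -, hk⟩ := h.inf w hw hs 0
      exact ⟨⟨_, hk, hs.trans (List.prefix_append _ _)⟩, k, rfl⟩
    choose f hf using step
    let v : ℕ → {w // w ∈ T ∧ s <+: w} := fun n => f^[n] ⟨u, hu, hs⟩
    obtain ⟨y, hy⟩ := exists_branch_of_chain (fun n => (v n).1) fun n => by
      simp only [v, Function.iterate_succ_apply']
      exact hf _
    refine ⟨y, fun n => h.down _ (v n).2.1 _ ?_, (hy 0).1⟩
    rw [← (hy n).1]
    exact seg_pre y (hy n).2
  rcases h.comp u hu with h' | h'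
  · obtain ⟨y, hy, he⟩ := key s h.stem (List.prefix_refl _)
    exact ⟨y, hy, eq_seg_of_pre (he ▸ h')⟩
  · exact key u hu h'

theorem IsLav.br_nonempty {s : List ℕ} {T : Set (List ℕ)} (h : IsLav s T) : (br T).Nonempty :=
  let ⟨y, hy, _⟩ := h.exists_br h.stem; ⟨y, hy⟩

/-- the part of `T` through the node `u` -/
def thru (T : Set (List ℕ)) (u : List ℕ) : Set (List ℕ) := {v | v ∈ T ∧ (v <+: u ∨ u <+: v)}

theorem thru_sub (T : Set (List ℕ)) (u : List ℕ) : thru T u ⊆ T := fun _ h => h.1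

theorem IsLav.thru {s : List ℕ} {T : Set (List ℕ)} (h : IsLav s T) {u : List ℕ}
    (hu : u ∈ T) (hs : s <+: u) : IsLav u (thru T u) := by
  refine ⟨⟨hu, Or.inl (List.prefix_refl _)⟩, fun v hv w hw => ⟨h.down v hv.1 w hw, ?_⟩,
    fun v hv => hv.2, fun v hv huv m => ?_⟩
  · rcases hv.2 with h' | h'
    · exact Or.inl (hw.trans h')
    · exact pre_total hw h'
  · obtain ⟨k, hk, hk'⟩ := h.inf v hv.1 (hs.trans huv) m
    exact ⟨k, hk, hk', Or.inr (huv.trans (List.prefix_append _ _))⟩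

/-- thinning a tree by a predicate on successors -/
def thin (s : List ℕ) (T : Set (List ℕ)) (A : List ℕ → ℕ → Prop) : Set (List ℕ) :=
  {u | u ∈ T ∧ ∀ v k, v ++ [k] <+: u → s <+: v → A v k}

theorem IsLav.thin {s : List ℕ} {T : Set (List ℕ)} (h : IsLav s T) {A : List ℕ → ℕ → Prop}
    (hA : ∀ u ∈ T, s <+: u → ∀ m, ∃ k, m ≤ k ∧ u ++ [k] ∈ T ∧ A u k) :
    IsLav s (thin s T A) := by
  refine ⟨⟨h.stem, fun v k hv hs => ?_⟩, fun u hu v hv => ⟨h.down u hu.1 v hv,
    fun w k hw hs => hu.2 w k (hw.trans hv) hs⟩, fun u hu => h.comp u hu.1,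
    fun u hu hs m => ?_⟩
  · have h1 := hv.length_le
    have h2 := hs.length_le
    simp at h1
    omega
  · obtain ⟨k, hk, h1, h2⟩ := hA u hu.1 hs m
    refine ⟨k, hk, h1, fun v k' hv hs' => ?_⟩
    rcases pre_concat hv with h3 | h3
    · obtain ⟨rfl, h4⟩ := List.append_inj' h3 rfl
      obtain rfl : k' = k := by simpa using h4
      exact h2
    · exact hu.2 v k' h3 hs'

/-- gluing trees above the nodes of a level -/
theorem isLav_glue {t0 : List ℕ} {J : Set (List ℕ)} {len : ℕ} {R : List ℕ → Set (List ℕ)}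
    (h1 : ∀ t ∈ J, t.length = len) (h2 : J.Nonempty) (h3 : ∀ t ∈ J, t0 <+: t)
    (h4 : ∀ t ∈ J, ∀ u, u <+: t → t0 <+: u → u.length < len → ∀ m, ∃ k, m ≤ k ∧
      ∃ t' ∈ J, u ++ [k] <+: t')
    (h5 : ∀ t ∈ J, IsLav t (R t)) : IsLav t0 {u | ∃ t ∈ J, u ∈ R t} := by
  refine ⟨?_, ?_, ?_, ?_⟩
  · obtain ⟨t, ht⟩ := h2
    exact ⟨t, ht, (h5 t ht).down t (h5 t ht).stem _ (h3 t ht)⟩
  · rintro u ⟨t, ht, hu⟩ v hv
    exact ⟨t, ht, (h5 t ht).down u hu v hv⟩
  · rintro u ⟨t, ht, hu⟩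
    rcases (h5 t ht).comp u hu with h | h
    · exact pre_total h (h3 t ht)
    · exact Or.inr ((h3 t ht).trans h)
  · rintro u ⟨t, ht, hu⟩ hs m
    by_cases hl : u.length < len
    · have : u <+: t := by
        rcases (h5 t ht).comp u hu with h | h
        · exact h
        · have := h.length_le
          have := h1 t ht
          omega
      obtain ⟨k, hk, t', ht', h⟩ := h4 t ht u this hs hl m
      exact ⟨k, hk, t', ht', (h5 t' ht').down t' (h5 t' ht').stem _ h⟩
    · obtain ⟨k, hk, h⟩ := (h5 t ht).inf u hu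
        ((h5 t ht).stem_pre hu (by rw [h1 t ht]; omega)) m
      exact ⟨k, hk, t, ht, h⟩

theorem br_glue {J : Set (List ℕ)} {len : ℕ} {R : List ℕ → Set (List ℕ)}
    (h1 : ∀ t ∈ J, t.length = len) (h5 : ∀ t ∈ J, IsLav t (R t)) {y : ℕ → ℕ}
    (hy : y ∈ br {u | ∃ t ∈ J, u ∈ R t}) : seg y len ∈ J ∧ y ∈ br (R (seg y len)) := by
  have key : ∀ n, len ≤ n → seg y len ∈ J ∧ seg y n ∈ R (seg y len) := by
    intro n hn
    obtain ⟨t, ht, hu⟩ := hy n
    have h := (h5 t ht).stem_pre hu (by rw [h1 t ht]; simpa using hn)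
    have h' := eq_seg_of_pre h
    rw [h1 t ht] at h'
    rw [h']
    exact ⟨ht, hu⟩
  refine ⟨(key len le_rfl).1, fun n => ?_⟩
  have h := key (max n len) (le_max_right _ _)
  exact (h5 _ h.1).down _ h.2 _ (seg_pre y (le_max_left _ _))

/-- the limit of a sequence of trees which keep more and more levels -/
theorem isLav_inter {s : List ℕ} {T : ℕ → Set (List ℕ)} (h : ∀ n, IsLav s (T n))
    (h1 : ∀ n, T (n + 1) ⊆ T n) (h2 : ∀ n, ∀ u ∈ T n, u.length ≤ n → u ∈ T (n + 1)) :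
    IsLav s {u | ∀ n, u ∈ T n} := by
  have hanti : ∀ m n, m ≤ n → T n ⊆ T m := by
    intro m n hmn
    induction hmn with
    | refl => exact Subset.rfl
    | step _ ih => exact (h1 _).trans ih
  refine ⟨fun n => (h n).stem, fun u hu v hv n => (h n).down u (hu n) v hv,
    fun u hu => (h 0).comp u (hu 0), fun u hu hs m => ?_⟩
  obtain ⟨k, hk, hk'⟩ := (h (u.length + 1)).inf u (hu _) hs m
  refine ⟨k, hk, fun n => ?_⟩
  rcases le_total n (u.length + 1) with h3 | h3
  · exact hanti _ _ h3 hk'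
  · induction h3 with
    | refl => exact hk'
    | step h3 ih => exact h2 _ _ ih (by simpa using h3)

/-- the cell which is split at stage `n` -/
def spl (n : ℕ) : ℕ := (Nat.unpair n).1

theorem spl_le (n : ℕ) : spl n ≤ n := Nat.unpair_left_le n

/-- the limit of a system of cells -/
theorem isLav_cells {n0 : ℕ} {s : ℕ → ℕ → List ℕ} {T : ℕ → ℕ → Set (List ℕ)}
    (h : ∀ n i, IsLav (s n i) (T n i))
    (h0 : ∀ i ≤ n0, s n0 i = s n0 0)
    (h1 : ∀ n, n0 ≤ n → ∀ i ≤ n, T (n + 1) i ⊆ T n i ∧ s (n + 1) i = s n i)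
    (h2 : ∀ n, n0 ≤ n → ∃ k, n ≤ k ∧ s (n + 1) (n + 1) = s n (spl n) ++ [k] ∧
      T (n + 1) (n + 1) ⊆ T n (spl n)) :
    IsLav (s n0 0) {u | ∃ n i, n0 ≤ n ∧ i ≤ n ∧ u <+: s n i} ∧
      ∀ n, n0 ≤ n → ∀ y ∈ br {u | ∃ n i, n0 ≤ n ∧ i ≤ n ∧ u <+: s n i},
        ∃ i ≤ n, y ∈ br (T n i) := by
  have hst : ∀ m n, n0 ≤ m → m ≤ n → ∀ i ≤ m, s n i = s m i := by
    intro m n hm hmn i hi
    induction hmn with
    | refl => rfl
    | step hmn ih => rw [(h1 _ (hm.trans hmn) i (hi.trans hmn)).2, ih]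
  have hA : ∀ n, n0 ≤ n → ∀ i ≤ n, s n0 0 <+: s n i ∧
      ∀ u, u <+: s n i → s n0 0 <+: u → ∃ j ≤ n, u = s n j := by
    intro n hn
    induction hn with
    | refl =>
      intro i hi
      rw [h0 i hi]
      exact ⟨List.prefix_refl _, fun u hu hu' => ⟨0, Nat.zero_le _,
        hu.eq_of_length_le hu'.length_le⟩⟩
    | @step n hn ih =>
      intro i hi
      have aux : ∀ i ≤ n, ∀ u, u <+: s n i → s n0 0 <+: u → ∃ j ≤ n + 1, u = s (n + 1) j := by
        intro i hi u hu hu'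
        obtain ⟨j, hj, rfl⟩ := (ih i hi).2 u hu hu'
        exact ⟨j, by omega, (h1 n hn j hj).2.symm⟩
      rcases Nat.lt_succ_iff_lt_or_eq.1 (Nat.lt_succ_of_le hi) with hi' | rfl
      · have hi'' : i ≤ n := by omega
        rw [(h1 n hn i hi'').2]
        exact ⟨(ih i hi'').1, aux i hi''⟩
      · obtain ⟨k, -, hk, -⟩ := h2 n hn
        refine ⟨hk ▸ (ih _ (spl_le n)).1.trans (List.prefix_append _ _), fun u hu hu' => ?_⟩
        rw [hk] at hu
        rcases pre_concat hu with h3 | h3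
        · exact ⟨n + 1, le_rfl, h3.trans hk.symm⟩
        · exact aux _ (spl_le n) u h3 hu'
  have hB : ∀ n, n0 ≤ n → ∀ m, n ≤ m → ∀ i ≤ m, ∃ j ≤ n, T m i ⊆ T n j := by
    intro n hn m hm
    induction hm with
    | refl => exact fun i hi => ⟨i, hi, Subset.rfl⟩
    | @step m hm ih =>
      intro i hi
      rcases Nat.lt_succ_iff_lt_or_eq.1 (Nat.lt_succ_of_le hi) with hi' | rfl
      · obtain ⟨j, hj, h3⟩ := ih i (by omega)
        exact ⟨j, hj, (h1 m (hn.trans hm) i (by omega)).1.trans h3⟩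
      · obtain ⟨k, -, -, hk⟩ := h2 m (hn.trans hm)
        obtain ⟨j, hj, h3⟩ := ih _ (spl_le m)
        exact ⟨j, hj, hk.trans h3⟩
  refine ⟨⟨⟨n0, 0, le_rfl, Nat.zero_le _, List.prefix_refl _⟩, ?_, ?_, ?_⟩, ?_⟩
  · rintro u ⟨n, i, hn, hi, hu⟩ v hv
    exact ⟨n, i, hn, hi, hv.trans hu⟩
  · rintro u ⟨n, i, hn, hi, hu⟩
    exact pre_total hu (hA n hn i hi).1
  · rintro u ⟨n, i, hn, hi, hu⟩ hs m
    obtain ⟨j, hj, rfl⟩ := (hA n hn i hi).2 u hu hs
    have h3 : max n m ≤ Nat.pair j (max n m) := Nat.right_le_pair _ _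
    have h4 : n ≤ Nat.pair j (max n m) := (le_max_left _ _).trans h3
    obtain ⟨k, hk, hk', -⟩ := h2 (Nat.pair j (max n m)) (hn.trans h4)
    refine ⟨k, (le_max_right _ _).trans (h3.trans hk), Nat.pair j (max n m) + 1,
      Nat.pair j (max n m) + 1, by omega, le_rfl, ?_⟩
    rw [hk', spl, Nat.unpair_pair, hst n _ hn h4 j hj]
  · intro n hn y hy
    by_contra hcon
    push Not at hcon
    have : ∀ i, ∃ k, i ≤ n → seg y k ∉ T n i := by
      intro i
      by_cases hi : i ≤ n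
      · have := hcon i hi
        simp only [br, mem_ofPred_eq, not_forall] at this
        obtain ⟨k, hk⟩ := this
        exact ⟨k, fun _ => hk⟩
      · exact ⟨0, fun h => absurd h hi⟩
    choose k hk using this
    obtain ⟨m, i, hm, hi, hu⟩ := hy ((Finset.range (n + 1)).sup k)
    obtain ⟨j, hj, h3⟩ := hB n hn (max n m) (le_max_left _ _) i (hi.trans (le_max_right _ _))
    refine hk j hj ((h n j).down _ (h3 (h _ i).stem) _ ?_)
    rw [hst m _ hm (le_max_right _ _) i hi]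
    exact (seg_pre y (Finset.le_sup (f := k) (Finset.mem_range.2 (by omega)))).trans hu

end Pool.Agent.MP_5f86f1_lc

end MrgPart0

-- ======== part 1: formerly Pool.Agent.MP_5f86f1_lc.Meas
section MrgPart1

/-! Borel predicates on sequences of reals indexed by `ι`. -/

open Set Cardinal MeasureTheory

namespace Pool.Agent.MP_5f86f1_lc

/-- the space of generic sequences -/
abbrev Om (ι : Type) : Type := ι → ℕ → ℕ

variable {ι : Type}

/-- basic events -/
def gens (a : Set ι) : Set (Set (Om ι)) := {S | ∃ η ∈ a, ∃ n k, S = {x | x η n = k}}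

/-- Borel predicates depending on the coordinates in `a` -/
def Ms (a : Set ι) (P : Om ι → Prop) : Prop :=
  MeasurableSet[MeasurableSpace.generateFrom (gens a)] {x | P x}

/-- Borel functions with values in a countable discrete type -/
def Mf {I : Type} (a : Set ι) (g : Om ι → I) : Prop := ∀ i, Ms a fun x => g x = i

variable {a b : Set ι} {P Q : Om ι → Prop}

theorem Ms.mono (h : Ms a P) (hab : a ⊆ b) : Ms b P :=
  MeasurableSpace.generateFrom_mono (s := gens a) (t := gens b)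
    (fun _ ⟨η, hη, h⟩ => ⟨η, hab hη, h⟩) _ h

theorem Ms.congr (h : Ms a P) (h' : ∀ x, P x ↔ Q x) : Ms a Q := by
  have : P = Q := funext fun x => propext (h' x)
  exact this ▸ h

theorem Ms.const (c : Prop) : Ms a fun _ => c := by
  unfold Ms
  exact MeasurableSet.const c

theorem Ms.not (h : Ms a P) : Ms a fun x => ¬ P x := MeasurableSet.compl h

theorem Ms.and (h : Ms a P) (h' : Ms a Q) : Ms a fun x => P x ∧ Q x := MeasurableSet.inter h h'

theorem Ms.or (h : Ms a P) (h' : Ms a Q) : Ms a fun x => P x ∨ Q x := MeasurableSet.union h h'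

theorem Ms.imp (h : Ms a P) (h' : Ms a Q) : Ms a fun x => P x → Q x :=
  (h.not.or h').congr fun _ => imp_iff_not_or.symm

theorem Ms.iff (h : Ms a P) (h' : Ms a Q) : Ms a fun x => P x ↔ Q x :=
  ((h.imp h').and (h'.imp h)).congr fun _ => iff_def.symm

theorem Ms.ex {I : Type} [Countable I] {P : I → Om ι → Prop} (h : ∀ i, Ms a (P i)) :
    Ms a fun x => ∃ i, P i x := by
  unfold Ms
  rw [ofPred_exists]
  exact MeasurableSet.iUnion h

theorem Ms.all {I : Type} [Countable I] {P : I → Om ι → Prop} (h : ∀ i, Ms a (P i)) :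
    Ms a fun x => ∀ i, P i x :=
  (Ms.ex fun i => (h i).not).not.congr fun _ => by simp

theorem Ms.imp' {c : Prop} (h : c → Ms a P) : Ms a fun x => c → P x := by
  by_cases hc : c
  · exact (h hc).congr fun _ => by simp [hc]
  · exact (Ms.const True).congr fun _ => by simp [hc]

theorem Ms.and' {c : Prop} (h : c → Ms a P) : Ms a fun x => c ∧ P x := by
  by_cases hc : c
  · exact (h hc).congr fun _ => by simp [hc]
  · exact (Ms.const False).congr fun _ => by simp [hc]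

theorem Ms.coord {η : ι} (h : η ∈ a) (n k : ℕ) : Ms a fun x => x η n = k :=
  MeasurableSpace.measurableSet_generateFrom ⟨η, h, n, k, rfl⟩

theorem Mf.subst {I : Type} [Countable I] {g : Om ι → I} (hg : Mf a g) {P : I → Om ι → Prop}
    (h : ∀ i, Ms a (P i)) : Ms a fun x => P (g x) x :=
  (Ms.ex fun i => (hg i).and (h i)).congr fun _ => by simp

theorem Mf.mono {I : Type} {g : Om ι → I} (hg : Mf a g) (hab : a ⊆ b) : Mf b g :=
  fun i => (hg i).mono hab

theorem Mf.const {I : Type} (c : I) : Mf a fun _ => c := fun i => Ms.const (c = i)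

theorem Mf.comp {I J : Type} [Countable I] {g : Om ι → I} (hg : Mf a g) (f : I → J) :
    Mf a fun x => f (g x) := fun j => hg.subst (P := fun i _ => f i = j) fun _ => Ms.const _

theorem Mf.bind {I J : Type} [Countable I] {g : Om ι → I} (hg : Mf a g) {f : I → Om ι → J}
    (hf : ∀ i, Mf a (f i)) : Mf a fun x => f (g x) x :=
  fun j => hg.subst (P := fun i x => f i x = j) fun i => hf i j

theorem Mf.prod {I J : Type} {g : Om ι → I} {f : Om ι → J} (hg : Mf a g) (hf : Mf a f) :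
    Mf a fun x => (g x, f x) := fun j => ((hg j.1).and (hf j.2)).congr fun _ => by
  simp [Prod.ext_iff]

theorem Mf.coord {η : ι} (h : η ∈ a) (n : ℕ) : Mf a fun x => x η n := fun k => Ms.coord h n k

theorem Mf.seg {η : ι} (h : η ∈ a) (n : ℕ) : Mf a fun x => seg (x η) n := by
  induction n with
  | zero => simpa using Mf.const (a := a) ([] : List ℕ)
  | succ n ih =>
    simp only [seg_succ]
    exact (ih.prod (Mf.coord h n)).comp fun z => z.1 ++ [z.2]

open Classical in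
theorem Mf.ite {I : Type} {g f : Om ι → I} (h : Ms a P) (hg : Mf a g) (hf : Mf a f) :
    Mf a fun x => if P x then g x else f x := fun i =>
  ((h.and (hg i)).or (h.not.and (hf i))).congr fun x => by
    by_cases hx : P x <;> simp [hx]

theorem Mf.pred {I : Type} [Countable I] {g : Om ι → I} (hg : Mf a g) (P : I → Prop) :
    Ms a fun x => P (g x) := hg.subst (P := fun i _ => P i) fun _ => Ms.const _

theorem Mf.rel {I J : Type} [Countable I] [Countable J] {g : Om ι → I} {f : Om ι → J}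
    (hg : Mf a g) (hf : Mf a f) (P : I → J → Prop) : Ms a fun x => P (g x) (f x) :=
  (hg.prod hf).pred fun z => P z.1 z.2

/-- Borel selection of witnesses -/
theorem exists_sel {P : ℕ → Om ι → Prop} (h : ∀ j, Ms a (P j)) :
    ∃ g : Om ι → ℕ, Mf a g ∧ ∀ x, (∃ j, P j x) → P (g x) x := by
  classical
  refine ⟨fun x => if hx : ∃ j, P j x then Nat.find hx else 0, fun i => ?_, fun x hx => ?_⟩
  · refine ((((h i).and (Ms.all fun j => Ms.imp' (c := j < i) fun _ => (h j).not))).or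
      ((Ms.ex h).not.and (Ms.const (0 = i)))).congr fun x => ?_
    beta_reduce
    by_cases hx : ∃ j, P j x
    · rw [dif_pos hx, Nat.find_eq_iff]
      exact ⟨fun h => h.elim id fun h => absurd hx h.1, Or.inl⟩
    · rw [dif_neg hx]
      exact ⟨fun h => h.elim (fun h => absurd ⟨_, h.1⟩ hx) fun h => h.2, fun h => Or.inr ⟨hx, h⟩⟩
  · simp only [dif_pos hx]
    exact Nat.find_spec hx

theorem exists_sel' {I : Type} [Countable I] [Nonempty I] {P : I → Om ι → Prop}
    (h : ∀ j, Ms a (P j)) : ∃ g : Om ι → I, Mf a g ∧ ∀ x, (∃ j, P j x) → P (g x) x := by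
  obtain ⟨e, he⟩ := exists_surjective_nat I
  obtain ⟨g, hg, hg'⟩ := exists_sel (P := fun j => P (e j)) fun j => h (e j)
  refine ⟨fun x => e (g x), hg.comp e, fun x ⟨j, hj⟩ => hg' x ?_⟩
  obtain ⟨n, rfl⟩ := he j
  exact ⟨n, hj⟩

theorem Ms.induction {C : (Om ι → Prop) → Prop} (h : Ms a P)
    (h1 : ∀ η ∈ a, ∀ n k, C fun x => x η n = k) (h0 : C fun _ => False)
    (h2 : ∀ P, C P → C fun x => ¬ P x)
    (h3 : ∀ P : ℕ → Om ι → Prop, (∀ n, C (P n)) → C fun x => ∃ n, P n x) : C P := by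
  have key : ∀ S, MeasurableSet[MeasurableSpace.generateFrom (gens a)] S → C fun x => x ∈ S := by
    intro S hS
    induction S, hS using MeasurableSpace.generateFrom_induction with
    | hC S hS _ =>
      obtain ⟨η, hη, n, k, rfl⟩ := hS
      exact h1 η hη n k
    | empty => exact h0
    | compl S _ ih => exact h2 _ ih
    | iUnion S _ ih =>
      have := h3 _ ih
      simpa only [mem_iUnion] using this
  exact key _ h

theorem Ms.dep (h : Ms a P) {x x' : Om ι} (hx : ∀ η ∈ a, x η = x' η) : P x ↔ P x' := by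
  refine h.induction (C := fun P => P x ↔ P x') (fun η hη n k => by simp only [hx η hη]) Iff.rfl
    (fun P h => not_congr h) fun P h => exists_congr h

theorem Mf.dep {I : Type} {g : Om ι → I} (h : Mf a g) {x x' : Om ι}
    (hx : ∀ η ∈ a, x η = x' η) : g x = g x' := ((h (g x')).dep hx).2 rfl

theorem Ms.supp (h : Ms a P) : ∃ c ⊆ a, c.Countable ∧ Ms c P := by
  refine h.induction (C := fun P => ∃ c ⊆ a, c.Countable ∧ Ms c P) (fun η hη n k =>
    ⟨{η}, singleton_subset_iff.2 hη, countable_singleton η, Ms.coord (mem_singleton η) n k⟩)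
    ⟨∅, empty_subset _, countable_empty, Ms.const _⟩
    (fun P ⟨c, h1, h2, h3⟩ => ⟨c, h1, h2, h3.not⟩) fun P h => ?_
  choose c h1 h2 h3 using h
  exact ⟨⋃ n, c n, iUnion_subset h1, countable_iUnion h2,
    Ms.ex fun n => (h3 n).mono (subset_iUnion c n)⟩

theorem Ms.supp_family {I : Type} [Countable I] {P : I → Om ι → Prop} (h : ∀ i, Ms a (P i)) :
    ∃ c ⊆ a, c.Countable ∧ ∀ i, Ms c (P i) := by
  choose c h1 h2 h3 using fun i => (h i).supp
  exact ⟨⋃ n, c n, iUnion_subset h1, countable_iUnion h2,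
    fun n => (h3 n).mono (subset_iUnion c n)⟩

theorem card_Ms (ha : a.Countable) : #{P : Om ι → Prop | Ms a P} ≤ 𝔠 := by
  have hG : (gens a).Countable := by
    refine ((ha.prod (countable_univ (α := ℕ × ℕ))).image
      fun z : ι × ℕ × ℕ => {x : Om ι | x z.1 z.2.1 = z.2.2}).mono ?_
    rintro _ ⟨η, hη, n, k, rfl⟩
    exact ⟨(η, n, k), ⟨hη, trivial⟩, rfl⟩
  have := MeasurableSpace.cardinal_measurableSet_le_continuum (s := gens a)
    ((le_aleph0_iff_set_countable.2 hG).trans aleph0_le_continuum)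
  exact this

theorem card_Ms_family {I : Type} [Countable I] (ha : a.Countable) :
    #{P : I → Om ι → Prop | ∀ i, Ms a (P i)} ≤ 𝔠 := by
  let f : {P : I → Om ι → Prop | ∀ i, Ms a (P i)} → (I → {P : Om ι → Prop | Ms a P}) :=
    fun P i => ⟨P.1 i, P.2 i⟩
  have hf : Function.Injective f := fun P P' h =>
    Subtype.ext (funext fun i => congrArg Subtype.val (congrFun h i))
  refine (mk_le_of_injective hf).trans ?_
  rw [mk_arrow]
  simp only [lift_id]
  calc _ ≤ 𝔠 ^ #I := power_le_power_right (card_Ms ha)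
    _ ≤ 𝔠 ^ ℵ₀ := power_le_power_left continuum_ne_zero mk_le_aleph0
    _ = 𝔠 := continuum_power_aleph0

/-- closing off under a countably supported operation with values of size continuum -/
theorem exists_closed {J : Type} (Φ : Set J → Set J)
    (hΦ : ∀ S : Set J, S.Countable → #(Φ S) ≤ 𝔠) :
    ∃ A : Set J, #A ≤ 𝔠 ∧ ∀ S ⊆ A, S.Countable → Φ S ⊆ A := by
  classical
  have hf : ∀ S : Set J, ∃ f : ℝ → Option J, S.Countable → ∀ j ∈ Φ S, ∃ r, f r = some j := by
    intro S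
    by_cases hS : S.Countable
    · have h1 := hΦ S hS
      rw [← mk_real] at h1
      obtain ⟨e⟩ := h1
      refine ⟨fun r => if h : ∃ j, e j = r then some h.choose.1 else none, fun _ j hj =>
        ⟨e ⟨j, hj⟩, ?_⟩⟩
      have h : ∃ j', e j' = e ⟨j, hj⟩ := ⟨_, rfl⟩
      simp only
      rw [dif_pos h, e.injective h.choose_spec]
    · exact ⟨fun _ => none, fun h => absurd h hS⟩
  choose f hf using hf
  let β : Option ℝ → Type := fun a => {_n : ℕ // a ≠ none}
  let ev : WType β → Option J := WType.elim (Option J) fun x =>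
    match x with
    | ⟨none, _⟩ => none
    | ⟨some r, ch⟩ => f {j | ∃ n, ch n = some j} r
  have hW : #(WType β) ≤ 𝔠 := by
    refine WType.cardinalMk_le_of_le ((sum_le_sum _ (fun _ => 𝔠) fun a => ?_).trans ?_)
    · calc _ ≤ 𝔠 ^ ℵ₀ := power_le_power_left continuum_ne_zero mk_le_aleph0
        _ = 𝔠 := continuum_power_aleph0
    · simp [mk_real, add_one_eq aleph0_le_continuum]
  refine ⟨{j | ∃ t, ev t = some j}, ?_, fun S hSA hS j hj => ?_⟩
  · refine le_trans (mk_le_of_injective (f := fun j : {j | ∃ t, ev t = some j} => j.2.choose)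
      fun j j' h => ?_) hW
    have h1 := j.2.choose_spec
    have h2 := j'.2.choose_spec
    simp only at h
    rw [h, h2] at h1
    exact Subtype.ext (Option.some.inj h1).symm
  · obtain ⟨r, hr⟩ := hf S hS j hj
    have : ∃ ch : ℕ → WType β, ∀ j, (∃ n, ev (ch n) = some j) ↔ j ∈ S := by
      rcases S.eq_empty_or_nonempty with rfl | hne
      · exact ⟨fun _ => WType.mk none fun n => absurd rfl n.2, fun j => by simp [ev, WType.elim]⟩
      · obtain ⟨s, rfl⟩ := hS.exists_eq_range hne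
        choose ch hch using fun n => hSA (mem_range_self n)
        exact ⟨ch, fun j => by simp only [hch, Option.some.injEq, mem_range]⟩
    obtain ⟨ch, hch⟩ := this
    refine ⟨WType.mk (some r) fun n => ch n.1, ?_⟩
    have : {j | ∃ n : β (some r), ev (ch n.1) = some j} = S := by
      ext j
      rw [← hch]
      exact ⟨fun ⟨n, h⟩ => ⟨n.1, h⟩, fun ⟨n, h⟩ => ⟨⟨n, by simp⟩, h⟩⟩
    change f {j | ∃ n : β (some r), ev (ch n.1) = some j} r = some j
    rw [this, hr]

end Pool.Agent.MP_5f86f1_lc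

end MrgPart1

-- ======== part 2: formerly Pool.Agent.MP_5f86f1_lc.Cond
section MrgPart2

/-! Conditions of the iteration of Laver forcing: countably supported Borel systems of trees. -/

open Set

namespace Pool.Agent.MP_5f86f1_lc

/-- a condition -/
structure Cond (ι : Type) [LinearOrder ι] where
  st : ι → Om ι → List ℕ
  tr : ι → Om ι → Set (List ℕ)
  lav : ∀ ξ x, IsLav (st ξ x) (tr ξ x)
  mst : ∀ ξ, Mf (Iio ξ) (st ξ)
  mtr : ∀ ξ u, Ms (Iio ξ) fun x => u ∈ tr ξ x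
  cnt : {ξ | ∃ x, tr ξ x ≠ univ}.Countable

variable {ι : Type} [LinearOrder ι]

namespace Cond

/-- `x` obeys `p` on the coordinates in `L` -/
def B (p : Cond ι) (L : Set ι) (x : Om ι) : Prop := ∀ ξ ∈ L, x ξ ∈ br (p.tr ξ x)

/-- the body -/
def bd (p : Cond ι) (x : Om ι) : Prop := p.B univ x

/-- the support -/
def supp (p : Cond ι) : Set ι := {ξ | ∃ x, p.tr ξ x ≠ univ}

instance : Preorder (Cond ι) where
  le q p := ∀ x, q.bd x → p.bd x
  le_refl _ _ h := h
  le_trans _ _ _ h h' x hx := h' x (h x hx)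

theorem le_def {q p : Cond ι} : q ≤ p ↔ ∀ x, q.bd x → p.bd x := Iff.rfl

theorem bd_iff {p : Cond ι} {x : Om ι} : p.bd x ↔ ∀ ξ, x ξ ∈ br (p.tr ξ x) :=
  ⟨fun h ξ => h ξ trivial, fun h ξ _ => h ξ⟩

theorem B.mono {p : Cond ι} {L L' : Set ι} {x : Om ι} (h : p.B L x) (h' : L' ⊆ L) : p.B L' x :=
  fun ξ hξ => h ξ (h' hξ)

theorem bd.B {p : Cond ι} {x : Om ι} (h : p.bd x) (L : Set ι) : p.B L x :=
  B.mono h (subset_univ _)

theorem tr_eq_univ {p : Cond ι} {ξ : ι} (h : ξ ∉ p.supp) (x : Om ι) : p.tr ξ x = univ := by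
  by_contra h'
  exact h ⟨x, h'⟩

theorem tr_dep (p : Cond ι) {ξ : ι} {x x' : Om ι} (h : ∀ η < ξ, x η = x' η) :
    p.tr ξ x = p.tr ξ x' := Set.ext fun u => (p.mtr ξ u).dep h

theorem st_dep (p : Cond ι) {ξ : ι} {x x' : Om ι} (h : ∀ η < ξ, x η = x' η) :
    p.st ξ x = p.st ξ x' := (p.mst ξ).dep h

theorem ms_coord (p : Cond ι) {L : Set ι} (hL : IsLowerSet L) {ξ : ι} (hξ : ξ ∈ L) :
    Ms L fun x => x ξ ∈ br (p.tr ξ x) :=
  Ms.all fun n => (Mf.seg hξ n).subst (P := fun u x => u ∈ p.tr ξ x) fun u =>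
    (p.mtr ξ u).mono fun _ h => hL (le_of_lt h) hξ

theorem ms_B (p : Cond ι) {L : Set ι} (hL : IsLowerSet L) : Ms L (p.B L) := by
  have : Countable p.supp := p.cnt
  refine (Ms.all fun ξ : p.supp => Ms.imp' (c := ξ.1 ∈ L) fun h => p.ms_coord hL h).congr
    fun x => ⟨fun h ξ hξ => ?_, fun h ξ hξ => h ξ hξ⟩
  by_cases hs : ξ ∈ p.supp
  · exact h ⟨ξ, hs⟩ hξ
  · rw [tr_eq_univ hs]
    exact fun _ => trivial

theorem ms_bd (p : Cond ι) : Ms univ p.bd := p.ms_B isLowerSet_univ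

theorem bd_iff_B {p : Cond ι} {L : Set ι} (h : p.supp ⊆ L) {x : Om ι} : p.bd x ↔ p.B L x := by
  refine ⟨fun h => h.B L, fun h' ξ _ => ?_⟩
  by_cases hs : ξ ∈ p.supp
  · exact h' ξ (h hs)
  · rw [tr_eq_univ hs]
    exact fun _ => trivial

/-- the trivial condition -/
def top : Cond ι where
  st _ _ := []
  tr _ _ := univ
  lav _ _ := isLav_univ
  mst _ := Mf.const _
  mtr _ _ := Ms.const _
  cnt := by simp

theorem le_top (p : Cond ι) : p ≤ top := fun _ _ _ _ _ => trivial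

instance : Nonempty (Cond ι) := ⟨top⟩

/-- mixing countably many conditions -/
def mix {J : Type} [Countable J] (sel : ι → Om ι → J) (hsel : ∀ ξ, Mf (Iio ξ) (sel ξ))
    (R : J → Cond ι) : Cond ι where
  st ξ x := (R (sel ξ x)).st ξ x
  tr ξ x := (R (sel ξ x)).tr ξ x
  lav ξ x := (R _).lav ξ x
  mst ξ := (hsel ξ).bind (f := fun j => (R j).st ξ) fun j => (R j).mst ξ
  mtr ξ u := (hsel ξ).subst (P := fun j x => u ∈ (R j).tr ξ x) fun j => (R j).mtr ξ u
  cnt := (countable_iUnion fun j => (R j).cnt).mono fun ξ ⟨x, h⟩ =>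
    mem_iUnion.2 ⟨sel ξ x, Exists.intro x h⟩

open Classical in
/-- definition by cases -/
noncomputable def pick (c : ι → Om ι → Prop) (hc : ∀ ξ, Ms (Iio ξ) (c ξ)) (s q : Cond ι) :
    Cond ι where
  st ξ x := if c ξ x then s.st ξ x else q.st ξ x
  tr ξ x := if c ξ x then s.tr ξ x else q.tr ξ x
  lav ξ x := by
    split_ifs
    · exact s.lav ξ x
    · exact q.lav ξ x
  mst ξ := Mf.ite (hc ξ) (s.mst ξ) (q.mst ξ)
  mtr ξ u := (((hc ξ).and (s.mtr ξ u)).or ((hc ξ).not.and (q.mtr ξ u))).congr fun x => by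
    by_cases h : c ξ x <;> simp [h]
  cnt := (s.cnt.union q.cnt).mono fun ξ ⟨x, h⟩ => by
    by_cases h' : c ξ x
    · exact Or.inl ⟨x, by simpa [h'] using h⟩
    · exact Or.inr ⟨x, by simpa [h'] using h⟩

section pick

variable {c : ι → Om ι → Prop} {hc : ∀ ξ, Ms (Iio ξ) (c ξ)} {s q : Cond ι} {ξ : ι} {x : Om ι}

theorem pick_tr_pos (h : c ξ x) : (pick c hc s q).tr ξ x = s.tr ξ x := if_pos h
theorem pick_tr_neg (h : ¬ c ξ x) : (pick c hc s q).tr ξ x = q.tr ξ x := if_neg h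
theorem pick_st_pos (h : c ξ x) : (pick c hc s q).st ξ x = s.st ξ x := if_pos h
theorem pick_st_neg (h : ¬ c ξ x) : (pick c hc s q).st ξ x = q.st ξ x := if_neg h

end pick

/-- `s` on `L` and `q` elsewhere -/
noncomputable def cut (L : Set ι) (s q : Cond ι) : Cond ι :=
  pick (fun ξ _ => ξ ∈ L) (fun _ => Ms.const _) s q

section cut

variable {L : Set ι} {s q : Cond ι} {ξ : ι} {x : Om ι}

theorem cut_tr_pos (h : ξ ∈ L) : (cut L s q).tr ξ x = s.tr ξ x := pick_tr_pos h
theorem cut_tr_neg (h : ξ ∉ L) : (cut L s q).tr ξ x = q.tr ξ x := pick_tr_neg h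
theorem cut_st_pos (h : ξ ∈ L) : (cut L s q).st ξ x = s.st ξ x := pick_st_pos h
theorem cut_st_neg (h : ξ ∉ L) : (cut L s q).st ξ x = q.st ξ x := pick_st_neg h

theorem cut_B {L' : Set ι} (h : L' ⊆ L) : (cut L s q).B L' x ↔ s.B L' x :=
  forall₂_congr fun _ hξ => by rw [cut_tr_pos (h hξ)]

theorem cut_le (h : ∀ x, s.B L x → q.B L x) : cut L s q ≤ q := by
  intro x hx ξ _
  by_cases hξ : ξ ∈ L
  · exact h x ((cut_B Subset.rfl).1 (hx.B L)) ξ hξ
  · have := hx ξ trivial
    rwa [cut_tr_neg hξ] at this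

theorem cut_top_supp : (cut L s top).supp ⊆ L := by
  rintro ξ ⟨x, h⟩
  by_contra hξ
  exact h (cut_tr_neg hξ)

theorem cut_top_bd : (cut L s top).bd x ↔ s.B L x := by
  rw [bd_iff_B cut_top_supp, cut_B Subset.rfl]

theorem cut_le_of_supp {r : Cond ι} (hr : r.supp ⊆ L) (hs : s ≤ r) (h' : s.supp ⊆ L) :
    cut L s q ≤ r := fun _ hx =>
  (bd_iff_B hr).2 ((hs _ ((bd_iff_B h').2 ((cut_B Subset.rfl).1 (hx.B L)))).B L)

end cut

open Classical in
/-- changing one coordinate on a Borel set -/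
noncomputable def setAt (p : Cond ι) (ξ : ι) (c : Om ι → Prop) (s : Om ι → List ℕ)
    (T : Om ι → Set (List ℕ)) (hc : Ms (Iio ξ) c) (hs : Mf (Iio ξ) s)
    (hT : ∀ u, Ms (Iio ξ) fun x => u ∈ T x) (hl : ∀ x, c x → IsLav (s x) (T x)) : Cond ι where
  st η x := if η = ξ ∧ c x then s x else p.st η x
  tr η x := if η = ξ ∧ c x then T x else p.tr η x
  lav η x := by
    split_ifs with h
    · exact hl x h.2
    · exact p.lav η x
  mst η := by
    by_cases h : η = ξ
    · subst h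
      simpa using Mf.ite hc hs (p.mst η)
    · simpa [h] using p.mst η
  mtr η u := by
    by_cases h : η = ξ
    · subst h
      exact ((hc.and (hT u)).or (hc.not.and (p.mtr η u))).congr fun x => by
        by_cases h : c x <;> simp [h]
    · simpa [h] using p.mtr η u
  cnt := (p.cnt.insert ξ).mono fun η ⟨x, h⟩ => by
    by_cases h' : η = ξ
    · exact Or.inl h'
    · exact Or.inr ⟨x, by simpa [h'] using h⟩

section setAt

variable {p : Cond ι} {ξ η : ι} {c : Om ι → Prop} {s : Om ι → List ℕ}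
  {T : Om ι → Set (List ℕ)} {hc : Ms (Iio ξ) c} {hs : Mf (Iio ξ) s}
  {hT : ∀ u, Ms (Iio ξ) fun x => u ∈ T x} {hl : ∀ x, c x → IsLav (s x) (T x)} {x : Om ι}

theorem setAt_tr_pos (h : c x) : (setAt p ξ c s T hc hs hT hl).tr ξ x = T x := if_pos ⟨rfl, h⟩
theorem setAt_st_pos (h : c x) : (setAt p ξ c s T hc hs hT hl).st ξ x = s x := if_pos ⟨rfl, h⟩
theorem setAt_tr_neg (h : ¬ c x) : (setAt p ξ c s T hc hs hT hl).tr η x = p.tr η x :=
  if_neg fun h' => h h'.2
theorem setAt_st_neg (h : ¬ c x) : (setAt p ξ c s T hc hs hT hl).st η x = p.st η x :=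
  if_neg fun h' => h h'.2
theorem setAt_tr_ne (h : η ≠ ξ) : (setAt p ξ c s T hc hs hT hl).tr η x = p.tr η x :=
  if_neg fun h' => h h'.1
theorem setAt_st_ne (h : η ≠ ξ) : (setAt p ξ c s T hc hs hT hl).st η x = p.st η x :=
  if_neg fun h' => h h'.1

theorem setAt_B {L : Set ι} (h : ξ ∉ L) : (setAt p ξ c s T hc hs hT hl).B L x ↔ p.B L x :=
  forall₂_congr fun η hη => by rw [setAt_tr_ne fun h' : η = ξ => h (h' ▸ hη)]

end setAt

theorem le_of_tr_sub {q p : Cond ι} (h : ∀ ξ x, q.B (Iio ξ) x → q.tr ξ x ⊆ p.tr ξ x) : q ≤ p :=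
  fun x hx ξ _ => br_mono (h ξ x (hx.B _)) (hx ξ trivial)

variable [WellFoundedLT ι]

theorem exists_ext (p : Cond ι) {L : Set ι} (hL : IsLowerSet L) {x : Om ι} (hx : p.B L x) :
    ∃ x', p.bd x' ∧ ∀ ξ ∈ L, x' ξ = x ξ := by
  classical
  choose f hf using fun ξ y => (p.lav ξ y).br_nonempty
  let F : (ξ : ι) → ((η : ι) → η < ξ → ℕ → ℕ) → ℕ → ℕ := fun ξ g =>
    if ξ ∈ L then x ξ else f ξ fun η => if h : η < ξ then g η h else x η
  let x' : Om ι := wellFounded_lt.fix F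
  have hx' : ∀ ξ, x' ξ = if ξ ∈ L then x ξ else f ξ fun η => if η < ξ then x' η else x η := by
    intro ξ
    simp only [x']
    rw [WellFounded.fix_eq]
    simp only [F, dite_eq_ite]
  have h1 : ∀ ξ ∈ L, x' ξ = x ξ := fun ξ hξ => by rw [hx', if_pos hξ]
  refine ⟨x', fun ξ _ => ?_, h1⟩
  by_cases hξ : ξ ∈ L
  · rw [h1 ξ hξ, p.tr_dep fun η hη => h1 η (hL hη.le hξ)]
    exact hx ξ hξ
  · rw [hx', if_neg hξ, p.tr_dep (x := x') (x' := fun η => if η < ξ then x' η else x η)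
      fun η hη => by simp [hη]]
    exact hf _ _

theorem bd_nonempty (p : Cond ι) : ∃ x, p.bd x :=
  let ⟨x, hx, _⟩ := p.exists_ext isLowerSet_empty (x := fun _ _ => 0) fun _ h => h.elim
  ⟨x, hx⟩

theorem of_bd {p : Cond ι} {L : Set ι} (hL : IsLowerSet L) {A : Om ι → Prop} (hA : Ms L A)
    (h : ∀ x, p.bd x → A x) {x : Om ι} (hx : p.B L x) : A x := by
  obtain ⟨x', h1, h2⟩ := p.exists_ext hL hx
  exact (hA.dep h2).1 (h x' h1)

theorem B_of_le {q p : Cond ι} (h : q ≤ p) {L : Set ι} (hL : IsLowerSet L) {x : Om ι}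
    (hx : q.B L x) : p.B L x :=
  of_bd hL (p.ms_B hL) (fun y hy => (h y hy).B L) hx

omit [WellFoundedLT ι] in
theorem tr_sub_of_B {q p : Cond ι} {ξ : ι} (h : ∀ x, q.B (Iic ξ) x → p.B (Iic ξ) x) {x : Om ι}
    (hx : q.B (Iio ξ) x) : q.tr ξ x ⊆ p.tr ξ x := by
  classical
  intro u hu
  obtain ⟨y, hy, he⟩ := (q.lav ξ x).exists_br hu
  have h0 : ∀ η < ξ, Function.update x ξ y η = x η := fun η hη =>
    Function.update_of_ne hη.ne _ _
  have h1 : q.B (Iic ξ) (Function.update x ξ y) := by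
    intro η hη
    rcases (mem_Iic.1 hη).lt_or_eq with h2 | rfl
    · rw [h0 η h2, q.tr_dep fun ζ hζ => h0 ζ (hζ.trans h2)]
      exact hx η h2
    · rw [q.tr_dep h0, Function.update_self]
      exact hy
  have h2 := h _ h1 ξ self_mem_Iic
  rw [p.tr_dep h0, Function.update_self] at h2
  exact he ▸ h2 _

theorem tr_sub_of_le {q p : Cond ι} (h : q ≤ p) {ξ : ι} {x : Om ι} (hx : q.B (Iio ξ) x) :
    q.tr ξ x ⊆ p.tr ξ x :=
  tr_sub_of_B (fun _ hy => B_of_le h (isLowerSet_Iic ξ) hy) hx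

theorem cut_le' {s q : Cond ι} {L : Set ι} (hL : IsLowerSet L) (h : s ≤ q) : cut L s q ≤ q :=
  cut_le fun _ hx => B_of_le h hL hx

theorem bd_of_step {q : Cond ι} {x : Om ι} (h : ∀ ξ, q.B (Iio ξ) x → x ξ ∈ br (q.tr ξ x)) :
    q.bd x := by
  intro ξ _
  induction ξ using WellFoundedLT.induction with
  | ind ξ ih => exact h ξ fun η hη => ih η hη trivial

omit [WellFoundedLT ι] in
/-- thinning the tree at one coordinate -/
theorem exists_thin (p : Cond ι) (α : ι) {A : Om ι → List ℕ → ℕ → Prop}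
    (hA : ∀ u k, Ms (Iio α) fun x => A x u k)
    (h : ∀ x, p.B (Iio α) x → ∀ u ∈ p.tr α x, p.st α x <+: u → ∀ m, ∃ k, m ≤ k ∧
      u ++ [k] ∈ p.tr α x ∧ A x u k) :
    ∃ q, q ≤ p ∧ (∀ x, q.B (Iio α) x ↔ p.B (Iio α) x) ∧
      (∀ x, p.B (Iio α) x → ∀ u k, u ++ [k] ∈ q.tr α x → p.st α x <+: u →
        u ∈ q.tr α x ∧ A x u k) ∧
      ∀ x, q.bd x → ∀ j, (p.st α x).length ≤ j → A x (seg (x α) j) (x α j) := by
  let q := setAt p α (p.B (Iio α)) (p.st α) (fun x => thin (p.st α x) (p.tr α x) (A x))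
    (p.ms_B (isLowerSet_Iio α)) (p.mst α)
    (fun u => (p.mtr α u).and (Ms.all fun v => Ms.all fun k => Ms.imp' fun _ =>
      ((p.mst α).pred (· <+: v)).imp (hA v k)))
    fun x hx => (p.lav α x).thin (h x hx)
  have h1 : ∀ x, q.B (Iio α) x ↔ p.B (Iio α) x := fun x => setAt_B (lt_irrefl α)
  have h2 : q ≤ p := le_of_tr_sub fun ξ x hx => by
    by_cases hξ : ξ = α
    · subst hξ
      rw [setAt_tr_pos ((h1 x).1 hx)]
      exact fun u hu => hu.1
    · rw [setAt_tr_ne hξ]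
  have h3 : ∀ x, p.B (Iio α) x → ∀ u k, u ++ [k] ∈ q.tr α x → p.st α x <+: u →
      u ∈ q.tr α x ∧ A x u k := by
    intro x hx u k hu hs
    refine ⟨(q.lav α x).down _ hu _ (List.prefix_append _ _), ?_⟩
    rw [setAt_tr_pos hx] at hu
    exact hu.2 u k (List.prefix_refl _) hs
  refine ⟨q, h2, h1, h3, fun x hx j hj => ?_⟩
  refine (h3 x ((h1 x).1 (hx.B _)) _ _ ?_
    ((p.lav α x).stem_pre_seg (h2 x hx α trivial) hj)).2
  rw [← seg_succ]
  exact hx α trivial _

omit [WellFoundedLT ι] in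
/-- amalgamation of countably many conditions above a level of the tree at `ξ` -/
theorem exists_amalg (s : Cond ι) (ξ : ι) {t0 : Om ι → List ℕ} {len : Om ι → ℕ}
    {J : Om ι → Set (List ℕ)} {I : Type} [Countable I] {g : List ℕ → Om ι → I}
    (R : List ℕ → I → Cond ι)
    (m0 : Mf (Iio ξ) t0) (ml : Mf (Iio ξ) len) (mJ : ∀ t, Ms (Iio ξ) fun x => t ∈ J x)
    (mg : ∀ t, Mf (Iio ξ) (g t))
    (h1 : ∀ x, s.B (Iio ξ) x → ∀ t ∈ J x, t.length = len x)
    (h2 : ∀ x, s.B (Iio ξ) x → (J x).Nonempty)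
    (h3 : ∀ x, s.B (Iio ξ) x → ∀ t ∈ J x, t0 x <+: t)
    (h4 : ∀ x, s.B (Iio ξ) x → ∀ t ∈ J x, ∀ u, u <+: t → t0 x <+: u → u.length < len x →
      ∀ m, ∃ k, m ≤ k ∧ ∃ t' ∈ J x, u ++ [k] <+: t')
    (h5 : ∀ x, s.B (Iio ξ) x → ∀ t ∈ J x,
      (R t (g t x)).B (Iio ξ) x ∧ (R t (g t x)).st ξ x = t) :
    ∃ q : Cond ι, (∀ η < ξ, ∀ x, q.st η x = s.st η x ∧ q.tr η x = s.tr η x) ∧
      (∀ x, s.B (Iio ξ) x → q.st ξ x = t0 x ∧ ∀ t ∈ J x, t ∈ q.tr ξ x) ∧
      (∀ η, ξ < η → ∀ x, q.st η x = (R (seg (x ξ) (len x)) (g (seg (x ξ) (len x)) x)).st η x) ∧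
      ∀ L, IsLowerSet L → ξ ∈ L → ∀ x, q.B L x → seg (x ξ) (len x) ∈ J x ∧
        (R (seg (x ξ) (len x)) (g (seg (x ξ) (len x)) x)).B L x := by
  classical
  have hl : ∀ x, s.B (Iio ξ) x → ∀ t ∈ J x, IsLav t ((R t (g t x)).tr ξ x) := fun x hx t ht => by
    have := (R t (g t x)).lav ξ x
    rwa [(h5 x hx t ht).2] at this
  let sel : ι → Om ι → List ℕ × I := fun η x =>
    if ξ < η then (seg (x ξ) (len x), g (seg (x ξ) (len x)) x) else ([], g [] fun _ _ => 0)
  have hsel : ∀ η, Mf (Iio η) (sel η) := by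
    intro η
    by_cases h : ξ < η
    · have h6 : Mf (Iio η) fun x => seg (x ξ) (len x) :=
        (ml.mono (Iio_subset_Iio h.le)).bind (f := fun n x => seg (x ξ) n) fun n =>
          Mf.seg (a := Iio η) h n
      simp only [sel, if_pos h]
      exact h6.prod (h6.bind fun t => (mg t).mono (Iio_subset_Iio h.le))
    · simp only [sel, if_neg h]
      exact Mf.const _
  let q1 := cut (Iic ξ) s (mix sel hsel fun z => R z.1 z.2)
  let q := setAt q1 ξ (s.B (Iio ξ)) t0 (fun x => {u | ∃ t ∈ J x, u ∈ (R t (g t x)).tr ξ x})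
    (s.ms_B (isLowerSet_Iio ξ)) m0
    (fun u => Ms.ex fun t => (mJ t).and ((mg t).subst (P := fun j x => u ∈ (R t j).tr ξ x)
      fun j => (R t j).mtr ξ u))
    fun x hx => isLav_glue (h1 x hx) (h2 x hx) (h3 x hx) (h4 x hx) (hl x hx)
  have k1 : ∀ η < ξ, ∀ x, q.st η x = s.st η x ∧ q.tr η x = s.tr η x := fun η hη x =>
    ⟨(setAt_st_ne hη.ne).trans (cut_st_pos hη.le), (setAt_tr_ne hη.ne).trans (cut_tr_pos hη.le)⟩
  refine ⟨q, k1, fun x hx => ⟨setAt_st_pos hx, fun t ht => ?_⟩, fun η hη x => ?_,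
    fun L hL hξ x hx => ?_⟩
  · rw [setAt_tr_pos hx]
    exact ⟨t, ht, (hl x hx t ht).stem⟩
  · rw [setAt_st_ne hη.ne', cut_st_neg (L := Iic ξ) (not_le.2 hη)]
    simp only [mix, sel, if_pos hη]
  · have k2 : s.B (Iio ξ) x := fun η hη => by
      rw [← (k1 η hη x).2]
      exact hx η (hL (le_of_lt hη) hξ)
    have k3 := hx ξ hξ
    rw [setAt_tr_pos k2] at k3
    have k4 := br_glue (h1 x k2) (hl x k2) k3
    refine ⟨k4.1, fun η hη => ?_⟩
    rcases lt_trichotomy η ξ with h | rfl | h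
    · exact (h5 x k2 _ k4.1).1 η h
    · exact k4.2
    · have k5 := hx η hη
      rw [setAt_tr_ne h.ne', cut_tr_neg (L := Iic ξ) (not_le.2 h)] at k5
      simpa only [mix, sel, if_pos h] using k5

end Cond

end Pool.Agent.MP_5f86f1_lc

end MrgPart2

-- marker of a merged file
example : 731051 + 721915 = 731051 + 721915 := rfl
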