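import Pool.Agent.Lib.helper77.ZFCDefs

/-! The notions of the problem read inside a structure `(M, E)`.  Throughout `w` is `ω`, and `l`
is a dense linear order on `w`, whose Dedekind cuts are the real numbers. -/

namespace Pool.Agent.MP_5f86f1_lc

open Pool.Agent.ZFC77

variable {M : Type 1} (E : M → M → Prop)

/-- the relation `f` is single valued -/
def IFunc (f : M) : Prop := ∀ i z z', IApp E f i z → IApp E f i z' → z = z'

/-- `D` is contained in the image of `R` under a function, that is `|D| ≤ |R|` -/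
def IImg (R D : M) : Prop := ∃ f, IFunc E f ∧ ∀ z, E z D → ∃ i, E i R ∧ IApp E f i z

/-- `F` is finite -/
def IFin (w F : M) : Prop := ∃ n, E n w ∧ IImg E n F

/-- `A ⊆ w` is infinite -/
def IUnb (w A : M) : Prop := ∀ n, E n w → ∃ m, E m A ∧ E n m

/-- `A ∩ Y` and `A \ Y` are infinite -/
def ISplits (w Y A : M) : Prop :=
  (∀ n, E n w → ∃ m, E m A ∧ E n m ∧ E m Y) ∧ ∀ n, E n w → ∃ m, E m A ∧ E n m ∧ ¬ E m Y

/-- `f : w → w` -/
def IFn (w f : M) : Prop := IFunc E f ∧ ∀ n, E n w → ∃ m, E m w ∧ IApp E f n m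

/-- `D` is a dominating family -/
def IDom (w D : M) : Prop :=
  (∀ g, E g D → IFn E w g) ∧ ∀ f, IFn E w f → ∃ g, E g D ∧ ∃ N, E N w ∧
    ∀ n, E n w → E N n → ∀ a b, IApp E f n a → IApp E g n b → ISub E a b

/-- `d ≤ r` -/
def IDleR (w : M) : Prop :=
  ∀ R, (∀ A, E A R → ISub E A w ∧ IUnb E w A) → (¬ ∃ Y, ∀ A, E A R → ISplits E w Y A) →
    ∃ D, IDom E w D ∧ IImg E R D

/-- `l` is a dense linear order without endpoints on `w` -/
def IDlo (w l : M) : Prop :=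
  (∀ a, E a w → ¬ IApp E l a a) ∧
  (∀ a, E a w → ∀ b, E b w → ∀ c, E c w → IApp E l a b → IApp E l b c → IApp E l a c) ∧
  (∀ a, E a w → ∀ b, E b w → IApp E l a b ∨ a = b ∨ IApp E l b a) ∧
  (∀ a, E a w → ∀ b, E b w → IApp E l a b → ∃ c, E c w ∧ IApp E l a c ∧ IApp E l c b) ∧
  ∀ a, E a w → (∃ b, E b w ∧ IApp E l a b) ∧ ∃ b, E b w ∧ IApp E l b a

/-- `x` is a real number: a Dedekind cut -/
def IReal (w l x : M) : Prop :=
  ISub E x w ∧ (∃ a, E a w ∧ E a x) ∧ (∃ a, E a w ∧ ¬ E a x) ∧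
    (∀ a, E a w → ∀ b, E b x → IApp E l a b → E a x) ∧ ∀ a, E a x → ∃ b, E b x ∧ IApp E l a b

/-- `x` is a real number with `a < x < b`, for rationals `a`, `b` -/
def IBtw (w l a b x : M) : Prop :=
  IReal E w l x ∧ E a x ∧ ∃ c, E c w ∧ IApp E l c b ∧ ¬ E c x

/-- `O` is an open subset of the line -/
def IOpn (w l O : M) : Prop :=
  ∀ x, E x O → ∃ a, E a w ∧ ∃ b, E b w ∧ IBtw E w l a b x ∧ ∀ y, IBtw E w l a b y → E y O

/-- the pairs in `O` form an open subset of the plane -/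
def IOpn2 (w l O : M) : Prop :=
  ∀ x y, IApp E O x y → ∃ a, E a w ∧ ∃ b, E b w ∧ ∃ c, E c w ∧ ∃ d, E d w ∧
    (IBtw E w l a b x ∧ IBtw E w l c d y) ∧
      ∀ x' y', IBtw E w l a b x' → IBtw E w l c d y' → IApp E O x' y'

/-- `s` is a sequence -/
def ISeq (w s : M) : Prop := IFunc E s ∧ ∀ n, E n w → ∃ U, IApp E s n U

/-- `t` is a sequence of finite subsets of the terms of `s` -/
def ISel (w s t : M) : Prop :=
  ISeq E w t ∧ ∀ n, E n w → ∀ U F, IApp E s n U → IApp E t n F → ISub E F U ∧ IFin E w F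

/-- `X` has the Scheepers property -/
def IScheepers (w l X : M) : Prop :=
  ∀ s, ISeq E w s → (∀ n, E n w → ∀ U, IApp E s n U →
      (∀ O, E O U → IOpn E w l O) ∧ ∀ x, E x X → ∃ O, E O U ∧ E x O) →
    ∃ t, ISel E w s t ∧ ∀ G, ISub E G X → IFin E w G →
      ∃ n, E n w ∧ ∃ F, IApp E t n F ∧ ∀ x, E x G → ∃ O, E O F ∧ E x O

/-- `X × X` has the Menger property -/
def IMenger2 (w l X : M) : Prop :=
  ∀ s, ISeq E w s → (∀ n, E n w → ∀ U, IApp E s n U →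
      (∀ O, E O U → IOpn2 E w l O) ∧ ∀ x, E x X → ∀ y, E y X → ∃ O, E O U ∧ IApp E O x y) →
    ∃ t, ISel E w s t ∧ ∀ x, E x X → ∀ y, E y X →
      ∃ n, E n w ∧ ∃ F, IApp E t n F ∧ ∃ O, E O F ∧ IApp E O x y

end Pool.Agent.MP_5f86f1_lc
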