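import Pool.Agent.MP_5f86f1_lc.Names
import Pool.Agent.MP_5f86f1_lc.Inner
import Pool.Agent.Lib.helper77.ForcingModel

-- ======== part 0: formerly Pool.Agent.MP_5f86f1_lc.Reals
section MrgPart0

/-! Names for Borel reals, intervals and functions. -/

open Set

namespace Pool.Agent.MP_5f86f1_lc

open Cond Pool.Agent.Forcing92 Fml

variable {ι : Type} [LinearOrder ι]

/-- `A` holds on the bodies of densely many conditions below `p` -/
def AE (p : Cond ι) (A : Om ι → Prop) : Prop := ∀ q ≤ p, ∃ r ≤ q, ∀ x, r.bd x → A x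

/-- the name of a Borel real -/
def setN (u : Om ι → ℕ → Prop) : Nm ι :=
  .mk {z : ℕ × Cond ι // ∀ x, z.2.bd x → u x z.1} (fun z => nn z.1.1) fun z => z.1.2

/-- the name of a Borel function -/
def funN (h : Om ι → ℕ → ℕ) : Nm ι :=
  relN {z : ℕ × ℕ × Cond ι // ∀ x, z.2.2.bd x → h x z.1 = z.2.1} (fun z => nn z.1.1)
    (fun z => nn z.1.2.1) fun z => z.1.2.2

/-- the name of the `k`-th rational interval -/
def basN (k : ℕ) : Nm ι :=
  .mk {z : (Om ι → ℕ → Prop) × Cond ι // RV univ z.1 ∧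
    ∀ x, z.2.bd x → isReal (z.1 x) ∧ bas k (z.1 x)} (fun z => setN z.1.1) fun z => z.1.2

variable {p q : Cond ι} {A A' : Om ι → Prop} {u v : Om ι → ℕ → Prop} {z : Nm ι}

theorem AE.of_all (h : ∀ x, p.bd x → A x) : AE p A := fun q hq => ⟨q, le_rfl, fun x hx =>
  h x (hq x hx)⟩

theorem AE.mono (h : AE p A) (hq : q ≤ p) : AE q A := fun r hr => h r (hr.trans hq)

theorem AE.imp (h : AE p A) (h' : ∀ x, A x → A' x) : AE p A' := fun q hq =>
  let ⟨r, hr, h1⟩ := h q hq; ⟨r, hr, fun x hx => h' x (h1 x hx)⟩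

theorem AE.and (h : AE p A) (h' : AE p A') : AE p fun x => A x ∧ A' x := fun q hq => by
  obtain ⟨r, hr, h1⟩ := h q hq
  obtain ⟨t, ht, h2⟩ := h' r (hr.trans hq)
  exact ⟨t, ht.trans hr, fun x hx => ⟨h1 x (ht x hx), h2 x hx⟩⟩

theorem AE.dense (h : ∀ q ≤ p, ∃ r ≤ q, AE r A) : AE p A := fun q hq => by
  obtain ⟨r, hr, h1⟩ := h q hq
  obtain ⟨t, ht, h2⟩ := h1 r le_rfl
  exact ⟨t, ht.trans hr, h2⟩

theorem mem_setN : fM z (setN u) p ↔
    ∀ q ≤ p, ∃ r ≤ q, ∃ n, fE (nn n) z r ∧ ∀ x, r.bd x → u x n :=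
  fMem_mk_iff.trans (forall₂_congr fun _ _ => exists_congr fun r => and_congr_right fun _ =>
    ⟨fun ⟨j, h1, h2⟩ => ⟨j.1.1, h2, fun x hx => j.2 x (h1 x hx)⟩,
      fun ⟨n, h1, h2⟩ => ⟨⟨(n, r), h2⟩, le_refl r, h1⟩⟩)

theorem nn_mem_setN {n : ℕ} : fM (nn n) (setN u) p ↔ AE p fun x => u x n :=
  mem_setN.trans (forall₂_congr fun _ _ => exists_congr fun _ => and_congr_right fun _ =>
    ⟨fun ⟨_, h1, h2⟩ => nn_inj h1 ▸ h2, fun h => ⟨n, fE.rfl, h⟩⟩)

theorem setN_sub_om : Fo (sub (setN u) om) p := forces_sub.2 fun _ q _ h =>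
  fMem_dense fun r hr => let ⟨t, ht, n, h1, _⟩ := mem_setN.1 h r hr
    ⟨t, ht, fM.left (nn_mem_om n) h1⟩

theorem setN_congr (h : ∀ x, p.bd x → ∀ n, u x n ↔ v x n) : fE (setN u) (setN v) p :=
  fEq_of_ext fun _ q hq => mem_setN.trans (Iff.trans (forall₂_congr fun _ h1 =>
    exists_congr fun _ => and_congr_right fun h2 => exists_congr fun n => and_congr_right
      fun _ => forall₂_congr fun x hx => h x (hq x (h1 x (h2 x hx))) n) mem_setN.symm)

theorem allIn_setN {f : Nm ι → Fml (Nm ι)} (hf : Cong f)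
    (h : ∀ n, ∀ q ≤ p, (∀ x, q.bd x → u x n) → Fo (f (nn n)) q) : Fo (allIn (setN u) f) p :=
  forces_allIn.2 fun _ q hq hx => Forces.dense fun r hr => by
    obtain ⟨t, ht, n, h1, h2⟩ := mem_setN.1 hx r hr
    exact ⟨t, ht, hf.fo h1 (h n t (ht.trans (hr.trans hq)) h2)⟩

theorem exIn_setN {f : Nm ι → Fml (Nm ι)} (hf : Cong f) (h : Fo (exIn (setN u) f) p) :
    ∃ r ≤ p, ∃ n, (∀ x, r.bd x → u x n) ∧ Fo (f (nn n)) r := by
  obtain ⟨r, hr, x, h1, h2⟩ := forces_exIn.1 h p le_rfl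
  obtain ⟨t, ht, n, h3, h4⟩ := mem_setN.1 h1 r le_rfl
  exact ⟨t, ht.trans hr, n, h4, hf.fo h3.symm (Fo.mono h2 ht)⟩

theorem app_funN {h : Om ι → ℕ → ℕ} {a b : Nm ι} : Fo (app (funN h) a b) p ↔
    ∀ q ≤ p, ∃ r ≤ q, ∃ n m, fE (nn n) a r ∧ fE (nn m) b r ∧ ∀ x, r.bd x → h x n = m :=
  app_rel.trans (forall₂_congr fun _ _ => exists_congr fun r => and_congr_right fun _ =>
    ⟨fun ⟨j, h1, h2, h3⟩ => ⟨j.1.1, j.1.2.1, h2, h3, fun x hx => j.2 x (h1 x hx)⟩,
      fun ⟨n, m, h1, h2, h3⟩ => ⟨⟨(n, m, r), h3⟩, le_refl r, h1, h2⟩⟩)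

theorem mem_basN {k : ℕ} : fM z (basN k) p ↔ ∀ q ≤ p, ∃ r ≤ q, ∃ u, RV univ u ∧
    fE (setN u) z r ∧ ∀ x, r.bd x → isReal (u x) ∧ bas k (u x) :=
  fMem_mk_iff.trans (forall₂_congr fun _ _ => exists_congr fun r => and_congr_right fun _ =>
    ⟨fun ⟨j, h1, h2⟩ => ⟨j.1.1, j.2.1, h2, fun x hx => j.2.2 x (h1 x hx)⟩,
      fun ⟨u, h1, h2, h3⟩ => ⟨⟨(u, r), h1, h3⟩, le_refl r, h2⟩⟩)

theorem cong_real : Cong (real (om : Nm ι) lN) := by
  intro p x y h
  simp only [real, sub, allIn, exIn, Fml.imp, ex, app, pair, Fml.iff, Fml.or]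
  repeat' first | exact h | exact fE.rfl | constructor | intro _

theorem cong_btw (a b : Nm ι) : Cong (btw om lN a b) := by
  intro p x y h
  simp only [btw, real, sub, allIn, exIn, Fml.imp, ex, app, pair, Fml.iff, Fml.or]
  repeat' first | exact h | exact fE.rfl | constructor | intro _

variable [WellFoundedLT ι]

theorem AE.contra (h : AE p A) (h' : AE p fun x => ¬ A x) : False := by
  obtain ⟨r, -, h1⟩ := h.and h' p le_rfl
  obtain ⟨x, hx⟩ := r.bd_nonempty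
  exact (h1 x hx).2 (h1 x hx).1

theorem AE.all {I : Type} [Countable I] {A : I → Om ι → Prop} (hA : ∀ i, Ms univ (A i))
    (h : ∀ i, AE p (A i)) : AE p fun x => ∀ i, A i x := fun q hq =>
  exists_all hA q fun i _ hs h' => (h i).mono (hs.trans hq) |>.contra (AE.of_all h')

theorem AE.of_not (hA : Ms univ A) (h : ∀ q ≤ p, ¬ ∀ x, q.bd x → ¬ A x) : AE p A :=
  fun q hq => by
    obtain ⟨r, hr, h1 | h1⟩ := dec2 hA q
    · exact ⟨r, hr, h1⟩
    · exact absurd h1 (h r (hr.trans hq))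

theorem AE.ex {I : Type} [Countable I] {A : I → Om ι → Prop} (hA : ∀ i, Ms univ (A i))
    (h : AE p fun x => ∃ i, A i x) : ∃ r ≤ p, ∃ i, ∀ x, r.bd x → A i x := by
  obtain ⟨r, hr, h1⟩ := h p le_rfl
  obtain ⟨t, ht, h2⟩ := dec hA r h1
  exact ⟨t, ht.trans hr, h2⟩

theorem nn_not_mem_setN (hu : RV univ u) {n : ℕ} :
    Fo (neg (mem (nn n) (setN u))) p ↔ AE p fun x => ¬ u x n :=
  ⟨fun h => AE.of_not (hu n).not fun q hq h' => h q hq
    (nn_mem_setN.2 (AE.of_all fun x hx => not_not.1 (h' x hx))),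
    fun h q hq h' => (nn_mem_setN.1 h').contra (h.mono hq)⟩

theorem ae_of_setN_eq (hu : RV univ u) (hv : RV univ v) (h : fE (setN u) (setN v) p) :
    AE p fun x => ∀ n, u x n ↔ v x n := by
  refine AE.all (fun n => (hu n).iff (hv n)) fun n q hq => ?_
  obtain ⟨r, hr, h1 | h1⟩ := dec2 (hu n) q
  · obtain ⟨t, ht, h2⟩ := nn_mem_setN.1 (fM.right (nn_mem_setN.2 (AE.of_all h1))
      (h.mono (hr.trans hq))) r le_rfl
    exact ⟨t, ht.trans hr, fun x hx => ⟨fun _ => h2 x hx, fun _ => h1 x (ht x hx)⟩⟩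
  · obtain ⟨t, ht, h2 | h2⟩ := dec2 (hv n) r
    · exact ((nn_mem_setN.1 (fM.right (nn_mem_setN.2 (AE.of_all h2))
        (h.mono (ht.trans (hr.trans hq))).symm)).contra
        (AE.of_all fun x hx => h1 x (ht x hx))).elim
    · exact ⟨t, ht.trans hr, fun x hx => ⟨fun h => absurd h (h1 x (ht x hx)),
        fun h => absurd h (h2 x hx)⟩⟩

/-- reading off countably many decisions from the generic point -/
theorem exists_read {I : Type} [Countable I] (Y : I → Cond ι → Prop)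
    (hY : ∀ i r r', r' ≤ r → Y i r → Y i r') (p : Cond ι) :
    ∃ q ≤ p, ∃ A : I → Om ι → Prop, (∀ i, Ms univ (A i)) ∧
      (∀ i, ∀ r ≤ q, Y i r → ∃ r' ≤ r, ∀ x, r'.bd x → A i x) ∧
      ∀ i, ∀ r : Cond ι, (∀ x, r.bd x → A i x) → ∃ r' ≤ r, Y i r' := by
  obtain ⟨q, h1, -, h2⟩ := cap isLowerSet_univ ∅ (by simp) p
    (fun i d => Y i d ∨ ∀ r ≤ d, ¬ Y i r) fun i r _ => by
      by_cases h : ∃ r' ≤ r, Y i r'
      · exact let ⟨r', h1, h2⟩ := h; ⟨r', h1, Or.inl h2⟩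
      · exact ⟨r, le_rfl, Or.inr fun r' h1 h2 => h ⟨r', h1, h2⟩⟩
  choose d h3 h4 using h2
  refine ⟨q, h1, fun i x => ∃ j, (d i j).bd x ∧ Y i (d i j),
    fun i => Ms.ex fun j => (d i j).ms_bd.and (Ms.const _), fun i r hr h => ?_, fun i r h => ?_⟩
  · obtain ⟨t, ht, j, h5⟩ := dec (fun j => (d i j).ms_bd) r fun x hx => h4 i x (hr x hx)
    exact ⟨t, ht, fun x hx => ⟨j, h5 x hx,
      (h3 i j).resolve_right fun h' => h' t h5 (hY _ _ _ ht h)⟩⟩
  · obtain ⟨t, ht, j, h5⟩ := dec (fun j => (d i j).ms_bd.and (Ms.const (Y i (d i j)))) r h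
    obtain ⟨x, hx⟩ := t.bd_nonempty
    exact ⟨t, ht, hY _ _ _ (fun x hx => (h5 x hx).1) (h5 x hx).2⟩

theorem exists_setN (h : Fo (sub z om) p) : ∃ q ≤ p, ∃ u, RV univ u ∧ fE (setN u) z q := by
  obtain ⟨q, h1, A, h2, h3, h4⟩ := exists_read (fun n r => fM (nn n) z r)
    (fun _ _ _ h h' => h'.mono h) p
  refine ⟨q, h1, fun x n => A n x, h2, fEq_of_ext fun y r hr => ⟨fun hy => ?_, fun hy => ?_⟩⟩
  · refine fMem_dense fun t ht => ?_
    obtain ⟨t1, k1, n, k2, k3⟩ := mem_setN.1 hy t ht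
    obtain ⟨t2, k4, k5⟩ := h4 n t1 k3
    exact ⟨t2, k4.trans k1, k5.left (k2.mono k4)⟩
  · refine mem_setN.2 fun t ht => ?_
    have k0 : t ≤ q := ht.trans hr
    obtain ⟨t1, k1, n, k2⟩ := mem_om (forces_sub.1 h y t (k0.trans h1) (fM.mono hy ht))
    obtain ⟨t2, k3, k4⟩ := h3 n t1 (k1.trans k0) (fM.left (fM.mono hy (k1.trans ht)) k2.symm)
    exact ⟨t2, k3.trans k1, n, k2.mono k3, k4⟩

theorem real_setN (hu : RV univ u) : Fo (real om lN (setN u)) p ↔ AE p fun x => isReal (u x) := by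
  constructor
  · rintro ⟨-, h1, h2, h3, h4⟩
    refine AE.and (fun q hq => ?_) (AE.and (fun q hq => ?_) (AE.and ?_ ?_))
    · obtain ⟨r, hr, n, h⟩ := exIn_om (fun _ _ _ h => .mem h fE.rfl) (Fo.mono h1 hq)
      obtain ⟨t, ht, h'⟩ := nn_mem_setN.1 h r le_rfl
      exact ⟨t, ht.trans hr, fun x hx => ⟨n, h' x hx⟩⟩
    · obtain ⟨r, hr, n, h⟩ := exIn_om (fun _ _ _ h => .neg (.mem h fE.rfl)) (Fo.mono h2 hq)
      obtain ⟨t, ht, h'⟩ := (nn_not_mem_setN hu).1 h r le_rfl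
      exact ⟨t, ht.trans hr, fun x hx => ⟨n, h' x hx⟩⟩
    · refine AE.all (fun a => Ms.all fun b => Ms.imp' fun _ => (hu b).imp (hu a)) fun a =>
        AE.all (fun b => Ms.imp' fun _ => (hu b).imp (hu a)) fun b q hq => ?_
      obtain ⟨r, hr, h | h⟩ := dec2 (hu b) q
      · by_cases hab : ql a b
        · obtain ⟨t, ht, h'⟩ := nn_mem_setN.1 (forces_imp.1 (forces_allIn.1 (allIn_om' h3 a) _ r
            (hr.trans hq) (nn_mem_setN.2 (AE.of_all h))) r le_rfl (app_lN.2 hab)) r le_rfl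
          exact ⟨t, ht.trans hr, fun x hx _ _ => h' x hx⟩
        · exact ⟨r, hr, fun _ _ h' => absurd h' hab⟩
      · exact ⟨r, hr, fun x hx _ h' => absurd h' (h x hx)⟩
    · refine AE.all (fun a => (hu a).imp (Ms.ex fun b => (Ms.const _).and (hu b)))
        fun a q hq => ?_
      obtain ⟨r, hr, h | h⟩ := dec2 (hu a) q
      · obtain ⟨t, ht, b, h5, h6⟩ := exIn_setN
          (fun _ _ _ h => Sim.app (fun _ => fE.rfl) fE.rfl fE.rfl h)
          (forces_allIn.1 h4 _ r (hr.trans hq) (nn_mem_setN.2 (AE.of_all h)))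
        exact ⟨t, ht.trans hr, fun x hx _ => ⟨b, app_lN.1 h6, h5 x hx⟩⟩
      · exact ⟨r, hr, fun x hx h' => absurd h' (h x hx)⟩
  · intro h
    refine ⟨setN_sub_om, Forces.dense fun q hq => ?_, Forces.dense fun q hq => ?_,
      allIn_om ?_ fun a => allIn_setN ?_ fun b q hq hb => forces_imp.2 fun r hr hab => ?_,
      allIn_setN ?_ fun a q hq ha => Forces.dense fun r hr => ?_⟩
    any_goals
      intro p x y h
      simp only [allIn, exIn, Fml.or, Fml.imp, ex, app, pair, Fml.iff]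
      repeat' first | exact h | exact fE.rfl | constructor | intro _
    · obtain ⟨r, hr, n, h1⟩ := ((h.mono hq).imp fun _ h => h.1).ex hu
      exact ⟨r, hr, exIn_om_of n (nn_mem_setN.2 (AE.of_all h1))⟩
    · obtain ⟨r, hr, n, h1⟩ := ((h.mono hq).imp fun _ h => h.2.1).ex fun n => (hu n).not
      exact ⟨r, hr, exIn_om_of n ((nn_not_mem_setN hu).2 (AE.of_all h1))⟩
    · exact nn_mem_setN.2 (((h.mono (le_trans hr hq)).and (AE.of_all fun x hx =>
        hb x (hr x hx))).imp fun x h' => h'.1.2.2.1 a b (app_lN.1 hab) h'.2)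
    · obtain ⟨t, ht, b, h1⟩ := (((h.mono (le_trans hr hq)).and (AE.of_all fun x hx =>
        ha x (hr x hx))).imp fun x h' => h'.1.2.2.2 a h'.2).ex
        fun b => (Ms.const _).and (hu b)
      obtain ⟨x, hx⟩ := t.bd_nonempty
      exact ⟨t, ht, forces_exIn_of _ (nn_mem_setN.2 (AE.of_all fun x hx => (h1 x hx).2))
        (app_lN.2 (h1 x hx).1)⟩

theorem btw_setN (hu : RV univ u) {a b : ℕ} : Fo (btw om lN (nn a) (nn b) (setN u)) p ↔
    AE p fun x => isReal (u x) ∧ ivl a b (u x) := by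
  constructor
  · rintro ⟨h1, h2, h3⟩
    refine ((real_setN hu).1 h1).and ((nn_mem_setN.1 h2).and fun q hq => ?_)
    obtain ⟨r, hr, c, h4, h5⟩ := exIn_om (fun _ _ _ h =>
      .and (Sim.app (fun _ => fE.rfl) fE.rfl h fE.rfl) (.neg (.mem h fE.rfl))) (Fo.mono h3 hq)
    obtain ⟨t, ht, h6⟩ := (nn_not_mem_setN hu).1 h5 r le_rfl
    exact ⟨t, ht.trans hr, fun x hx => ⟨c, app_lN.1 h4, h6 x hx⟩⟩
  · intro h
    refine ⟨(real_setN hu).2 (h.imp fun _ h => h.1), nn_mem_setN.2 (h.imp fun _ h => h.2.1),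
      Forces.dense fun q hq => ?_⟩
    obtain ⟨r, hr, c, h1⟩ := ((h.mono hq).imp fun _ h => h.2.2).ex
      fun c => (Ms.const _).and (hu c).not
    obtain ⟨x, hx⟩ := r.bd_nonempty
    exact ⟨r, hr, exIn_om_of c ⟨app_lN.2 (h1 x hx).1,
      (nn_not_mem_setN hu).2 (AE.of_all fun x hx => (h1 x hx).2)⟩⟩

theorem btw_iff_mem {k : ℕ} :
    Fo (btw om lN (nn k.unpair.1) (nn k.unpair.2) z) p ↔ fM z (basN k) p := by
  constructor
  · intro h
    refine mem_basN.2 fun q hq => ?_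
    obtain ⟨r, hr, u, hu, h1⟩ := exists_setN (Fo.mono h.1.1 hq)
    obtain ⟨t, ht, h2⟩ := (btw_setN hu).1 ((cong_btw _ _).fo h1.symm (Fo.mono h (hr.trans hq)))
      r le_rfl
    exact ⟨t, ht.trans hr, u, hu, h1.mono ht, h2⟩
  · intro h
    refine Forces.dense fun q hq => ?_
    obtain ⟨r, hr, u, hu, h1, h2⟩ := mem_basN.1 h q hq
    exact ⟨r, hr, (cong_btw _ _).fo h1 ((btw_setN hu).2 (AE.of_all h2))⟩

theorem opn_basN (k : ℕ) : Fo (opn om lN (basN k)) p :=
  forces_allIn.2 fun _ _ _ hx => exIn_om_of k.unpair.1 (exIn_om_of k.unpair.2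
    ⟨btw_iff_mem.2 hx, fun _ => forces_imp.2 fun _ _ h => btw_iff_mem.1 h⟩)

theorem setN_mem_basN (hu : RV univ u) {k : ℕ} :
    fM (setN u) (basN k) p ↔ AE p fun x => isReal (u x) ∧ bas k (u x) :=
  btw_iff_mem.symm.trans (btw_setN hu)

theorem fn_funN {h : Om ι → ℕ → ℕ} (hh : ∀ n, Mf univ fun x => h x n) : Fo (fn om (funN h)) p := by
  refine ⟨func_rel fun i j q _ h1 h2 h3 => ⟨q, le_rfl, ?_⟩, allIn_om ?_ fun n =>
    Forces.dense fun q _ => ?_⟩
  · obtain ⟨x, hx⟩ := q.bd_nonempty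
    rw [← i.2 x (h1 x hx), ← j.2 x (h2 x hx), nn_inj h3]
    exact fE.rfl
  · intro p x y h
    simp only [allIn, exIn, Fml.or, Fml.imp, ex, app, pair, Fml.iff]
    repeat' first | exact h | exact fE.rfl | constructor | intro _
  · obtain ⟨r, hr, m, h1⟩ := dec (hh n) q fun x _ => ⟨_, rfl⟩
    exact ⟨r, hr, exIn_om_of m (app_funN.2 fun t ht =>
      ⟨t, le_rfl, n, m, fE.rfl, fE.rfl, fun x hx => h1 x (ht x hx)⟩)⟩

/-- reading off countably many values from the generic point -/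
theorem exists_read_fun (Y : ℕ → ℕ → Cond ι → Prop)
    (hY : ∀ n m r r', r' ≤ r → Y n m r → Y n m r') (p : Cond ι)
    (h : ∀ n, ∀ r ≤ p, ∃ r' ≤ r, ∃ m, Y n m r') :
    ∃ q ≤ p, ∃ g : Om ι → ℕ → ℕ, (∀ n, Mf univ fun x => g x n) ∧
      ∀ n, ∀ r ≤ q, ∃ r' ≤ r, ∃ m, Y n m r' ∧ ∀ x, r'.bd x → g x n = m := by
  obtain ⟨q, h1, -, h2⟩ := cap isLowerSet_univ ∅ (by simp) p (fun n d => ∃ m, Y n m d) h
  choose d h3 h4 using h2
  choose m h5 using h3
  choose g hg hg' using fun n => exists_sel fun j => (d n j).ms_bd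
  refine ⟨q, h1, fun x n => m n (g n x), fun n => (hg n).comp (m n), fun n r hr => ?_⟩
  obtain ⟨t, ht, j, h6⟩ := dec (hg n) r fun x _ => ⟨_, rfl⟩
  exact ⟨t, ht, m n j, hY _ _ _ _ (fun x hx => by
    rw [← h6 x hx]
    exact hg' n x (h4 n x (hr x (ht x hx)))) (h5 n j), fun x hx => by simp only [h6 x hx]⟩

end Pool.Agent.MP_5f86f1_lc

end MrgPart0

-- ======== part 1: formerly Pool.Agent.MP_5f86f1_lc.DleR
section MrgPart1

/-! The iteration forces `d ≤ r`. -/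

open Set Cardinal

namespace Pool.Agent.MP_5f86f1_lc

open Cond Pool.Agent.Forcing92 Fml

variable {ι : Type} [LinearOrder ι]

/-- below `r` the real `u` is added before stage `β` -/
def St (β : ι) (u : Om ι → ℕ → Prop) (r : Cond ι) : Prop :=
  ∀ r' ≤ r, ∃ r'' ≤ r', ∃ v, RV (Iio β) v ∧ ∀ x, r''.bd x → ∀ n, u x n ↔ v x n

/-- `β` is the least such stage -/
def Lev (β : ι) (u : Om ι → ℕ → Prop) (r : Cond ι) : Prop :=
  St β u r ∧ ∀ γ < β, ∀ r' ≤ r, ¬ St γ u r'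

theorem Long.bdd_countable (hι : Long ι) {S : Set ι} (hS : S.Countable) : ∃ α, S ⊆ Iio α :=
  hι.bdd S ((le_aleph0_iff_set_countable.2 hS).trans aleph0_le_continuum)

theorem cong_fn : Cong (fn (om : Nm ι)) := by
  intro p x y h
  simp only [fn, func, allIn, exIn, Fml.imp, ex, app, pair, Fml.iff, Fml.or]
  repeat' first | exact h | exact fE.rfl | constructor | intro _

theorem cong_splits (Y : Nm ι) : Cong (splits om Y) := by
  intro p x y h
  simp only [splits, allIn, exIn, Fml.imp, ex]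
  repeat' first | exact h | exact fE.rfl | constructor | intro _

theorem cong_unb : Cong (unb (om : Nm ι)) := by
  intro p x y h
  simp only [unb, allIn, exIn, Fml.imp, ex]
  repeat' first | exact h | exact fE.rfl | constructor | intro _

variable [WellFoundedLT ι]

theorem exists_split_real (β : ι) : ∃ Y : Om ι → ℕ → Prop, RV univ Y ∧
    ∀ v, RV (Iio β) v → ∀ r : Cond ι, Fo (unb om (setN v)) r →
      ∃ r' ≤ r, Fo (splits om (setN Y) (setN v)) r' := by
  let Y : Om ι → ℕ → Prop := fun x m => ∃ j, j % 2 = 0 ∧ m < x β j ∧ ∀ i < j, x β i ≤ m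
  have hY : RV univ Y := fun m => Ms.ex fun j => (Ms.const _).and
    (((Mf.coord (mem_univ β) j).pred (m < ·)).and (Ms.all fun i => Ms.imp' fun _ =>
      (Mf.coord (mem_univ β) i).pred (· ≤ m)))
  refine ⟨Y, hY, fun v hv r hr => ?_⟩
  have hv' : RV univ v := hv.mono (subset_univ _)
  have hm : ∀ n, Ms (Iio β) fun x => ∃ m, n < m ∧ v x m := fun n =>
    Ms.ex fun m => (Ms.const _).and (hv m)
  obtain ⟨r1, h1, h2⟩ := AE.all (p := r) (fun n => (hm n).mono (subset_univ _)) (fun n q hq => by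
    obtain ⟨t, ht, m, h1, h2⟩ := exIn_setN (fun _ _ _ h => .mem fE.rfl h)
      (Fo.mono (allIn_om' hr n) hq)
    exact ⟨t, ht, fun x hx => ⟨m, nn_mem_nn.1 h2, h1 x hx⟩⟩) r le_rfl
  obtain ⟨r2, h3, -, -, h4⟩ := exists_thin r1 β
    (A := fun x s k => s.length ≤ k ∧ ∃ m, v x m ∧ (∀ e ∈ s, e ≤ m) ∧ m < k)
    (fun s k => (Ms.const _).and (Ms.ex fun m => (hv m).and (Ms.const _))) fun x hx s hs hs' M => by
      obtain ⟨m, k1, k2⟩ := of_bd (isLowerSet_Iio β) (Ms.all hm) h2 hx s.sum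
      obtain ⟨k, k3, k4⟩ := (r1.lav β x).inf s hs hs' (M + s.length + m + 1)
      exact ⟨k, by omega, k4, by omega, m, k2,
        fun e he => (List.le_sum_of_mem he).trans k1.le, by omega⟩
  have h5 : ∀ x, r2.bd x → ∀ n e, e < 2 → ∃ m j, n < m ∧ v x m ∧ j % 2 = e ∧ m < x β j ∧
      ∀ i < j, x β i ≤ m := by
    intro x hx n e he
    obtain ⟨-, m, k1, k2, k3⟩ := h4 x hx (2 * ((r1.st β x).length + n + 1) + e) (by omega)
    have k4 := (h4 x hx (2 * ((r1.st β x).length + n) + 1) (by omega)).1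
    have k5 : ∀ i < 2 * ((r1.st β x).length + n + 1) + e, x β i ≤ m := fun i hi =>
      k2 _ (mem_seg.2 ⟨i, hi, rfl⟩)
    have k6 := k5 (2 * ((r1.st β x).length + n) + 1) (by omega)
    rw [seg_length] at k4
    exact ⟨m, _, by omega, k1, by omega, k3, k5⟩
  refine ⟨r2, h3.trans h1, allIn_om ?_ fun n => Forces.dense fun q hq => ?_,
    allIn_om ?_ fun n => Forces.dense fun q hq => ?_⟩
  any_goals
    intro p x y h
    simp only [exIn, ex]
    repeat' first | exact h | exact fE.rfl | constructor | intro _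
  · obtain ⟨t, ht, m, k1⟩ := dec (A := fun m x => n < m ∧ v x m ∧ Y x m)
      (fun m => (Ms.const _).and ((hv' m).and (hY m))) q fun x hx => by
        obtain ⟨m, j, k1, k2, k3⟩ := h5 x (hq x hx) n 0 two_pos
        exact ⟨m, k1, k2, j, k3⟩
    obtain ⟨x, hx⟩ := t.bd_nonempty
    exact ⟨t, ht, forces_exIn_of (nn m) (nn_mem_setN.2 (AE.of_all fun x hx => (k1 x hx).2.1))
      ⟨nn_mem_nn.2 (k1 x hx).1, nn_mem_setN.2 (AE.of_all fun x hx => (k1 x hx).2.2)⟩⟩
  · obtain ⟨t, ht, m, k1⟩ := dec (A := fun m x => n < m ∧ v x m ∧ ¬ Y x m)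
      (fun m => (Ms.const _).and ((hv' m).and (hY m).not)) q fun x hx => by
        obtain ⟨m, j, k1, k2, k3, k4, k5⟩ := h5 x (hq x hx) n 1 one_lt_two
        refine ⟨m, k1, k2, fun ⟨j', k6, k7, k8⟩ => ?_⟩
        rcases lt_trichotomy j j' with h | h | h
        · exact absurd (k8 j h) (not_le.2 k4)
        · omega
        · exact absurd (k5 j' h) (not_le.2 k7)
    obtain ⟨x, hx⟩ := t.bd_nonempty
    exact ⟨t, ht, forces_exIn_of (nn m) (nn_mem_setN.2 (AE.of_all fun x hx => (k1 x hx).2.1))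
      ⟨nn_mem_nn.2 (k1 x hx).1, (nn_not_mem_setN hY).2 (AE.of_all fun x hx => (k1 x hx).2.2)⟩⟩

theorem exists_dominate (β : ι) {h : Om ι → ℕ → ℕ} (hh : ∀ n, Mf (Iio β) fun x => h x n)
    (r : Cond ι) : ∃ r' ≤ r, ∃ N, ∀ x, r'.bd x → ∀ n, N ≤ n → h x n ≤ x β n := by
  obtain ⟨r1, h1, -, -, h2⟩ := exists_thin r β (A := fun x s k => h x s.length ≤ k)
    (fun s k => (hh _).pred (· ≤ k)) fun x _ s hs hs' M => by
      obtain ⟨k, k3, k4⟩ := (r.lav β x).inf s hs hs' (M + h x s.length)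
      exact ⟨k, by omega, k4, by omega⟩
  obtain ⟨r2, h3, s, h4⟩ := dec ((r.mst β).mono (subset_univ _)) r1 fun x _ => ⟨_, rfl⟩
  refine ⟨r2, h3.trans h1, s.length, fun x hx n hn => ?_⟩
  simpa using h2 x (h3 x hx) n (by rwa [h4 x hx])

theorem forces_dler (hι : Long ι) (p0 : Cond ι) : Fo (dler om) p0 := by
  refine fun R => forces_imp.2 fun p _ ⟨hR, hY⟩ => ?_
  let I := {z : ι × (Om ι → ℕ → Prop) × Cond ι //
    RV univ z.2.1 ∧ fM (setN z.2.1) R z.2.2 ∧ Lev z.1 z.2.1 z.2.2}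
  let D : Nm ι := .mk I (fun z => funN fun x => x z.1.1) fun z => z.1.2.2
  have hl : ∀ β : ι, ∀ n, Mf univ fun x : Om ι => x β n := fun β n => Mf.coord (mem_univ β) n
  refine forces_ex_of D ⟨⟨forces_allIn.2 fun g q _ hg => Forces.dense fun r hr => ?_,
    fun f => forces_imp.2 fun q hq hf => Forces.dense fun q0 hq0 => ?_⟩,
    forces_ex_of (relN I (fun z => setN z.1.2.1) (fun z => funN fun x => x z.1.1)
      fun z => z.1.2.2) ⟨func_rel fun i j q _ h1 h2 h3 => ?_,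
      forces_allIn.2 fun g q _ hg => Forces.dense fun r hr => ?_⟩⟩
  · obtain ⟨t, ht, z, -, h⟩ := hg r hr
    exact ⟨t, ht, cong_fn.fo h (fn_funN (hl _))⟩
  · obtain ⟨q1, k1, h, hh, k2⟩ := exists_read_fun (fun n m r => Fo (app f (nn n) (nn m)) r)
      (fun _ _ _ _ h h' => h'.mono h) q0 fun n r hr => exIn_om
        (fun _ _ _ h => Sim.app (fun _ => fE.rfl) fE.rfl fE.rfl h)
        (Fo.mono (allIn_om' hf.2 n) (le_trans hr hq0))
    have hq1 : q1 ≤ p := k1.trans (le_trans hq0 hq)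
    obtain ⟨a, -, ha, k3⟩ := Ms.supp_family (P := fun (z : ℕ × ℕ) x => h x z.1 = z.2)
      fun z => hh z.1 z.2
    obtain ⟨β0, hβ0⟩ := hι.bdd_countable ha
    have k4 : ∃ r ≤ q1, ∃ u, RV univ u ∧ fM (setN u) R r ∧ ∀ r' ≤ r, ¬ St β0 u r' := by
      by_contra hcon
      push Not at hcon
      obtain ⟨Y, -, k5⟩ := exists_split_real β0
      refine hY q1 hq1 (forces_ex_of (setN Y) (forces_allIn.2 fun A r hr hA =>
        Forces.dense fun r0 hr0 => ?_))
      have k6 := forces_allIn.1 hR A r0 (le_trans hr0 (le_trans hr hq1)) (fM.mono hA hr0)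
      obtain ⟨r1, m1, u, hu, m2⟩ := exists_setN k6.1
      obtain ⟨r2, m3, m4⟩ := hcon r1 (m1.trans (le_trans hr0 hr)) u hu
        (fM.left (fM.mono hA (m1.trans hr0)) m2.symm)
      obtain ⟨r3, m5, v, hv, m6⟩ := m4 r2 le_rfl
      have m7 : fE (setN v) A r3 := (setN_congr m6).symm.trans (m2.mono (m5.trans m3))
      obtain ⟨r4, m8, m9⟩ := k5 v hv r3
        (cong_unb.fo m7.symm (Fo.mono k6.2 (m5.trans (m3.trans m1))))
      exact ⟨r4, m8.trans (m5.trans (m3.trans m1)), (cong_splits _).fo (m7.mono m8) m9⟩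
    obtain ⟨r, k5, u, hu, k6, k7⟩ := k4
    have hne : {γ | ∃ r' ≤ r, St γ u r'}.Nonempty := by
      obtain ⟨c, -, hc, m1⟩ := Ms.supp_family hu
      obtain ⟨γ, hγ⟩ := hι.bdd_countable hc
      exact ⟨γ, r, le_rfl, fun r' _ => ⟨r', le_rfl, u, fun n => (m1 n).mono hγ,
        fun _ _ _ => Iff.rfl⟩⟩
    obtain ⟨r1, m1, m2⟩ := wellFounded_lt.min_mem _ hne
    set β := wellFounded_lt.min _ hne
    have m3 : Lev β u r1 := ⟨m2, fun γ hγ r' hr' h' =>
      wellFounded_lt.not_lt_min {γ | ∃ r' ≤ r, St γ u r'} ⟨r', hr'.trans m1, h'⟩ hγ⟩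
    have m4 : β0 ≤ β := by
      by_contra h'
      refine k7 r1 m1 fun r' hr' => ?_
      obtain ⟨r'', e1, v, e2, e3⟩ := m2 r' hr'
      exact ⟨r'', e1, v, e2.mono (Iio_subset_Iio (not_le.1 h').le), e3⟩
    obtain ⟨r2, m5, N, m6⟩ := exists_dominate β (h := h)
      (fun n k => (k3 (n, k)).mono (hβ0.trans (Iio_subset_Iio m4))) r1
    have m7 : r2 ≤ q1 := m5.trans (m1.trans k5)
    refine ⟨r2, m7.trans k1, forces_exIn_of (funN fun x => x β)
      (fMem_mk (I := I) ⟨(β, u, r1), hu, k6.mono m1, m3⟩ m5) (exIn_om_of N (allIn_om ?_ fun n =>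
        forces_imp.2 fun r3 e1 e2 a b => forces_imp.2 fun r4 e3 e4 =>
          Forces.dense fun r5 e5 => ?_))⟩
    · intro p x y h
      simp only [sub, allIn, exIn, Fml.imp, ex, app, pair, Fml.iff, Fml.or]
      repeat' first | exact h | exact fE.rfl | constructor | intro _
    · have e6 : r5 ≤ r2 := le_trans e5 (le_trans e3 e1)
      obtain ⟨r6, e7, m, e8, e9⟩ := k2 n r5 (e6.trans m7)
      obtain ⟨r7, e10, n', m', e11, e12, e13⟩ := app_funN.1 e4.2 r6 (e7.trans e5)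
      obtain rfl := nn_inj e11
      obtain ⟨x, hx⟩ := r7.bd_nonempty
      have e14 : m ≤ m' := by
        rw [← e9 x (e10 x hx), ← e13 x hx]
        exact m6 x (e6 x (e7 x (e10 x hx))) n' (nn_mem_nn.1 e2).le
      have e15 : fE (nn m) a r7 := func_eq (Fo.mono hf.1 (e10.trans (e7.trans (e6.trans
        (m7.trans (k1.trans hq0)))))) (e8.mono e10) (Fo.mono e4.1 (e10.trans (e7.trans e5)))
      exact ⟨r7, e10.trans e7, ((Sim.sub (R := fun a b => fE a b r7) (fun _ => fE.rfl)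
        e15 e12).forces r7 le_rfl).1 (nn_sub_nn e14)⟩
  · obtain ⟨r, k1, k2⟩ := ae_of_setN_eq i.2.1 j.2.1 h3 q le_rfl
    have key : ∀ (i j : I), r ≤ i.1.2.2 → r ≤ j.1.2.2 →
        (∀ x, r.bd x → ∀ n, i.1.2.1 x n ↔ j.1.2.1 x n) → ¬ i.1.1 < j.1.1 := by
      intro i j h1 h2 h3 h4
      refine j.2.2.2.2 _ h4 r h2 fun r' hr' => ?_
      obtain ⟨r'', e1, v, e2, e3⟩ := i.2.2.2.1 r' (hr'.trans h1)
      exact ⟨r'', e1, v, e2, fun x hx n => (h3 x (hr' x (e1 x hx)) n).symm.trans (e3 x hx n)⟩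
    have k3 : i.1.1 = j.1.1 := le_antisymm
      (not_lt.1 (key j i (k1.trans h2) (k1.trans h1) fun x hx n => (k2 x hx n).symm))
      (not_lt.1 (key i j (k1.trans h1) (k1.trans h2) k2))
    exact ⟨r, k1, k3 ▸ fE.rfl⟩
  · obtain ⟨t, ht, z, h1, h2⟩ := hg r hr
    exact ⟨t, ht, forces_exIn_of (setN z.1.2.1) (fM.mono z.2.2.1 h1)
      (app_congr (app_rel_of z h1) fE.rfl fE.rfl h2)⟩

end Pool.Agent.MP_5f86f1_lc

end MrgPart1

-- ======== part 2: formerly Pool.Agent.MP_5f86f1_lc.Link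
section MrgPart2

/-! The iteration forces that Scheepers sets have Menger squares. -/

open Set

namespace Pool.Agent.MP_5f86f1_lc

open Cond Pool.Agent.Forcing92 Fml

variable {ι : Type} [LinearOrder ι]

/-- the name of a sequence -/
def seqN (U : ℕ → Nm ι) : Nm ι := relN ℕ nn U fun _ => top

variable {p : Cond ι} {U : ℕ → Nm ι} {z F X s : Nm ι}

theorem app_seqN {n : ℕ} : Fo (app (seqN U) (nn n) z) p ↔ fE (U n) z p := by
  constructor
  · intro h
    refine fEq_dense fun q hq => ?_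
    obtain ⟨r, hr, i, -, h1, h2⟩ := app_rel.1 h q hq
    exact ⟨r, hr, nn_inj h1 ▸ h2⟩
  · exact fun h => app_congr (app_rel_of (f := nn) (g := U) n (le_top p)) fE.rfl fE.rfl h

theorem seq_seqN : Fo (seq om (seqN U)) p := by
  refine ⟨func_rel fun i j q _ _ _ h => ⟨q, le_rfl, nn_inj h ▸ fE.rfl⟩,
    allIn_om ?_ fun n => forces_ex_of (U n) (app_seqN.2 fE.rfl)⟩
  intro p x y h
  simp only [exIn, Fml.or, Fml.imp, ex, app, pair, Fml.iff]
  repeat' first | exact h | exact fE.rfl | constructor | intro _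

theorem cong_opn : Cong (opn (om : Nm ι) lN) := by
  intro p x y h
  simp only [opn, btw, real, sub, allIn, exIn, Fml.imp, ex, app, pair, Fml.iff, Fml.or]
  repeat' first | exact h | exact fE.rfl | constructor | intro _

theorem fin_mk {I : Type} {A : I → Nm ι} {c : I → Cond ι} (e : I → ℕ)
    (h1 : ∀ i j, ∀ q ≤ p, q ≤ c i → q ≤ c j → e i = e j → fE (A i) (A j) q)
    (h2 : ∀ q ≤ p, ∃ r ≤ q, ∃ N, ∀ i, ∀ r' ≤ r, r' ≤ c i → e i < N) :
    Fo (fin om (.mk I A c)) p := by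
  refine Forces.dense fun q hq => ?_
  obtain ⟨r, hr, N, h3⟩ := h2 q hq
  refine ⟨r, hr, exIn_om_of N (forces_ex_of (relN I (fun i => nn (e i)) A c)
    ⟨func_rel fun i j t ht k1 k2 k3 => ⟨t, le_rfl, h1 i j t (ht.trans (hr.trans hq)) k1 k2
      (nn_inj k3)⟩, forces_allIn.2 fun z t ht hz => Forces.dense fun t' ht' => ?_⟩)⟩
  obtain ⟨t'', k1, i, k2, k3⟩ := hz t' ht'
  exact ⟨t'', k1, forces_exIn_of (nn (e i))
    (nn_mem_nn.2 (h3 i t'' (le_trans k1 (le_trans ht' ht)) k2))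
    (app_congr (app_rel_of (f := fun i => nn (e i)) i k2) fE.rfl fE.rfl k3)⟩

theorem fin_bound (hF : Fo (fin om F) p) (Y : Nm ι → ℕ → Cond ι → Prop)
    (hY1 : ∀ O k r r', r' ≤ r → Y O k r → Y O k r')
    (hY2 : ∀ O O' k r, fE O O' r → Y O k r → Y O' k r)
    (h : ∀ O, ∀ r ≤ p, fM O F r → ∃ r' ≤ r, ∃ k, Y O k r') :
    ∃ q ≤ p, ∃ m, ∀ O, ∀ r ≤ q, fM O F r → ∃ r' ≤ r, ∃ k ≤ m, Y O k r' := by
  obtain ⟨r0, k1, N, k2⟩ := exIn_om (f := fun n => img n F) (by
    intro p x y h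
    simp only [img, func, allIn, exIn, Fml.or, Fml.imp, ex, app, pair, Fml.iff]
    repeat' first | exact h | exact fE.rfl | constructor | intro _) hF
  obtain ⟨r1, k3, f, k4, k5⟩ := forces_ex.1 k2 r0 le_rfl
  have k6 : r1 ≤ p := le_trans k3 k1
  obtain ⟨q, k7, k8⟩ := dense_finite (κ := Fin N) (p := r1) (D := fun i t => ∃ k, ∀ O, ∀ r ≤ t,
    fM O F r → Fo (app f (nn i) O) r → Y O k r)
    (fun i t t' ht ⟨k, hk⟩ => ⟨k, fun O r hr => hk O r (hr.trans ht)⟩) (fun i t ht => by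
      by_cases hc : ∃ t' ≤ t, ∃ O, fM O F t' ∧ Fo (app f (nn i) O) t'
      · obtain ⟨t', e1, O, e2, e3⟩ := hc
        obtain ⟨t'', e4, k, e5⟩ := h O t' (e1.trans (ht.trans k6)) e2
        exact ⟨t'', e4.trans e1, k, fun O' r hr _ e6 => hY2 _ _ _ _
          (func_eq (Fo.mono k4 (hr.trans (e4.trans (e1.trans ht)))) (e3.mono (hr.trans e4)) e6)
          (hY1 _ _ _ _ hr e5)⟩
      · exact ⟨t, le_rfl, 0, fun O r hr e1 e2 => absurd ⟨r, hr, O, e1, e2⟩ hc⟩) r1 le_rfl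
  choose k hk using k8
  refine ⟨q, k7.trans k6, Finset.univ.sup k, fun O r hr hO => ?_⟩
  obtain ⟨r', e1, x, e2, e3⟩ := forces_exIn.1 (forces_allIn.1 k5 O r (hr.trans k7) hO) r le_rfl
  obtain ⟨r'', e4, i, e5, e6⟩ := mem_nn e2
  exact ⟨r'', e4.trans e1, k ⟨i, e5⟩, Finset.le_sup (Finset.mem_univ _),
    hk ⟨i, e5⟩ O r'' (e4.trans (le_trans e1 hr)) (hO.mono (e4.trans e1))
      (app_congr (Fo.mono e3 e4) fE.rfl e6.symm fE.rfl)⟩

variable [WellFoundedLT ι]

theorem mem_In (hX : Fo (allIn X (real om lN)) p) : Mem p fun r u => fM (setN u) X r :=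
  ⟨fun h h' => h'.mono h, fun _ _ h h' => h'.left (setN_congr h), fun {r _} hr hu h =>
    (real_setN hu).1 (forces_allIn.1 hX _ r hr h) r le_rfl⟩

theorem exists_In (hX : Fo (allIn X (real om lN)) p) {q : Cond ι} (hq : q ≤ p) (h : fM z X q) :
    ∃ r ≤ q, ∃ u, RV univ u ∧ fE (setN u) z r ∧ fM (setN u) X r ∧ ∀ x, r.bd x → isReal (u x) := by
  obtain ⟨r, hr, u, hu, h1⟩ := exists_setN (forces_allIn.1 hX z q hq h).1
  have h2 : fM (setN u) X r := (h.mono hr).left h1.symm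
  obtain ⟨t, ht, h3⟩ := (mem_In hX).real (hr.trans hq) hu h2
  exact ⟨t, ht.trans hr, u, hu, h1.mono ht, h2.mono ht, h3⟩

theorem sch_link (hX : Fo (allIn X (real om lN)) p) (hS : Fo (scheepers om lN X) p)
    (W : Om ι → ℕ → ℕ → Prop) (hW : Cov (fun r u => fM (setN u) X r) p W) :
    ∃ r' ≤ p, ∃ h : Om ι → ℕ → ℕ, (∀ n, Mf univ fun x => h x n) ∧
      Sch (fun r u => fM (setN u) X r) r' W h := by
  let UN : ℕ → Nm ι := fun n => .mk {z : ℕ × Cond ι // ∀ x, z.2.bd x → W x n z.1}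
    (fun z => basN z.1.1) fun z => z.1.2
  have h1 := forces_imp.1 (hS (seqN UN)) p le_rfl ⟨seq_seqN, allIn_om (by
    intro p x y h
    simp only [allIn, exIn, Fml.or, Fml.imp, ex, app, pair, Fml.iff, opn, btw, real, sub]
    repeat' first | exact h | exact fE.rfl | constructor | intro _) fun n U =>
      forces_imp.2 fun q hq hU => Cong.fo (f := fun U => and (allIn U (opn om lN))
        (allIn X fun x => exIn U fun O => mem x O)) (by
          intro p x y h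
          simp only [allIn, exIn, Fml.or, Fml.imp, ex, app, pair, Fml.iff, opn, btw, real, sub]
          repeat' first | exact h | exact fE.rfl | constructor | intro _) (app_seqN.1 hU)
        ⟨forces_allIn.2 fun O r _ hO => Forces.dense fun t ht => by
          obtain ⟨t', k1, j, -, k2⟩ := hO t ht
          exact ⟨t', k1, cong_opn.fo k2 (opn_basN _)⟩,
        forces_allIn.2 fun y r hr hy => Forces.dense fun t ht => by
          have k0 : t ≤ p := le_trans ht (le_trans hr hq)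
          obtain ⟨t1, k1, u, hu, k2, k3, k4⟩ := exists_In hX k0 (fM.mono hy ht)
          obtain ⟨t2, k5, k, k6⟩ := hW t1 (k1.trans k0) u hu k3 n
          exact ⟨t2, k5.trans k1, forces_exIn_of (basN k)
            (fMem_mk (A := fun z : {z : ℕ × Cond ι // ∀ x, z.2.bd x → W x n z.1} => basN z.1.1)
              ⟨(k, t2), fun x hx => (k6 x hx).1⟩ (le_refl t2))
            (fM.left ((setN_mem_basN hu).2 (AE.of_all fun x hx => ⟨k4 x (k5 x hx), (k6 x hx).2⟩))
              (k2.mono k5))⟩⟩⟩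
  obtain ⟨r1, k1, t, ⟨k2, k3⟩, k4⟩ := forces_ex.1 h1 p le_rfl
  obtain ⟨q, k5, h, hh, k6⟩ := exists_read_fun (fun n m r => ∃ F, Fo (app t (nn n) F) r ∧
    ∀ O, ∀ r' ≤ r, fM O F r' → ∃ r'' ≤ r', ∃ k ≤ m, fE (basN k) O r'' ∧ ∀ x, r''.bd x → W x n k)
    (fun _ _ _ _ h ⟨F, h1, h2⟩ => ⟨F, h1.mono h, fun O r hr => h2 O r (hr.trans h)⟩) r1
    fun n r hr => by
      obtain ⟨r2, e1, F, e2⟩ := forces_ex.1 (allIn_om' k2.2 n) r hr
      obtain ⟨e3, e4⟩ := forces_imp.1 (allIn_om' k3 n (UN n) F) r2 (le_trans e1 hr)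
        ⟨app_seqN.2 fE.rfl, e2⟩
      obtain ⟨r3, e5, m, e6⟩ := fin_bound e4 (fun O k r => fE (basN k) O r ∧
        ∀ x, r.bd x → W x n k) (fun _ _ _ _ h h' => ⟨h'.1.mono h, fun x hx => h'.2 x (h x hx)⟩)
        (fun _ _ _ _ h h' => ⟨h'.1.trans h, h'.2⟩) fun O r' hr' hO => by
          obtain ⟨r'', e5, j, e6, e7⟩ := forces_sub.1 e3 O r' hr' hO r' le_rfl
          exact ⟨r'', e5, j.1.1, e7, fun x hx => j.2 x (e6 x hx)⟩
      exact ⟨r3, e5.trans e1, m, F, Fo.mono e2 e5, e6⟩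
  refine ⟨q, k5.trans k1, h, hh, fun r hr z1 z2 z3 hz1 hz2 hz3 m1 m2 m3 => ?_⟩
  have hr1 : r ≤ r1 := hr.trans k5
  let zz : Fin 3 → Om ι → ℕ → Prop := ![z1, z2, z3]
  have hzz : ∀ i, RV univ (zz i) ∧ fM (setN (zz i)) X r := fun i => by
    fin_cases i
    exacts [⟨hz1, m1⟩, ⟨hz2, m2⟩, ⟨hz3, m3⟩]
  obtain ⟨r2, e1, n, e2⟩ := exIn_om (by
    intro p x y h
    simp only [allIn, exIn, Fml.or, Fml.imp, ex, app, pair, Fml.iff]
    repeat' first | exact h | exact fE.rfl | constructor | intro _)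
    (forces_imp.1 (k4 (.mk (Fin 3) (fun i => setN (zz i)) fun _ => top)) r hr1
      ⟨forces_sub.2 fun y t ht hy => fMem_dense fun t' ht' => by
        obtain ⟨t'', e1, i, -, e2⟩ := hy t' ht'
        exact ⟨t'', e1, fM.left ((hzz i).2.mono (le_trans e1 (le_trans ht' ht))) e2⟩,
      fin_mk (fun i => i.1) (fun i j _ _ _ _ h => Fin.ext h ▸ fE.rfl)
        fun t _ => ⟨t, le_rfl, 3, fun i _ _ _ => i.2⟩⟩)
  obtain ⟨r3, e3, F, e4, e5⟩ := forces_ex.1 e2 r2 le_rfl
  have e6 : r3 ≤ r := le_trans e3 e1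
  obtain ⟨r4, e7, m, ⟨F', e8, e9⟩, e10⟩ := k6 n r3 (e6.trans hr)
  have e11 : fE F F' r4 := func_eq (Fo.mono k2.1 (e7.trans (e6.trans hr1))) (Fo.mono e4 e7) e8
  have key : ∀ i, AE r4 fun x => far W h (zz i) x n := fun i t ht => by
    obtain ⟨t1, f1, O, f2, f3⟩ := forces_exIn.1 (forces_allIn.1 e5 (setN (zz i)) t (ht.trans e7)
      (fMem_mk (A := fun i => setN (zz i)) i (le_top t))) t le_rfl
    have f4 : t1 ≤ r4 := le_trans f1 ht
    obtain ⟨t2, f5, k, f6, f7, f8⟩ := e9 O t1 f4 (fM.right f2 (e11.mono f4))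
    obtain ⟨t3, f9, f10⟩ := (setN_mem_basN (hzz i).1).1 (fM.right (fM.mono f3 f5) f7.symm) t2 le_rfl
    exact ⟨t3, f9.trans (f5.trans f1), fun x hx => ⟨k, by
      rwa [e10 x (f4 x (f5 x (f9 x hx)))], f8 x (f9 x hx), (f10 x hx).2⟩⟩
  obtain ⟨r5, e12, e13⟩ := (key 0).and ((key 1).and (key 2)) r4 le_rfl
  exact ⟨r5, e12.trans (e7.trans e6), n, e13⟩

/-- reading off countably many witnesses from the generic point -/
theorem exists_read_wit {I : Type} [Countable I] (Y : I → Nm ι → Cond ι → Prop)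
    (hY : ∀ i O r r', r' ≤ r → Y i O r → Y i O r') (p : Cond ι) :
    ∃ q ≤ p, ∃ g : I → Om ι → ℕ, (∀ i, Mf univ (g i)) ∧ ∃ (O : I → ℕ → Nm ι) (ok : I → ℕ → Prop),
      (∀ i, ∀ r ≤ q, ∀ O', Y i O' r → ∃ r' ≤ r, ∀ x, r'.bd x → ok i (g i x)) ∧
      ∀ i j, ok i j → ∀ r ≤ q, (∀ x, r.bd x → g i x = j) → Y i (O i j) r := by
  obtain ⟨q, h1, -, h2⟩ := cap isLowerSet_univ ∅ (by simp) p
    (fun i d => ∃ O, Y i O d ∨ ∀ r ≤ d, ∀ O', ¬ Y i O' r) fun i r _ => by
      by_cases h : ∃ r' ≤ r, ∃ O, Y i O r'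
      · exact let ⟨r', h1, O, h2⟩ := h; ⟨r', h1, O, Or.inl h2⟩
      · exact ⟨r, le_rfl, om, Or.inr fun r' h1 O h2 => h ⟨r', h1, O, h2⟩⟩
  choose d h3 h4 using h2
  choose O h5 using h3
  choose g hg hg' using fun i => exists_sel fun j => (d i j).ms_bd
  have key : ∀ i j, ∀ r ≤ q, (∀ x, r.bd x → g i x = j) → r ≤ d i j := fun i j r hr h x hx => by
    rw [← h x hx]
    exact hg' i x (h4 i x (hr x hx))
  refine ⟨q, h1, g, hg, O, fun i j => Y i (O i j) (d i j), fun i r hr O' h => ?_,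
    fun i j h r hr h' => hY _ _ _ _ (key i j r hr h') h⟩
  obtain ⟨t, ht, j, h6⟩ := dec (hg i) r fun x _ => ⟨_, rfl⟩
  refine ⟨t, ht, fun x hx => ?_⟩
  rw [h6 x hx]
  exact (h5 i j).resolve_right fun h' => h' t (key i j t (ht.trans hr) h6) O' (hY _ _ _ _ ht h)

theorem forces_menger (hι : Long ι) (hX : Fo (allIn X (real om lN)) p)
    (hS : Fo (scheepers om lN X) p) : Fo (menger2 om lN X) p := by
  refine fun s => forces_imp.2 fun p1 hp1 ⟨hs, hc⟩ => Forces.dense fun p2 hp2 => ?_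
  obtain ⟨q, k1, g, hg, O, ok, k2, k3⟩ := exists_read_wit (fun (z : ℕ × ℕ) O r =>
    (∃ U, Fo (app s (nn z.1) U) r ∧ fM O U r) ∧ ∀ x y, ∀ r' ≤ r, fM x (basN z.2.unpair.1) r' →
      fM y (basN z.2.unpair.2) r' → Fo (app O x y) r')
    (fun _ _ _ _ h ⟨⟨U, h1, h2⟩, h3⟩ => ⟨⟨U, h1.mono h, h2.mono h⟩,
      fun x y r hr => h3 x y r (hr.trans h)⟩) p2
  have hq1 : q ≤ p1 := k1.trans hp2
  have hq : q ≤ p := hq1.trans hp1
  replace hX : Fo (allIn X (real om lN)) q := hX.mono hq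
  obtain ⟨α, hα⟩ := core hι (mem_In hX) (fun r hr W _ hW =>
    sch_link (hX.mono hr) (hS.mono (hr.trans hq)) W hW)
    (Bx := fun x n k => ok (n, k) (g (n, k) x)) (fun n k => (hg (n, k)).pred (ok (n, k)))
    fun r hr u v hu hv h1 h2 n => by
      obtain ⟨r1, e1, U, e2⟩ := forces_ex.1 (allIn_om' hs.2 n) r (hr.trans hq1)
      obtain ⟨e3, e4⟩ := forces_imp.1 (allIn_om' hc n U) r1 (le_trans e1 (hr.trans hq1)) e2
      obtain ⟨r2, e5, O', e6, e7⟩ := forces_exIn.1 (forces_allIn.1 (forces_allIn.1 e4 _ r1 le_rfl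
        (fM.mono h1 e1)) _ r1 le_rfl (fM.mono h2 e1)) r1 le_rfl
      have e8 := forces_imp.1 (forces_allIn.1 e3 O' r2 e5 e6 (setN u) (setN v)) r2 le_rfl e7
      obtain ⟨r3, f3, a, e8⟩ := exIn_om (by
        intro p x y h
        simp only [allIn, exIn, Fml.or, Fml.imp, ex, app, pair, Fml.iff, btw, real, sub]
        repeat' first | exact h | exact fE.rfl | constructor | intro _) e8
      obtain ⟨r4, f4, b, e8⟩ := exIn_om (by
        intro p x y h
        simp only [allIn, exIn, Fml.or, Fml.imp, ex, app, pair, Fml.iff, btw, real, sub]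
        repeat' first | exact h | exact fE.rfl | constructor | intro _) e8
      obtain ⟨r5, f5, c, e8⟩ := exIn_om (by
        intro p x y h
        simp only [allIn, exIn, Fml.or, Fml.imp, ex, app, pair, Fml.iff, btw, real, sub]
        repeat' first | exact h | exact fE.rfl | constructor | intro _) e8
      obtain ⟨r6, f6, d, ⟨e8, e9⟩, e10⟩ := exIn_om (by
        intro p x y h
        simp only [allIn, exIn, Fml.or, Fml.imp, ex, app, pair, Fml.iff, btw, real, sub]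
        repeat' first | exact h | exact fE.rfl | constructor | intro _) e8
      have f7 : r6 ≤ r2 := f6.trans (f5.trans (f4.trans f3))
      have f8 : r6 ≤ r := f7.trans (le_trans e5 e1)
      obtain ⟨r7, f9, e11⟩ := k2 (n, Nat.pair (Nat.pair a b) (Nat.pair c d)) r6 (f8.trans hr) O'
        ⟨⟨U, Fo.mono e2 (f7.trans e5), fM.mono e6 f7⟩, fun x y r' hr' hx hy =>
          forces_imp.1 (e10 x y) r' hr' ⟨by simpa only [Nat.unpair_pair] using btw_iff_mem.2 hx,
            by simpa only [Nat.unpair_pair] using btw_iff_mem.2 hy⟩⟩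
      obtain ⟨r8, f10, e12⟩ := ((btw_setN hu).1 e8).and ((btw_setN hv).1 e9) r7 f9
      exact ⟨r8, f10.trans (f9.trans f8), _, fun x hx => ⟨e11 x (f10 x hx), by
        simpa only [box, bas, Nat.unpair_pair] using ⟨(e12 x hx).1.2, (e12 x hx).2.2⟩⟩⟩
  let J : ℕ → Type := fun n => {z : ℕ × ℕ × Cond ι // ok (n, z.1) z.2.1 ∧ z.2.2 ≤ q ∧
    ∀ x, z.2.2.bd x → g (n, z.1) x = z.2.1 ∧ z.1 ≤ x α n}
  let FN : ℕ → Nm ι := fun n => .mk (J n) (fun z => O (n, z.1.1) z.1.2.1) fun z => z.1.2.2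
  refine ⟨q, k1, forces_ex_of (seqN FN) ⟨⟨seq_seqN, allIn_om ?_ fun n U F =>
    forces_imp.2 fun r hr ⟨h1, h2⟩ => Cong.fo (f := fun F => and (sub F U) (fin om F)) ?_
      (app_seqN.1 h2) ⟨forces_sub.2 fun y t ht hy => fMem_dense fun t' ht' => ?_,
        fin_mk (fun z => z.1.1) (fun i j t _ e1 e2 e3 => ?_) fun t _ => ?_⟩⟩,
    forces_allIn.2 fun x r hr hx => forces_allIn.2 fun y r1 hr1 hy =>
      Forces.dense fun r2 hr2 => ?_⟩⟩
  any_goals
    intro p x y h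
    simp only [allIn, exIn, Fml.or, Fml.imp, ex, app, pair, Fml.iff, sub, fin, img, func]
    repeat' first | exact h | exact fE.rfl | constructor | intro _
  · obtain ⟨t1, e1, z, e2, e3⟩ := hy t' ht'
    have e4 : t1 ≤ r := le_trans e1 (le_trans ht' ht)
    obtain ⟨⟨U', e5, e6⟩, -⟩ := k3 _ _ z.2.1 t1 (e4.trans hr) fun x hx => (z.2.2.2 x (e2 x hx)).1
    exact ⟨t1, e1, (e6.left e3).right
      (func_eq (Fo.mono hs.1 (e4.trans (le_trans hr hq1))) e5 (Fo.mono h1 e4))⟩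
  · obtain ⟨x, hx⟩ := t.bd_nonempty
    rw [← (i.2.2.2 x (e1 x hx)).1, ← (j.2.2.2 x (e2 x hx)).1, e3]
    exact fE.rfl
  · obtain ⟨t1, e1, N, e2⟩ := dec (Mf.coord (mem_univ α) n) t fun x _ => ⟨_, rfl⟩
    refine ⟨t1, e1, N + 1, fun i t2 e3 e4 => ?_⟩
    obtain ⟨x, hx⟩ := t2.bd_nonempty
    exact Nat.lt_succ_of_le ((i.2.2.2 x (e4 x hx)).2.trans_eq (e2 x (e3 x hx)))
  · have e0 : r2 ≤ q := le_trans hr2 (le_trans hr1 hr)
    obtain ⟨r3, e1, u, hu, e2, e3, e4⟩ := exists_In hX e0 (fM.mono hx (le_trans hr2 hr1))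
    obtain ⟨r4, e5, v, hv, e6, e7, e8⟩ := exists_In hX (e1.trans e0) (fM.mono hy (e1.trans hr2))
    obtain ⟨r5, e9, n, k, e10⟩ := hα r4 (e5.trans (e1.trans e0)) u v hu hv (e3.mono e5) e7
    obtain ⟨r6, e11, j, e12⟩ := dec (hg (n, k)) r5 fun x _ => ⟨_, rfl⟩
    obtain ⟨x0, hx0⟩ := r6.bd_nonempty
    have e13 : ok (n, k) j := e12 x0 hx0 ▸ (e10 x0 (e11 x0 hx0)).2.1
    have e14 : r6 ≤ r4 := e11.trans e9
    have e15 : r6 ≤ q := e14.trans (e5.trans (e1.trans e0))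
    refine ⟨r6, e14.trans (e5.trans e1), exIn_om_of n (forces_ex_of (FN n) ⟨app_seqN.2 fE.rfl,
      forces_exIn_of (O (n, k) j) (fMem_mk (I := J n) ⟨(k, j, r6), e13, e15, fun x hx =>
        ⟨e12 x hx, (e10 x (e11 x hx)).1⟩⟩ (le_refl r6))
      (app_congr ((k3 _ _ e13 r6 e15 e12).2 _ _ r6 le_rfl
        ((setN_mem_basN hu).2 (AE.of_all fun x hx => ⟨e4 x (e5 x (e14 x hx)),
          (e10 x (e11 x hx)).2.2.1⟩))
        ((setN_mem_basN hv).2 (AE.of_all fun x hx => ⟨e8 x (e14 x hx),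
          (e10 x (e11 x hx)).2.2.2⟩))) fE.rfl (e2.mono (e14.trans e5)) (e6.mono e14))⟩)⟩

theorem forces_sentence (hι : Long ι) (p : Cond ι) : Fo sentence p :=
  forces_ex_of om ⟨forces_omega ht p, forces_dler hι p, forces_ex_of lN ⟨forces_dlo p,
    fun _ => forces_imp.2 fun _ _ h => forces_menger hι h.1 h.2⟩⟩

end Pool.Agent.MP_5f86f1_lc

end MrgPart2

-- ======== part 3: formerly Pool.Agent.MP_5f86f1_lc.Final
section MrgPart3

/-! A model of ZFC with `d ≤ r` in which Scheepers sets of reals have Menger squares. -/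

open Cardinal

namespace Pool.Agent.MP_5f86f1_lc

open Pool.Agent.Forcing92 Pool.Agent.ZFC77 Fml

section

variable {V W : Type 1} {R : V → W → Prop} {a b c d e : V} {a' b' c' d' e' : W}

theorem par_func (h1 : R a a') : Par R (func a) (func a') := by
  repeat' first | assumption | with_reducible apply par_app | constructor | intro _ _ _

theorem par_img (h1 : R a a') (h2 : R b b') : Par R (img a b) (img a' b') := by
  repeat' first
    | assumption | with_reducible apply par_app | with_reducible apply par_func | constructor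
    | intro _ _ _

theorem par_fin (h1 : R a a') (h2 : R b b') : Par R (fin a b) (fin a' b') := by
  repeat' first | assumption | with_reducible apply par_img | constructor | intro _ _ _

theorem par_fn (h1 : R a a') (h2 : R b b') : Par R (fn a b) (fn a' b') := by
  repeat' first
    | assumption | with_reducible apply par_app | with_reducible apply par_func | constructor
    | intro _ _ _

theorem par_dler (h1 : R a a') : Par R (dler a) (dler a') := by
  repeat' first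
    | assumption | with_reducible apply par_app | with_reducible apply par_fn
    | with_reducible apply par_img | constructor | intro _ _ _

theorem par_dlo (h1 : R a a') (h2 : R b b') : Par R (dlo a b) (dlo a' b') := by
  repeat' first | assumption | with_reducible apply par_app | constructor | intro _ _ _

theorem par_real (h1 : R a a') (h2 : R b b') (h3 : R c c') :
    Par R (real a b c) (real a' b' c') := by
  repeat' first | assumption | with_reducible apply par_app | constructor | intro _ _ _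

theorem par_btw (h1 : R a a') (h2 : R b b') (h3 : R c c') (h4 : R d d') (h5 : R e e') :
    Par R (btw a b c d e) (btw a' b' c' d' e') := by
  repeat' first
    | assumption | with_reducible apply par_app | with_reducible apply par_real | constructor
    | intro _ _ _

theorem par_seq (h1 : R a a') (h2 : R b b') : Par R (seq a b) (seq a' b') := by
  repeat' first
    | assumption | with_reducible apply par_app | with_reducible apply par_func | constructor
    | intro _ _ _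

theorem par_sel (h1 : R a a') (h2 : R b b') (h3 : R c c') : Par R (sel a b c) (sel a' b' c') := by
  repeat' first
    | assumption | with_reducible apply par_app | with_reducible apply par_seq
    | with_reducible apply par_fin | constructor | intro _ _ _

theorem par_sentence : Par R sentence sentence := by
  repeat' first
    | assumption | with_reducible apply par_app | with_reducible apply par_seq
    | with_reducible apply par_fin | with_reducible apply par_sel | with_reducible apply par_btw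
    | with_reducible apply par_real | with_reducible apply par_dlo | with_reducible apply par_dler
    | with_reducible apply par_omega | constructor | intro _ _ _

end

theorem exists_zfc_model : ∃ (M : Type 1) (E : M → M → Prop), ZFC E ∧ ∃ w, IOmega E w ∧
    IDleR E w ∧ ∃ l, IDlo E w l ∧ ∀ X, (∀ x, E x X → IReal E w l x) → IScheepers E w l X →
      IMenger2 E w l X := by
  obtain ⟨M, E, h1, h2⟩ := exists_model (le := cle (Order.succ 𝔠).ord.ToType) ht sentence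
    (fun _ _ _ => par_sentence) (forces_sentence long_succ)
  refine ⟨M, E, h1, ?_⟩
  simpa only [sentence, dler, dlo, real, scheepers, menger2, seq, sel, opn, opn2, btw, fin, img,
    func, dom, fn, splits, unb, IDleR, IDlo, IReal, IScheepers, IMenger2, ISeq, ISel, IOpn, IOpn2,
    IBtw, IFin, IImg, IFunc, IDom, IFn, ISplits, IUnb, sat_ex, sat_and, sat_omega, sat_all,
    sat_imp, sat_allIn, sat_exIn, sat_sub, sat_app, sat_neg, sat_mem, sat_eq, sat_or,
    and_imp] using h2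

end Pool.Agent.MP_5f86f1_lc

end MrgPart3

-- marker of a merged file
example : 731051 + 736631 = 731051 + 736631 := rfl
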