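import Mathlib.Algebra.Order.Ring.Star
import Mathlib.Data.Rat.Denumerable
import Mathlib.Data.Rat.Star
import Pool.Agent.MP_5f86f1_lc.Cond
import Pool.Agent.Lib.helper92.ForcingDefs
import Pool.Agent.Lib.helper92.Forcing

-- ======== part 0: formerly Pool.Agent.MP_5f86f1_lc.Defs
section MrgPart0

-- ======== part 0: formerly Pool.Agent.MP_5f86f1_lc.Fusion
section MrgPart0

/-! The fusion lemma. -/

open Set

namespace Pool.Agent.MP_5f86f1_lc

namespace Cond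

variable {ι : Type} [LinearOrder ι]

/-- the stems on `F` are kept -/
def Pure (F : Set ι) (r' r : Cond ι) : Prop :=
  ∀ ξ ∈ F, ∀ x, r'.B (Iio ξ) x → r'.st ξ x = r.st ξ x

/-- the first `n` levels on `Z` are kept -/
def LP (Z : Set ι) (n : ℕ) (r' r : Cond ι) : Prop :=
  ∀ ξ ∈ Z, ∀ x, r'.B (Iio ξ) x → ∀ u ∈ r.tr ξ x, u.length ≤ n → u ∈ r'.tr ξ x

/-- one cell at each coordinate -/
def comb (C : ℕ → Cond ι) (σ : ι → ℕ) : Cond ι := mix (fun ξ _ => σ ξ) (fun _ => Mf.const _) C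

/-- pointwise refinement of a system of cells -/
def Rel (Z : Set ι) (n : ℕ) (F : Set ι) (C' C : ℕ → Cond ι) : Prop :=
  ∀ i ξ x, (C' i).tr ξ x ⊆ (C i).tr ξ x ∧ (ξ ∈ F ∨ ξ ∈ Z → (C' i).st ξ x = (C i).st ξ x) ∧
    (ξ ∈ Z → ∀ u ∈ (C i).tr ξ x, u.length ≤ n → u ∈ (C' i).tr ξ x)

theorem Rel.refl (Z : Set ι) (n : ℕ) (F : Set ι) (C : ℕ → Cond ι) : Rel Z n F C C :=
  fun _ _ _ => ⟨Subset.rfl, fun _ => rfl, fun _ _ h _ => h⟩

theorem Rel.trans {Z : Set ι} {n : ℕ} {F : Set ι} {C C' C'' : ℕ → Cond ι}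
    (h : Rel Z n F C'' C') (h' : Rel Z n F C' C) : Rel Z n F C'' C := fun i ξ x =>
  ⟨(h i ξ x).1.trans (h' i ξ x).1, fun hξ => ((h i ξ x).2.1 hξ).trans ((h' i ξ x).2.1 hξ),
    fun hξ u hu hl => (h i ξ x).2.2 hξ u ((h' i ξ x).2.2 hξ u hu hl) hl⟩

/-- the invariant -/
def Inv (p : Cond ι) (Z : Set ι) (C : ℕ → Cond ι) : Prop :=
  ∀ i ξ x, (C i).tr ξ x ⊆ p.tr ξ x ∧ (ξ ∈ Z → (C i).st ξ x = p.st ξ x)

theorem Inv.rel {p : Cond ι} {Z : Set ι} {n : ℕ} {F : Set ι} {C C' : ℕ → Cond ι}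
    (h : Inv p Z C) (h' : Rel Z n F C' C) : Inv p Z C' := fun i ξ x =>
  ⟨(h' i ξ x).1.trans (h i ξ x).1, fun hξ => ((h' i ξ x).2.1 (Or.inr hξ)).trans ((h i ξ x).2 hξ)⟩

theorem exists_split (F : Finset ι) (n : ℕ) (r : Cond ι) : ∃ r' : Cond ι, ∀ ξ ∈ F, ∀ x, ∃ k,
    n ≤ k ∧ r'.st ξ x = r.st ξ x ++ [k] ∧ r'.tr ξ x ⊆ r.tr ξ x := by
  classical
  have : ∀ ξ, ∃ g : Om ι → ℕ, Mf (Iio ξ) g ∧ ∀ x, n ≤ g x ∧ r.st ξ x ++ [g x] ∈ r.tr ξ x := by
    intro ξ
    obtain ⟨g, hg, hg'⟩ := exists_sel (a := Iio ξ)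
      (P := fun k x => n ≤ k ∧ r.st ξ x ++ [k] ∈ r.tr ξ x) fun k => (Ms.const _).and
        ((r.mst ξ).subst (P := fun s x => s ++ [k] ∈ r.tr ξ x) fun s => r.mtr ξ _)
    exact ⟨g, hg, fun x => hg' x ((r.lav ξ x).inf _ (r.lav ξ x).stem (List.prefix_refl _) n)⟩
  choose g hg hg' using this
  have hm : ∀ ξ, Mf (Iio ξ) fun x => r.st ξ x ++ [g ξ x] := fun ξ =>
    ((r.mst ξ).prod (hg ξ)).comp fun z => z.1 ++ [z.2]
  refine ⟨⟨fun ξ x => if ξ ∈ F then r.st ξ x ++ [g ξ x] else [],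
    fun ξ x => if ξ ∈ F then thru (r.tr ξ x) (r.st ξ x ++ [g ξ x]) else univ, fun ξ x => ?_,
    fun ξ => ?_, fun ξ u => ?_, F.countable_toSet.mono fun ξ ⟨x, h⟩ => ?_⟩, fun ξ hξ x => ?_⟩
  · split_ifs
    · exact (r.lav ξ x).thru (hg' ξ x).2 (List.prefix_append _ _)
    · exact isLav_univ
  · by_cases h : ξ ∈ F
    · simpa only [if_pos h] using hm ξ
    · simpa only [if_neg h] using Mf.const (a := Iio ξ) ([] : List ℕ)
  · by_cases h : ξ ∈ F
    · simp only [if_pos h]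
      exact (r.mtr ξ u).and ((hm ξ).pred fun s => u <+: s ∨ s <+: u)
    · simpa only [if_neg h] using Ms.const (a := Iio ξ) (u ∈ (univ : Set (List ℕ)))
  · by_contra h'
    exact h (if_neg h')
  · exact ⟨g ξ x, (hg' ξ x).1, if_pos hξ, by simp only [if_pos hξ]; exact thru_sub _ _⟩

variable [WellFoundedLT ι]

section

variable {p : Cond ι} {Z : Set ι} {Q : ℕ → Cond ι → Prop}
  (hQ : ∀ n r r', r' ≤ r → Q n r → Q n r')
  (H : ∀ n (F : Finset ι) r, (∀ ξ ∈ F, ξ ∉ Z) → r ≤ p → Pure Z r p →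
    ∃ r', r' ≤ r ∧ Pure F r' r ∧ Pure Z r' r ∧ LP Z n r' r ∧ Q n r')

include hQ H

theorem step_one {n : ℕ} {F : Finset ι} (hF : ∀ ξ ∈ F, ξ ∉ Z) {C : ℕ → Cond ι}
    (hC : Inv p Z C) (σ : ι → ℕ) : ∃ C', Rel Z n F C' C ∧ Q n (comb C' σ) := by
  obtain ⟨r, h1, h2, h3, h4, h5⟩ := H n F (comb C σ) hF
    (le_of_tr_sub fun ξ x _ => (hC _ ξ x).1) fun ξ hξ x _ => (hC _ ξ x).2 hξ
  let C' : ℕ → Cond ι := fun i => pick (fun ξ x => i = σ ξ ∧ r.B (Iio ξ) x)
    (fun ξ => (Ms.const _).and (r.ms_B (isLowerSet_Iio ξ))) r (C i)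
  refine ⟨C', fun i ξ x => ?_, hQ n r _ (fun x hx => bd_of_step fun ξ hξ => ?_) h5⟩
  · by_cases h : i = σ ξ ∧ r.B (Iio ξ) x
    · rw [pick_tr_pos h, pick_st_pos h]
      obtain ⟨rfl, h⟩ := h
      exact ⟨tr_sub_of_le h1 h, fun hξ => hξ.elim (fun hξ => h2 ξ hξ x h) fun hξ => h3 ξ hξ x h,
        fun hξ => h4 ξ hξ x h⟩
    · rw [pick_tr_neg h, pick_st_neg h]
      exact ⟨Subset.rfl, fun _ => rfl, fun _ _ h _ => h⟩
  · have := hx ξ trivial
    change x ξ ∈ br ((C' (σ ξ)).tr ξ x) at this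
    rwa [pick_tr_pos ⟨rfl, hξ⟩] at this

theorem step_many {n : ℕ} {F : Finset ι} (hF : ∀ ξ ∈ F, ξ ∉ Z) {C : ℕ → Cond ι}
    (hC : Inv p Z C) {S : Set (ι → ℕ)} (hS : S.Finite) :
    ∃ C', Rel Z n F C' C ∧ ∀ σ ∈ S, Q n (comb C' σ) := by
  induction S, hS using Set.Finite.induction_on with
  | empty => exact ⟨C, Rel.refl _ _ _ _, fun _ h => h.elim⟩
  | @insert σ S _ _ ih =>
    obtain ⟨C', h1, h2⟩ := ih
    obtain ⟨C'', h3, h4⟩ := step_one hQ H (n := n) hF (hC.rel h1) σ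
    refine ⟨C'', h3.trans h1, ?_⟩
    rintro τ (rfl | hτ)
    · exact h4
    · exact hQ n (comb C' τ) _ (le_of_tr_sub fun ξ x _ => (h3 (τ ξ) ξ x).1) (h2 τ hτ)

omit hQ H [LinearOrder ι] [WellFoundedLT ι] in
theorem finite_addr (n : ℕ) (F : Finset ι) :
    {σ : ι → ℕ | ∀ ξ, (ξ ∈ F → σ ξ ≤ n) ∧ (ξ ∉ F → σ ξ = 0)}.Finite := by
  classical
  refine (Set.finite_range fun (τ : F → Fin (n + 1)) (ξ : ι) =>
    if h : ξ ∈ F then (τ ⟨ξ, h⟩ : ℕ) else 0).subset fun σ hσ =>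
      ⟨fun ξ => ⟨σ ξ, Nat.lt_succ_of_le ((hσ ξ).1 ξ.2)⟩, funext fun ξ => ?_⟩
  by_cases h : ξ ∈ F
  · simp [h]
  · simp [h, (hσ ξ).2 h]

theorem step_stage (n : ℕ) {F : Finset ι} (hF : ∀ ξ ∈ F, ξ ∉ Z) {C : ℕ → Cond ι}
    (hC : Inv p Z C) : ∃ C', Inv p Z C' ∧
      (∀ ξ ∈ F, ∀ x, ∀ i ≤ n, (C' i).tr ξ x ⊆ (C i).tr ξ x ∧ (C' i).st ξ x = (C i).st ξ x) ∧
      (∀ ξ ∈ F, ∀ x, ∃ k, n ≤ k ∧ (C' (n + 1)).st ξ x = (C' (spl n)).st ξ x ++ [k] ∧
        (C' (n + 1)).tr ξ x ⊆ (C' (spl n)).tr ξ x) ∧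
      (∀ ξ, ξ ∉ F → ∀ x, (∀ i, (C' i).tr ξ x = (C' 0).tr ξ x ∧ (C' i).st ξ x = (C' 0).st ξ x) ∧
        (C' 0).tr ξ x ⊆ (C 0).tr ξ x ∧
        (ξ ∈ Z → ∀ u ∈ (C 0).tr ξ x, u.length ≤ n → u ∈ (C' 0).tr ξ x)) ∧
      ∀ σ : ι → ℕ, (∀ ξ, (ξ ∈ F → σ ξ ≤ n) ∧ (ξ ∉ F → σ ξ = 0)) → Q n (comb C' σ) := by
  obtain ⟨C', h1, h2⟩ := step_many hQ H (n := n) hF hC (finite_addr n F)
  have h3 := hC.rel h1
  obtain ⟨r, hr⟩ := exists_split F n (C' (spl n))
  let C'' : ℕ → Cond ι := fun i => cut F (if i = n + 1 then r else C' i) (C' 0)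
  have k1 : ∀ ξ ∈ F, ∀ x, ∀ i ≤ n, (C'' i).tr ξ x = (C' i).tr ξ x ∧
      (C'' i).st ξ x = (C' i).st ξ x := by
    intro ξ hξ x i hi
    have : i ≠ n + 1 := by omega
    simp only [C'', if_neg this]
    exact ⟨cut_tr_pos hξ, cut_st_pos hξ⟩
  have k2 : ∀ ξ ∈ F, ∀ x, (C'' (n + 1)).tr ξ x = r.tr ξ x ∧
      (C'' (n + 1)).st ξ x = r.st ξ x := by
    intro ξ hξ x
    simp only [C'', if_pos]
    exact ⟨cut_tr_pos hξ, cut_st_pos hξ⟩
  have k3 : ∀ ξ, ξ ∉ F → ∀ x i, (C'' i).tr ξ x = (C' 0).tr ξ x ∧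
      (C'' i).st ξ x = (C' 0).st ξ x := fun ξ hξ x i => ⟨cut_tr_neg hξ, cut_st_neg hξ⟩
  refine ⟨C'', fun i ξ x => ?_, fun ξ hξ x i hi => ?_, fun ξ hξ x => ?_, fun ξ hξ x => ?_,
    fun σ hσ => hQ n _ _ (le_of_tr_sub fun ξ x _ => ?_) (h2 σ hσ)⟩
  · by_cases hξ : ξ ∈ F
    · refine ⟨?_, fun h => absurd h (hF ξ hξ)⟩
      by_cases hi : i = n + 1
      · obtain ⟨k, -, -, h⟩ := hr ξ hξ x
        rw [hi, (k2 ξ hξ x).1]
        exact h.trans (h3 _ ξ x).1
      · simp only [C'', if_neg hi]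
        rw [cut_tr_pos hξ]
        exact (h3 _ ξ x).1
    · rw [(k3 ξ hξ x i).1, (k3 ξ hξ x i).2]
      exact h3 _ ξ x
  · rw [(k1 ξ hξ x i hi).1, (k1 ξ hξ x i hi).2]
    exact ⟨(h1 i ξ x).1, (h1 i ξ x).2.1 (Or.inl hξ)⟩
  · rw [(k2 ξ hξ x).1, (k2 ξ hξ x).2, (k1 ξ hξ x _ (spl_le n)).1, (k1 ξ hξ x _ (spl_le n)).2]
    exact hr ξ hξ x
  · rw [(k3 ξ hξ x 0).1, (k3 ξ hξ x 0).2]
    exact ⟨k3 ξ hξ x, (h1 0 ξ x).1, (h1 0 ξ x).2.2⟩
  · change (C'' (σ ξ)).tr ξ x ⊆ (C' (σ ξ)).tr ξ x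
    by_cases hξ : ξ ∈ F
    · rw [(k1 ξ hξ x _ ((hσ ξ).1 hξ)).1]
    · rw [(k3 ξ hξ x _).1, (hσ ξ).2 hξ]

theorem fusion (F0 : Finset ι) (hF0 : ∀ ξ ∈ F0, ξ ∉ Z) :
    ∃ q, q ≤ p ∧ Pure F0 q p ∧ Pure Z q p ∧ ∀ n, ∃ R : Set (Cond ι), R.Finite ∧
      (∀ r ∈ R, Q n r) ∧ ∀ x, q.bd x → ∃ r ∈ R, r.bd x := by
  classical
  have henum : ∀ r : Cond ι, ∃ e : ℕ → Option ι, ∀ ξ ∈ r.supp, ∃ k, e k = some ξ := by
    intro r
    obtain ⟨e, he⟩ := ((r.cnt.image some).insert none).exists_eq_range (insert_nonempty _ _)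
    exact ⟨e, fun ξ hξ => by
      have : some ξ ∈ range e := he ▸ Or.inr ⟨ξ, hξ, rfl⟩
      exact this⟩
  choose en hen using henum
  let St := {S : Finset ι × (ℕ → Cond ι) // (∀ ξ ∈ S.1, ξ ∉ Z) ∧ Inv p Z S.2}
  choose nx hnx using fun n (S : St) => step_stage hQ H n S.2.1 S.2.2
  let G : ℕ → (ℕ → Cond ι) → Finset ι := fun n hist =>
    ((Finset.range (n + 1) ×ˢ Finset.range (n + 1)).biUnion fun z =>
      (en (hist z.1) z.2).toFinset).filter (· ∉ Z)
  let t : ℕ → St × (ℕ → Cond ι) := fun n => Nat.rec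
    (⟨(F0, fun _ => p), hF0, fun _ _ _ => ⟨Subset.rfl, fun _ => rfl⟩⟩, fun _ => p)
    (fun n S => (⟨(S.1.1.1 ∪ G n S.2, nx n S.1), fun ξ hξ => by
        rcases Finset.mem_union.1 hξ with h | h
        · exact S.1.2.1 ξ h
        · exact (Finset.mem_filter.1 h).2, (hnx n S.1).1⟩,
      Function.update S.2 (n + 1) (nx n S.1 0))) n
  let F : ℕ → Finset ι := fun n => (t n).1.1.1
  let C : ℕ → ℕ → Cond ι := fun n => (t n).1.1.2
  have hF : ∀ n, F (n + 1) = F n ∪ G n (t n).2 := fun n => rfl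
  have hC : ∀ n, C (n + 1) = nx n (t n).1 := fun n => rfl
  have hC0 : C 0 = fun _ => p := rfl
  have hInv : ∀ n, Inv p Z (C n) := fun n => (t n).1.2.2
  have hZ : ∀ n, ∀ ξ ∈ F n, ξ ∉ Z := fun n => (t n).1.2.1
  have hhist : ∀ n, ∀ m ≤ n, (t n).2 m = C m 0 := by
    intro n
    induction n with
    | zero => intro m hm; obtain rfl : m = 0 := by omega
              rfl
    | succ n ih =>
      intro m hm
      change Function.update (t n).2 (n + 1) (nx n (t n).1 0) m = _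
      by_cases h : m = n + 1
      · subst h
        rw [Function.update_self]
      · rw [Function.update_of_ne h, ih m (by omega)]
  have hmono : ∀ m n, m ≤ n → F m ⊆ F n := by
    intro m n hmn
    induction hmn with
    | refl => exact Finset.Subset.refl _
    | step _ ih => exact ih.trans (by rw [hF]; exact Finset.subset_union_left)
  have T1 : ∀ n, ∀ ξ ∈ F n, ∀ x, ∀ i ≤ n, (C (n + 1) i).tr ξ x ⊆ (C n i).tr ξ x ∧
      (C (n + 1) i).st ξ x = (C n i).st ξ x := fun n => (hnx n (t n).1).2.1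
  have T2 : ∀ n, ∀ ξ ∈ F n, ∀ x, ∃ k, n ≤ k ∧
      (C (n + 1) (n + 1)).st ξ x = (C (n + 1) (spl n)).st ξ x ++ [k] ∧
      (C (n + 1) (n + 1)).tr ξ x ⊆ (C (n + 1) (spl n)).tr ξ x := fun n => (hnx n (t n).1).2.2.1
  have T3 : ∀ n ξ, ξ ∉ F n → ∀ x, (∀ i, (C (n + 1) i).tr ξ x = (C (n + 1) 0).tr ξ x ∧
      (C (n + 1) i).st ξ x = (C (n + 1) 0).st ξ x) ∧ (C (n + 1) 0).tr ξ x ⊆ (C n 0).tr ξ x ∧
      (ξ ∈ Z → ∀ u ∈ (C n 0).tr ξ x, u.length ≤ n → u ∈ (C (n + 1) 0).tr ξ x) :=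
    fun n => (hnx n (t n).1).2.2.2.1
  have T4 : ∀ n (σ : ι → ℕ), (∀ ξ, (ξ ∈ F n → σ ξ ≤ n) ∧ (ξ ∉ F n → σ ξ = 0)) →
      Q n (comb (C (n + 1)) σ) := fun n => (hnx n (t n).1).2.2.2.2
  have hbook : ∀ ξ, ξ ∉ Z → (¬ ∃ n, ξ ∈ F n) → ∀ n x, (C n 0).tr ξ x = univ := by
    intro ξ hξ h n x
    refine tr_eq_univ (fun hs => h ?_) x
    obtain ⟨k, hk⟩ := hen _ ξ hs
    refine ⟨max n k + 1, ?_⟩
    rw [hF]
    refine Finset.mem_union_right _ (Finset.mem_filter.2 ⟨Finset.mem_biUnion.2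
      ⟨(n, k), by simp, ?_⟩, hξ⟩)
    simp only [hhist _ n (le_max_left n k), hk, Option.toFinset_some, Finset.mem_singleton]
  have h00 : ∀ m n, m ≤ n → ∀ ξ x, (C n 0).tr ξ x ⊆ (C m 0).tr ξ x := by
    intro m n hmn ξ x
    induction hmn with
    | refl => exact Subset.rfl
    | @step n _ ih =>
      refine Subset.trans ?_ ih
      by_cases h : ξ ∈ F n
      · exact (T1 n ξ h x 0 (Nat.zero_le _)).1
      · exact (T3 n ξ h x).2.1
  let nξ : ι → ℕ := fun ξ => if h : ∃ n, ξ ∈ F n then Nat.find h else 0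
  have hn1 : ∀ ξ, (∃ n, ξ ∈ F n) → ∀ n, nξ ξ ≤ n ↔ ξ ∈ F n := by
    intro ξ h n
    simp only [nξ, dif_pos h]
    exact ⟨fun h' => hmono _ _ h' (Nat.find_spec h), fun h' => Nat.find_le h'⟩
  have hn2 : ∀ ξ, (∃ n, ξ ∈ F n) → ∀ x i, i ≤ nξ ξ → (C (nξ ξ) i).tr ξ x = (C (nξ ξ) 0).tr ξ x ∧
      (C (nξ ξ) i).st ξ x = (C (nξ ξ) 0).st ξ x := by
    intro ξ h x i hi
    rcases hm : nξ ξ with _ | m
    · obtain rfl : i = 0 := by omega
      exact ⟨rfl, rfl⟩
    · exact (T3 m ξ (fun h' => by have := (hn1 ξ h m).2 h'; omega) x).1 i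
  have hcell : ∀ ξ, (∃ n, ξ ∈ F n) → ∀ x,
      IsLav ((C (nξ ξ) 0).st ξ x) {u | ∃ n i, nξ ξ ≤ n ∧ i ≤ n ∧ u <+: (C n i).st ξ x} ∧
      ∀ n, nξ ξ ≤ n → ∀ y ∈ br {u | ∃ n i, nξ ξ ≤ n ∧ i ≤ n ∧ u <+: (C n i).st ξ x},
        ∃ i ≤ n, y ∈ br ((C n i).tr ξ x) := by
    intro ξ h x
    refine isLav_cells (s := fun n i => (C n i).st ξ x) (T := fun n i => (C n i).tr ξ x)
      (fun n i => (C n i).lav ξ x) (fun i hi => (hn2 ξ h x i hi).2)
      (fun n hn i hi => T1 n ξ ((hn1 ξ h n).1 hn) x i hi) fun n hn => ?_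
    have hξ := (hn1 ξ h n).1 hn
    obtain ⟨k, h1, h2, h3⟩ := T2 n ξ hξ x
    exact ⟨k, h1, by rw [h2, (T1 n ξ hξ x _ (spl_le n)).2],
      h3.trans (T1 n ξ hξ x _ (spl_le n)).1⟩
  let q : Cond ι :=
    { st := fun ξ x => if ∃ n, ξ ∈ F n then (C (nξ ξ) 0).st ξ x else p.st ξ x
      tr := fun ξ x => if ∃ n, ξ ∈ F n then
        {u | ∃ n i, nξ ξ ≤ n ∧ i ≤ n ∧ u <+: (C n i).st ξ x} else {u | ∀ n, u ∈ (C n 0).tr ξ x}
      lav := fun ξ x => by
        split_ifs with h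
        · exact (hcell ξ h x).1
        · by_cases hξ : ξ ∈ Z
          · refine isLav_inter (fun n => ?_) (fun n => h00 _ _ (Nat.le_succ n) ξ x)
              fun n => (T3 n ξ (fun h' => h ⟨n, h'⟩) x).2.2 hξ
            rw [← (hInv n 0 ξ x).2 hξ]
            exact (C n 0).lav ξ x
          · have h1 := hbook ξ hξ h
            have h2 := p.lav ξ x
            have h3 : p.tr ξ x = univ := h1 0 x
            rw [h3] at h2
            simpa [h1] using h2
      mst := fun ξ => by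
        by_cases h : ∃ n, ξ ∈ F n
        · simpa only [if_pos h] using (C (nξ ξ) 0).mst ξ
        · simpa only [if_neg h] using p.mst ξ
      mtr := fun ξ u => by
        by_cases h : ∃ n, ξ ∈ F n
        · simp only [if_pos h]
          exact Ms.ex fun n => Ms.ex fun i => (Ms.const _).and ((Ms.const _).and
            (((C n i).mst ξ).pred (u <+: ·)))
        · simp only [if_neg h]
          exact Ms.all fun n => (C n 0).mtr ξ u
      cnt := ((countable_iUnion fun n => (F n).countable_toSet).union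
        (countable_iUnion fun n => (C n 0).cnt)).mono fun ξ ⟨x, hx⟩ => by
          by_cases h : ∃ n, ξ ∈ F n
          · exact Or.inl (mem_iUnion.2 h)
          · rw [if_neg h] at hx
            right
            by_contra h'
            refine hx (eq_univ_of_forall fun u n => ?_)
            rw [tr_eq_univ (fun h'' => h' (mem_iUnion.2 ⟨n, h''⟩)) x]
            trivial }
  have hcov : ∀ n x, q.bd x → ∃ σ : ι → ℕ, (∀ ξ, (ξ ∈ F n → σ ξ ≤ n) ∧ (ξ ∉ F n → σ ξ = 0)) ∧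
      (comb (C (n + 1)) σ).bd x := by
    intro n x hx
    have : ∀ ξ, ∃ i, ((ξ ∈ F n → i ≤ n) ∧ (ξ ∉ F n → i = 0)) ∧
        x ξ ∈ br ((C (n + 1) i).tr ξ x) := by
      intro ξ
      have h1 := hx ξ trivial
      by_cases h : ∃ n, ξ ∈ F n
      · simp only [q, if_pos h] at h1
        by_cases hξ : ξ ∈ F n
        · obtain ⟨i, hi, h2⟩ := (hcell ξ h x).2 (n + 1)
            (((hn1 ξ h n).2 hξ).trans (Nat.le_succ n)) _ h1
          by_cases hi' : i = n + 1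
          · subst hi'
            obtain ⟨k, -, -, h3⟩ := T2 n ξ hξ x
            exact ⟨spl n, ⟨fun _ => spl_le n, fun h => absurd hξ h⟩, br_mono h3 h2⟩
          · exact ⟨i, ⟨fun _ => by omega, fun h => absurd hξ h⟩, h2⟩
        · obtain ⟨i, hi, h2⟩ := (hcell ξ h x).2 _ le_rfl _ h1
          rw [(hn2 ξ h x i hi).1] at h2
          have h3 : n + 1 ≤ nξ ξ := by
            by_contra h3
            exact hξ ((hn1 ξ h n).1 (by omega))
          exact ⟨0, ⟨fun _ => Nat.zero_le _, fun _ => rfl⟩, br_mono (h00 _ _ h3 ξ x) h2⟩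
      · simp only [q, if_neg h] at h1
        exact ⟨0, ⟨fun _ => Nat.zero_le _, fun _ => rfl⟩, fun k => h1 k (n + 1)⟩
    choose σ h1 h2 using this
    exact ⟨σ, h1, fun ξ _ => h2 ξ⟩
  refine ⟨q, fun x hx => ?_, fun ξ hξ x _ => ?_, fun ξ hξ x _ => ?_, fun n =>
    ⟨_, (finite_addr n (F n)).image (comb (C (n + 1))), ?_, fun x hx => ?_⟩⟩
  · obtain ⟨σ, -, h⟩ := hcov 0 x hx
    exact fun ξ _ => br_mono (hInv 1 (σ ξ) ξ x).1 (h ξ trivial)
  · have h : ∃ n, ξ ∈ F n := ⟨0, hξ⟩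
    have h1 : nξ ξ = 0 := Nat.le_zero.1 ((hn1 ξ h 0).2 hξ)
    simp only [q, if_pos h, h1, hC0]
  · have h : ¬ ∃ n, ξ ∈ F n := fun ⟨n, hn⟩ => hZ n ξ hn hξ
    simp only [q, if_neg h]
  · rintro _ ⟨σ, hσ, rfl⟩
    exact T4 n σ hσ
  · obtain ⟨σ, h1, h2⟩ := hcov n x hx
    exact ⟨_, ⟨σ, h1, rfl⟩, h2⟩

end

end Cond

end Pool.Agent.MP_5f86f1_lc

end MrgPart0

-- ======== part 1: formerly Pool.Agent.MP_5f86f1_lc.PD
section MrgPart1

/-! Pure decision, capturing dense sets and deciding Borel sets. -/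

open Set

namespace Pool.Agent.MP_5f86f1_lc

namespace Cond

variable {ι : Type} [LinearOrder ι]

/-- on `L`, `r` is covered by countably many members of `D` -/
def Capt (L : Set ι) (D : Cond ι → Prop) (r : Cond ι) : Prop :=
  ∃ d : ℕ → Cond ι, (∀ j, D (d j)) ∧ ∀ x, r.B L x → ∃ j, (d j).B L x

theorem Capt.of_mem {L : Set ι} {D : Cond ι → Prop} {r : Cond ι} (h : D r) : Capt L D r :=
  ⟨fun _ => r, fun _ => h, fun _ hx => ⟨0, hx⟩⟩

theorem Capt.of_B {L : Set ι} {D : Cond ι → Prop} {r r' : Cond ι} (h : Capt L D r)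
    (h' : ∀ x, r'.B L x → r.B L x) : Capt L D r' :=
  let ⟨d, h1, h2⟩ := h; ⟨d, h1, fun x hx => h2 x (h' x hx)⟩

theorem Capt.of_cover {L : Set ι} {D : Cond ι → Prop} {q : Cond ι} {I : Type} [Countable I]
    [Nonempty I] {R : I → Cond ι} (h : ∀ i, Capt L D (R i))
    (h' : ∀ x, q.B L x → ∃ i, (R i).B L x) : Capt L D q := by
  choose d h1 h2 using h
  obtain ⟨e, he⟩ := exists_surjective_nat (I × ℕ)
  refine ⟨fun n => d (e n).1 (e n).2, fun n => h1 _ _, fun x hx => ?_⟩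
  obtain ⟨i, hi⟩ := h' x hx
  obtain ⟨j, hj⟩ := h2 i x hi
  obtain ⟨n, hn⟩ := he (i, j)
  exact ⟨n, by simpa only [hn] using hj⟩

/-- pure decision on `F` -/
def PD (F : Finset ι) : Prop :=
  ∀ (κ : Type) [Finite κ] (p : Cond ι) (D : κ → Cond ι → Prop),
    (∀ r ≤ p, ∃ r' ≤ r, ∃ i, D i r') → ∃ q ≤ p, Pure F q p ∧ ∃ i, Capt univ (D i) q

/-- deciding countable Borel covers -/
def Dec (L : Set ι) : Prop :=
  ∀ (I : Type) [Countable I] (A : I → Om ι → Prop), (∀ i, Ms L (A i)) → ∀ r : Cond ι,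
    (∀ x, r.bd x → ∃ i, A i x) → ∃ r' ≤ r, ∃ i, ∀ x, r'.bd x → A i x

theorem dense_finite {κ : Type} [Finite κ] {p : Cond ι} {D : κ → Cond ι → Prop}
    (h1 : ∀ i s s', s' ≤ s → D i s → D i s') (h2 : ∀ i, ∀ s ≤ p, ∃ s' ≤ s, D i s') :
    ∀ s ≤ p, ∃ s' ≤ s, ∀ i, D i s' := by
  have : ∀ S : Set κ, S.Finite → ∀ s ≤ p, ∃ s' ≤ s, ∀ i ∈ S, D i s' := by
    intro S hS
    induction S, hS using Set.Finite.induction_on with
    | empty => exact fun s _ => ⟨s, le_rfl, fun _ h => h.elim⟩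
    | @insert i S _ _ ih =>
      intro s hs
      obtain ⟨s1, k1, k2⟩ := ih s hs
      obtain ⟨s2, k3, k4⟩ := h2 i s1 (k1.trans hs)
      refine ⟨s2, k3.trans k1, ?_⟩
      rintro j (rfl | hj)
      · exact k4
      · exact h1 j _ _ k3 (k2 j hj)
  intro s hs
  obtain ⟨s', k1, k2⟩ := this univ (toFinite _) s hs
  exact ⟨s', k1, fun i => k2 i trivial⟩

variable [WellFoundedLT ι]

theorem cover_B {L : Set ι} (hL : IsLowerSet L) {q : Cond ι} {I : Type} {R : I → Cond ι}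
    (h : ∀ x, q.bd x → ∃ i, (R i).bd x) {x : Om ι} (hx : q.B L x) : ∃ i, (R i).B L x := by
  obtain ⟨x', h1, h2⟩ := q.exists_ext hL hx
  obtain ⟨i, hi⟩ := h x' h1
  exact ⟨i, (((R i).ms_B hL).dep h2).1 (hi.B L)⟩

theorem Capt.lower {L : Set ι} (hL : IsLowerSet L) {D : Cond ι → Prop} {r : Cond ι}
    (h : Capt univ D r) : Capt L D r :=
  let ⟨d, h1, h2⟩ := h; ⟨d, h1, fun _ hx => cover_B hL h2 hx⟩

theorem cap_of_PD {L : Set ι} (hL : IsLowerSet L) (hPD : ∀ F : Finset ι, ↑F ⊆ L → PD F)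
    (F0 : Finset ι) (hF0 : ↑F0 ⊆ L) {I : Type} [Countable I] (p : Cond ι)
    (D : I → Cond ι → Prop) (hD : ∀ i, ∀ r ≤ p, ∃ r' ≤ r, D i r') :
    ∃ q ≤ p, Pure F0 q p ∧ ∀ i, Capt L (D i) q := by
  rcases isEmpty_or_nonempty I with hI | hI
  · exact ⟨p, le_rfl, fun _ _ _ _ => rfl, fun i => hI.elim i⟩
  obtain ⟨e, he⟩ := exists_surjective_nat I
  obtain ⟨q, h1, h2, -, h3⟩ := fusion (p := p) (Z := Lᶜ) (Q := fun n r => Capt L (D (e n)) r)
    (fun n r r' h h' => h'.of_B fun x hx => B_of_le h hL hx) (fun n F r hF hr _ => by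
      have hF' : ↑F ⊆ L := fun ξ hξ => not_not.1 (hF ξ hξ)
      obtain ⟨r', k1, k2, -, k3⟩ := hPD F hF' Unit r (fun _ => D (e n)) fun s hs =>
        let ⟨s', k1, k2⟩ := hD (e n) s (hs.trans hr); ⟨s', k1, (), k2⟩
      refine ⟨cut L r' r, cut_le' hL k1, fun ξ hξ x hx => ?_, fun ξ hξ x _ => cut_st_neg hξ,
        fun ξ hξ x _ u hu _ => ?_, (k3.lower hL).of_B fun x hx => (cut_B Subset.rfl).1 hx⟩
      · rw [cut_st_pos (hF' hξ)]
        exact k2 ξ hξ x ((cut_B fun η hη => hL (le_of_lt hη) (hF' hξ)).1 hx)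
      · rwa [cut_tr_neg hξ]) F0 fun ξ hξ h => h (hF0 hξ)
  refine ⟨q, h1, h2, fun i => ?_⟩
  obtain ⟨n, rfl⟩ := he i
  obtain ⟨R, k1, k2, k3⟩ := h3 n
  have : Countable R := k1.countable
  have : Nonempty R := by
    obtain ⟨x, hx⟩ := q.bd_nonempty
    obtain ⟨r, hr, -⟩ := k3 x hx
    exact ⟨⟨r, hr⟩⟩
  exact Capt.of_cover (R := fun r : R => r.1) (fun r => k2 r r.2) fun x hx =>
    cover_B hL (fun y hy => let ⟨r, hr, h⟩ := k3 y hy; ⟨⟨r, hr⟩, h⟩) hx

theorem node_of_Dec {η : ι} (hDec : Dec (Iio η)) (r : Cond ι) (n : ℕ) :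
    ∃ r' ≤ r, ∃ u : List ℕ, n ≤ u.length ∧ ∀ x, r'.bd x → seg (x η) u.length = u := by
  have hm : ∀ u : List ℕ, Ms (Iio η) fun x => n ≤ u.length ∧ u ∈ r.tr η x ∧ r.st η x <+: u :=
    fun u => (Ms.const _).and ((r.mtr η u).and ((r.mst η).pred (· <+: u)))
  obtain ⟨r1, h1, u, h2⟩ := hDec (List ℕ) _ hm r fun x hx =>
    ⟨seg (x η) (max n (r.st η x).length), by simp, hx η trivial _,
      (r.lav η x).stem_pre_seg (hx η trivial) (le_max_right _ _)⟩
  have hl : ∀ x, n ≤ u.length ∧ u ∈ r.tr η x ∧ r.st η x <+: u → IsLav u (thru (r.tr η x) u) :=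
    fun x hx => (r.lav η x).thru hx.2.1 hx.2.2
  let r2 := setAt (cut (Iio η) r1 r) η _ (fun _ => u) (fun x => thru (r.tr η x) u) (hm u)
    (Mf.const _) (fun v => (r.mtr η v).and (Ms.const _)) hl
  have h3 : r2 ≤ cut (Iio η) r1 r := le_of_tr_sub fun ξ x _ => by
    by_cases hξ : ξ = η
    · subst hξ
      by_cases hx : n ≤ u.length ∧ u ∈ r.tr ξ x ∧ r.st ξ x <+: u
      · rw [setAt_tr_pos hx, cut_tr_neg (L := Iio ξ) (lt_irrefl ξ)]
        exact thru_sub _ _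
      · rw [setAt_tr_neg hx]
    · rw [setAt_tr_ne hξ]
  obtain ⟨x0, hx0⟩ := r1.bd_nonempty
  refine ⟨r2, h3.trans (cut_le' (isLowerSet_Iio η) h1), u, (h2 x0 hx0).1, fun x hx => ?_⟩
  have h4 := of_bd (isLowerSet_Iio η) (hm u) h2 ((cut_B Subset.rfl).1 ((h3 x hx).B _))
  have h5 := hx η trivial
  rw [setAt_tr_pos h4] at h5
  exact (hl x h4).seg_stem h5

theorem Dec_of_PD {L : Set ι} (hL : IsLowerSet L) (hPD : ∀ F : Finset ι, ↑F ⊆ L → PD F)
    (hDec : ∀ η ∈ L, Dec (Iio η)) : Dec L := by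
  have key : ∀ (I : Type) [Countable I] (A : I → Om ι → Prop), (∀ i, Ms L (A i)) →
      (∀ i (r : Cond ι), ∃ r' ≤ r, (∀ x, r'.bd x → A i x) ∨ ∀ x, r'.bd x → ¬ A i x) →
      ∀ r : Cond ι, ∃ r' ≤ r, (∃ i, ∀ x, r'.bd x → A i x) ∨ ∀ x, r'.bd x → ∀ i, ¬ A i x := by
    intro I _ A hA h r
    by_cases h1 : ∃ r' ≤ r, ∃ i, ∀ x, r'.bd x → A i x
    · obtain ⟨r', h2, h3⟩ := h1
      exact ⟨r', h2, Or.inl h3⟩
    · obtain ⟨q, h2, -, h3⟩ := cap_of_PD hL hPD ∅ (by simp) r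
        (fun i d => ∀ x, d.bd x → ¬ A i x) fun i s hs => by
          obtain ⟨s', k1, k2 | k2⟩ := h i s
          · exact absurd ⟨s', k1.trans hs, i, k2⟩ h1
          · exact ⟨s', k1, k2⟩
      refine ⟨q, h2, Or.inr fun x hx i => ?_⟩
      obtain ⟨d, k1, k2⟩ := h3 i
      obtain ⟨j, hj⟩ := k2 x (hx.B L)
      exact of_bd hL (hA i).not (k1 j) hj
  have dec : ∀ A, Ms L A → Ms L A ∧
      ∀ r : Cond ι, ∃ r' ≤ r, (∀ x, r'.bd x → A x) ∨ ∀ x, r'.bd x → ¬ A x := by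
    intro A hA
    refine hA.induction (C := fun A => Ms L A ∧
      ∀ r : Cond ι, ∃ r' ≤ r, (∀ x, r'.bd x → A x) ∨ ∀ x, r'.bd x → ¬ A x)
      (fun η hη n k => ⟨Ms.coord hη n k, fun r => ?_⟩)
      ⟨Ms.const _, fun r => ⟨r, le_rfl, Or.inr fun _ _ h => h⟩⟩
      (fun P h => ⟨h.1.not, fun r => ?_⟩) fun P h => ⟨Ms.ex fun n => (h n).1, fun r => ?_⟩
    · obtain ⟨r', h1, u, h2, h3⟩ := node_of_Dec (hDec η hη) r (n + 1)
      have h4 : ∀ x, r'.bd x → x η n = u.getD n 0 := fun x hx => by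
        rw [← h3 x hx, seg_getD _ h2]
      refine ⟨r', h1, ?_⟩
      by_cases h : u.getD n 0 = k
      · exact Or.inl fun x hx => (h4 x hx).trans h
      · exact Or.inr fun x hx h' => h ((h4 x hx).symm.trans h')
    · obtain ⟨r', h1, h2⟩ := h.2 r
      exact ⟨r', h1, h2.symm.imp id fun h x hx => not_not.2 (h x hx)⟩
    · obtain ⟨r', h1, h2⟩ := key ℕ P (fun n => (h n).1) (fun n => (h n).2) r
      exact ⟨r', h1, h2.imp (fun ⟨i, h⟩ x hx => ⟨i, h x hx⟩) fun h x hx ⟨i, hi⟩ => h x hx i hi⟩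
  intro I _ A hA r hr
  obtain ⟨r', h1, h2 | h2⟩ := key I A hA (fun i => (dec _ (hA i)).2) r
  · exact ⟨r', h1, h2⟩
  · obtain ⟨x, hx⟩ := r'.bd_nonempty
    obtain ⟨i, hi⟩ := hr x (h1 x hx)
    exact absurd hi (h2 x hx i)

theorem PD_insert {ξ : ι} (hPD : ∀ F : Finset ι, ↑F ⊆ Iio ξ → PD F) (hDec : Dec (Iio ξ))
    [DecidableEq ι] (F : Finset ι) (hF : ↑F ⊆ Iio ξ) : PD (insert ξ F) := by
  intro κ _ p D hD
  have hL := isLowerSet_Iio ξ
  let E : List ℕ → κ → Cond ι → Prop := fun t i s =>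
    ∃ q ≤ p, (∀ x, s.B (Iio ξ) x → q.B (Iio ξ) x ∧ q.st ξ x = t) ∧ Capt univ (D i) q
  have Emono : ∀ t i s s', (∀ x, s'.B (Iio ξ) x → s.B (Iio ξ) x) → E t i s → E t i s' :=
    fun t i s s' h ⟨q, h1, h2, h3⟩ => ⟨q, h1, fun x hx => h2 x (h x hx), h3⟩
  have K : ∀ t i, ∀ s ≤ p, ∃ s' ≤ s, E t i s' ∨
      ∃ m, ∀ k, m ≤ k → ∀ s'' ≤ s', ¬ E (t ++ [k]) i s'' := by
    intro t i s hs
    by_contra hcon
    push Not at hcon
    obtain ⟨s3, h1, -, h2⟩ := cap_of_PD hL hPD ∅ (by simp) s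
      (fun m s'' => ∃ k, m ≤ k ∧ E (t ++ [k]) i s'') fun m s' hs' =>
        let ⟨k, k1, s'', k2, k3⟩ := (hcon s' hs').2 m; ⟨s'', k2, k, k1, k3⟩
    choose d h3 h4 using h2
    choose k h5 q h6 h7 h8 using h3
    have hm : ∀ (t' : List ℕ) (z : ℕ × ℕ),
        Ms (Iio ξ) fun x => t' = t ++ [k z.1 z.2] ∧ (d z.1 z.2).B (Iio ξ) x :=
      fun t' z => (Ms.const _).and ((d z.1 z.2).ms_B hL)
    choose g hg hg' using fun t' => exists_sel' (hm t')
    obtain ⟨q', k1, k2, -, k3⟩ := exists_amalg s3 ξ (t0 := fun _ => t)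
      (len := fun _ => t.length + 1)
      (J := fun x => {t' | ∃ z : ℕ × ℕ, t' = t ++ [k z.1 z.2] ∧ (d z.1 z.2).B (Iio ξ) x})
      (g := g) (fun _ z => q z.1 z.2) (Mf.const _) (Mf.const _) (fun t' => Ms.ex (hm t')) hg
      (by rintro x - _ ⟨z, rfl, -⟩; simp)
      (fun x hx => let ⟨j, hj⟩ := h4 0 x hx; ⟨_, (0, j), rfl, hj⟩)
      (by rintro x - _ ⟨z, rfl, -⟩; exact List.prefix_append _ _)
      (fun x hx t' _ u _ hu hl m => by
        obtain ⟨j, hj⟩ := h4 m x hx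
        obtain rfl : t = u := hu.eq_of_length_le (by omega)
        exact ⟨k m j, h5 m j, _, ⟨(m, j), rfl, hj⟩, List.prefix_refl _⟩)
      (fun x _ t' ht' => by
        obtain ⟨h9, h10⟩ := hg' t' x ht'
        exact ⟨(h7 _ _ x h10).1, (h7 _ _ x h10).2.trans h9.symm⟩)
    have k4 : ∀ x, q'.bd x → ∃ z : ℕ × ℕ, (q z.1 z.2).bd x := fun x hx =>
      ⟨_, (k3 univ isLowerSet_univ trivial x hx).2⟩
    refine (hcon s3 h1).1 ⟨q', fun x hx => ?_, fun x hx => ⟨fun η hη => ?_, (k2 x hx).1⟩,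
      Capt.of_cover (fun z : ℕ × ℕ => h8 z.1 z.2) k4⟩
    · obtain ⟨z, hz⟩ := k4 x hx
      exact h6 _ _ x hz
    · rw [(k1 η hη x).2]
      exact hx η hη
  have K' : ∀ t, ∀ s ≤ p, ∃ s' ≤ s, (∃ i, E t i s') ∨
      ∃ m, ∀ k, m ≤ k → ∀ i, ∀ s'' ≤ s', ¬ E (t ++ [k]) i s'' := by
    intro t s hs
    obtain ⟨s', h1, h2⟩ := dense_finite (D := fun i s' => E t i s' ∨
      ∃ m, ∀ k, m ≤ k → ∀ s'' ≤ s', ¬ E (t ++ [k]) i s'') (fun i s s' h h' => h'.imp
        (Emono _ _ _ _ fun x hx => B_of_le h hL hx)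
        fun ⟨m, hm⟩ => ⟨m, fun k hk s'' hs'' => hm k hk s'' (hs''.trans h)⟩) (K t) s hs
    refine ⟨s', h1, or_iff_not_imp_left.2 fun h3 => ?_⟩
    choose m hm using fun i => (h2 i).resolve_left fun h => h3 ⟨i, h⟩
    obtain ⟨M, hM⟩ := (Set.finite_range m).bddAbove
    exact ⟨M, fun k hk i => hm i k ((hM (mem_range_self i)).trans hk)⟩
  have M : ∀ s ≤ p, ∃ s' ≤ s, ∃ i, ∃ q ≤ p,
      (∀ x, s'.B (Iio ξ) x → q.B (Iio ξ) x ∧ q.st ξ x = p.st ξ x) ∧ Capt univ (D i) q := by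
    intro s hs
    obtain ⟨s1, h1, t0, h2⟩ := hDec (List ℕ) (fun t x => p.st ξ x = t) (p.mst ξ) s
      fun x _ => ⟨_, rfl⟩
    replace h2 : ∀ x, s1.B (Iio ξ) x → p.st ξ x = t0 := fun x hx => of_bd hL (p.mst ξ t0) h2 hx
    by_contra hcon
    have h3 : ∀ s' ≤ s1, ∀ i, ¬ E t0 i s' := fun s' hs' i ⟨q, k1, k2, k3⟩ =>
      hcon ⟨s', hs'.trans h1, i, q, k1, fun x hx =>
        ⟨(k2 x hx).1, (k2 x hx).2.trans (h2 x (B_of_le hs' hL hx)).symm⟩, k3⟩
    obtain ⟨s2, h4, -, h5⟩ := cap_of_PD hL hPD ∅ (by simp) s1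
      (fun u s' => (∃ i, E u i s') ∨ ∃ m, ∀ k, m ≤ k → ∀ i, ∀ s'' ≤ s', ¬ E (u ++ [k]) i s'')
      fun u s' hs' => K' u s' (hs'.trans (h1.trans hs))
    choose d h6 h7 using h5
    have hm : ∀ u k j, Ms (Iio ξ) fun x => (d u j).B (Iio ξ) x ∧
        ((∃ i, E u i (d u j)) ∨ ∀ i, ∀ s'' ≤ d u j, ¬ E (u ++ [k]) i s'') :=
      fun u k j => ((d u j).ms_B hL).and (Ms.const _)
    obtain ⟨q0, k1, k2, k3, -⟩ := exists_thin (cut (Iio ξ) s2 p) ξ
      (fun u k => Ms.ex (hm u k)) fun x hx u hu hu' m => by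
        obtain ⟨j, hj⟩ := h7 u x ((cut_B Subset.rfl).1 hx)
        rcases h6 u j with h | ⟨m', h⟩
        · obtain ⟨k, k1, k2⟩ := (Cond.lav _ ξ x).inf u hu hu' m
          exact ⟨k, k1, k2, j, hj, Or.inl h⟩
        · obtain ⟨k, k1, k2⟩ := (Cond.lav _ ξ x).inf u hu hu' (max m m')
          exact ⟨k, (le_max_left _ _).trans k1, k2, j, hj,
            Or.inr (h k ((le_max_right _ _).trans k1))⟩
    have k4 : q0 ≤ p := k1.trans (cut_le' hL (h4.trans (h1.trans hs)))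
    have C : ∀ u, t0 <+: u → ∀ r : Cond ι,
        (∀ x, r.B (Iio ξ) x → s2.B (Iio ξ) x ∧ u ∈ q0.tr ξ x) → ∀ i, ¬ E u i r := by
      have base : ∀ r : Cond ι, (∀ x, r.B (Iio ξ) x → s2.B (Iio ξ) x) → ∀ i, ¬ E t0 i r :=
        fun r hr i h => h3 (cut (Iio ξ) r s1) (cut_le fun x hx => B_of_le h4 hL (hr x hx)) i
          (Emono _ _ _ _ (fun x hx => (cut_B Subset.rfl).1 hx) h)
      intro u
      induction u using List.reverseRecOn with
      | nil =>
        intro hu r hr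
        rw [← List.prefix_nil.1 hu]
        exact base r fun x hx => (hr x hx).1
      | append_singleton v k ih =>
        intro hu r hr i hE
        rcases pre_concat hu with h | h
        · rw [← h] at hE
          exact base r (fun x hx => (hr x hx).1) i hE
        · have k5 : ∀ x, r.B (Iio ξ) x → _ := fun x hx =>
            k3 x ((cut_B Subset.rfl).2 (hr x hx).1) v k (hr x hx).2 (by
              rw [cut_st_neg (L := Iio ξ) (lt_irrefl ξ), h2 x (B_of_le h4 hL (hr x hx).1)]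
              exact h)
          obtain ⟨r', k6, j, k7⟩ := hDec ℕ _ (hm v k) r fun x hx => (k5 x (hx.B _)).2
          replace k7 := fun x (hx : r'.B (Iio ξ) x) => of_bd hL (hm v k j) k7 hx
          obtain ⟨x0, hx0⟩ := r'.bd_nonempty
          rcases (k7 x0 (hx0.B _)).2 with ⟨i', h'⟩ | h'
          · exact ih h r' (fun x hx => ⟨(hr x (B_of_le k6 hL hx)).1,
              (k5 x (B_of_le k6 hL hx)).1⟩) i' (Emono _ _ _ _ (fun x hx => (k7 x hx).1) h')
          · exact h' i (cut (Iio ξ) r' (d v j)) (cut_le fun x hx => (k7 x hx).1)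
              (Emono _ _ _ _ (fun x hx => B_of_le k6 hL ((cut_B Subset.rfl).1 hx)) hE)
    obtain ⟨r, k5, i, k6⟩ := hD q0 k4
    obtain ⟨r', k7, u, k8⟩ := hDec (List ℕ) (fun t x => r.st ξ x = t) (r.mst ξ) r
      fun x _ => ⟨_, rfl⟩
    replace k8 : ∀ x, r'.B (Iio ξ) x → r.st ξ x = u := fun x hx => of_bd hL (r.mst ξ u) k8 hx
    have k9 : ∀ x, r'.B (Iio ξ) x → s2.B (Iio ξ) x := fun x hx =>
      (cut_B Subset.rfl).1 ((k2 x).1 (B_of_le (k7.trans k5) hL hx))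
    obtain ⟨x0, hx0⟩ := r'.bd_nonempty
    refine C u ?_ r' (fun x hx => ⟨k9 x hx, ?_⟩) i ⟨r, k5.trans k4, fun x hx =>
      ⟨B_of_le k7 hL hx, k8 x hx⟩, Capt.of_mem k6⟩
    · rw [← k8 x0 (hx0.B _), ← h2 x0 (B_of_le h4 hL (k9 x0 (hx0.B _)))]
      exact (p.lav ξ x0).stem_pre_of_sub (r.lav ξ x0)
        (tr_sub_of_le (k5.trans k4) ((k7 x0 hx0).B _))
    · rw [← k8 x hx]
      exact tr_sub_of_le k5 (B_of_le k7 hL hx) (r.lav ξ x).stem
  obtain ⟨s, h1, h2, i, h3⟩ := hPD F hF κ p _ M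
  obtain ⟨d, h4, h5⟩ := h3.lower hL
  choose q h6 h7 h8 using h4
  obtain ⟨g, hg, hg'⟩ := exists_sel fun j => (d j).ms_B hL
  obtain ⟨q', k1, k2, -, k3⟩ := exists_amalg s ξ (t0 := p.st ξ)
    (len := fun x => (p.st ξ x).length) (J := fun x => {p.st ξ x})
    (g := fun _ => g) (fun _ j => q j) (p.mst ξ) ((p.mst ξ).comp List.length)
    (fun t => (p.mst ξ).pred (t = ·)) (fun _ => hg)
    (by rintro x - _ rfl; rfl) (fun x _ => singleton_nonempty _)
    (by rintro x - _ rfl; exact List.prefix_refl _)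
    (fun x _ t _ u _ hu hl => absurd hu.length_le (by omega))
    (by rintro x hx _ rfl; exact h7 _ x (hg' x (h5 x hx)))
  have k4 : ∀ x, q'.bd x → ∃ j, (q j).bd x := fun x hx =>
    ⟨_, (k3 univ isLowerSet_univ trivial x hx).2⟩
  have k5 : ∀ η, η ≤ ξ → ∀ x, q'.B (Iio η) x → s.B (Iio η) x := fun η hη x hx ζ hζ => by
    rw [← (k1 ζ (lt_of_lt_of_le hζ hη) x).2]
    exact hx ζ hζ
  refine ⟨q', fun x hx => ?_, fun η hη x hx => ?_, i, Capt.of_cover h8 k4⟩
  · obtain ⟨j, hj⟩ := k4 x hx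
    exact h6 j x hj
  · rcases Finset.mem_insert.1 hη with rfl | h
    · exact (k2 x (k5 η le_rfl x hx)).1
    · rw [(k1 η (hF h) x).1]
      exact h2 η h x (k5 η (le_of_lt (hF h)) x hx)

theorem PD_and_Dec_of {L : Set ι} (hL : IsLowerSet L)
    (h : ∀ η ∈ L, (∀ F : Finset ι, ↑F ⊆ Iio η → PD F) ∧ Dec (Iio η)) :
    (∀ F : Finset ι, ↑F ⊆ L → PD F) ∧ Dec L := by
  classical
  have h1 : ∀ F : Finset ι, ↑F ⊆ L → PD F := by
    intro F hF
    rcases F.eq_empty_or_nonempty with rfl | hne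
    · intro κ _ p D hD
      obtain ⟨q, k1, i, k2⟩ := hD p le_rfl
      exact ⟨q, k1, fun _ h => by simp at h, i, Capt.of_mem k2⟩
    · have k1 := F.max'_mem hne
      rw [← Finset.insert_erase k1]
      exact PD_insert (h _ (hF k1)).1 (h _ (hF k1)).2 _ fun η hη =>
        F.lt_max'_of_mem_erase_max' hne hη
  exact ⟨h1, Dec_of_PD hL h1 fun η hη => (h η hη).2⟩

theorem PD_and_Dec {L : Set ι} (hL : IsLowerSet L) : (∀ F : Finset ι, ↑F ⊆ L → PD F) ∧ Dec L := by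
  refine PD_and_Dec_of hL fun η _ => ?_
  induction η using WellFoundedLT.induction with
  | ind η ih => exact PD_and_Dec_of (isLowerSet_Iio η) fun ζ hζ => ih ζ hζ (hL (le_of_lt hζ) ‹_›)

theorem pd (F : Finset ι) : PD F := (PD_and_Dec isLowerSet_univ).1 F (subset_univ _)

theorem cap {L : Set ι} (hL : IsLowerSet L) (F0 : Finset ι) (hF0 : ↑F0 ⊆ L) {I : Type}
    [Countable I] (p : Cond ι) (D : I → Cond ι → Prop) (hD : ∀ i, ∀ r ≤ p, ∃ r' ≤ r, D i r') :
    ∃ q ≤ p, Pure F0 q p ∧ ∀ i, Capt L (D i) q :=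
  cap_of_PD hL (fun F _ => pd F) F0 hF0 p D hD

theorem dec {I : Type} [Countable I] {A : I → Om ι → Prop} (hA : ∀ i, Ms univ (A i))
    (r : Cond ι) (h : ∀ x, r.bd x → ∃ i, A i x) : ∃ r' ≤ r, ∃ i, ∀ x, r'.bd x → A i x :=
  (PD_and_Dec isLowerSet_univ).2 I A hA r h

theorem dec2 {A : Om ι → Prop} (hA : Ms univ A) (r : Cond ι) :
    ∃ r' ≤ r, (∀ x, r'.bd x → A x) ∨ ∀ x, r'.bd x → ¬ A x := by
  obtain ⟨r', h1, b, h2⟩ := dec (I := Bool) (A := fun b x => A x ↔ b = true)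
    (fun b => hA.iff (Ms.const _)) r fun x _ => by
      by_cases h : A x
      · exact ⟨true, by simp [h]⟩
      · exact ⟨false, by simp [h]⟩
  refine ⟨r', h1, ?_⟩
  cases b
  · exact Or.inr fun x hx => by simpa using h2 x hx
  · exact Or.inl fun x hx => by simpa using h2 x hx

/-- a Borel set met densely often is entered -/
theorem exists_all {I : Type} [Countable I] {A : I → Om ι → Prop} (hA : ∀ i, Ms univ (A i))
    (r : Cond ι) (h : ∀ i, ∀ s ≤ r, ¬ ∀ x, s.bd x → ¬ A i x) :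
    ∃ r' ≤ r, ∀ x, r'.bd x → ∀ i, A i x := by
  obtain ⟨r', h1, h2 | h2⟩ := dec2 (Ms.all hA) r
  · exact ⟨r', h1, h2⟩
  · obtain ⟨s, h3, i, h4⟩ := dec (fun i => (hA i).not) r' fun x hx => not_forall.1 (h2 x hx)
    exact absurd h4 (h i s (h3.trans h1))

end Cond

end Pool.Agent.MP_5f86f1_lc

end MrgPart1

-- ======== part 2: formerly Pool.Agent.MP_5f86f1_lc.Slalom
section MrgPart2

/-! The Laver property of the tail of the iteration, and limit points. -/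

open Set

namespace Pool.Agent.MP_5f86f1_lc

theorem IsLav.exists_level {s : List ℕ} {T : Set (List ℕ)} (h : IsLav s T) {u : List ℕ}
    (hu : u ∈ T) {j : ℕ} (hj : u.length ≤ j) : ∃ t ∈ T, t.length = j ∧ u <+: t := by
  obtain ⟨y, hy, he⟩ := h.exists_br hu
  exact ⟨seg y j, hy j, by simp, he ▸ seg_pre y hj⟩

namespace Cond

variable {ι : Type} [LinearOrder ι]

theorem exists_thru {s r : Cond ι} {α : ι} {t : List ℕ}
    (h : ∀ x, s.B (Iio α) x → r.B (Iio α) x ∧ t ∈ r.tr α x ∧ r.st α x <+: t) :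
    ∃ r1 ≤ r, (∀ x, r1.B (Iio α) x → s.B (Iio α) x) ∧ (∀ x, s.B (Iio α) x → r1.st α x = t) ∧
      ∀ ξ, α < ξ → ∀ x, r1.st ξ x = r.st ξ x := by
  have hm : Ms (Iio α) fun x => t ∈ r.tr α x ∧ r.st α x <+: t :=
    (r.mtr α t).and ((r.mst α).pred (· <+: t))
  let r2 := setAt (cut (Iio α) s r) α _ (fun _ => t) (fun x => thru (r.tr α x) t) hm
    (Mf.const _) (fun v => (r.mtr α v).and (Ms.const _)) fun x hx => (r.lav α x).thru hx.1 hx.2
  have h3 : r2 ≤ cut (Iio α) s r := le_of_tr_sub fun ξ x _ => by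
    by_cases hξ : ξ = α
    · subst hξ
      by_cases hx : t ∈ r.tr ξ x ∧ r.st ξ x <+: t
      · rw [setAt_tr_pos hx, cut_tr_neg (L := Iio ξ) (lt_irrefl ξ)]
        exact thru_sub _ _
      · rw [setAt_tr_neg hx]
    · rw [setAt_tr_ne hξ]
  refine ⟨r2, h3.trans (cut_le fun x hx => (h x hx).1), fun x hx => ?_,
    fun x hx => setAt_st_pos (h x hx).2, fun ξ hξ x => ?_⟩
  · exact (cut_B Subset.rfl).1 ((setAt_B (L := Iio α) (lt_irrefl α)).1 hx)
  · rw [setAt_st_ne hξ.ne', cut_st_neg (L := Iio α) (not_lt.2 hξ.le)]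

variable [WellFoundedLT ι]

theorem slalom_step {α : ι} {s0 : List ℕ} {w : Om ι → ℕ → Bool}
    (hw : ∀ b, Mf univ fun x => w x b) {j : ℕ} (hj : s0.length ≤ j) (F : Finset ι) (hF : α ∉ F)
    (r : Cond ι) (hr : ∀ x, r.B (Iio α) x → r.st α x = s0) :
    ∃ r' ≤ r, Pure F r' r ∧ Pure {α} r' r ∧ LP {α} (j + 1) r' r ∧
      ∃ c : List ℕ → Om ι → ℕ → Bool, (∀ t b, Mf (Iio α) fun x => c t x b) ∧
        ∀ x, r'.bd x → ∀ b < x α j, w x b = c (seg (x α) (j + 1)) x b := by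
  classical
  have hL := isLowerSet_Iio α
  obtain ⟨s, h1, h2, h3⟩ := cap hL (F.filter (· < α)) (fun ξ hξ => (Finset.mem_filter.1 hξ).2) r
    (fun (t : List ℕ) s => ∃ (rt : Cond ι) (c : ℕ → Bool), ∀ x, s.B (Iio α) x →
      t ∈ r.tr α x → t.length = j + 1 → rt.B (Iio α) x ∧ rt.st α x = t ∧ rt ≤ r ∧
        (∀ ξ ∈ F, α < ξ → ∀ x, rt.B (Iio ξ) x → rt.st ξ x = r.st ξ x) ∧
        ∀ x, rt.bd x → ∀ b < t.getD j 0, w x b = c b) fun t s hs => by
      by_cases ht : t.length = j + 1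
      swap
      · exact ⟨s, le_rfl, r, fun _ => false, fun _ _ _ h => absurd h ht⟩
      obtain ⟨s', k1, k2 | k2⟩ := dec2 ((r.mtr α t).mono (subset_univ _)) s
      swap
      · exact ⟨s', k1, r, fun _ => false, fun x hx h =>
          absurd h (of_bd hL (r.mtr α t).not k2 hx)⟩
      obtain ⟨r1, k3, k4, k5, k6⟩ := exists_thru (s := s') (r := r) (α := α) (t := t)
        fun x hx => by
          have k3 := B_of_le (k1.trans hs) hL hx
          have k4 := of_bd hL (r.mtr α t) k2 hx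
          exact ⟨k3, k4, (r.lav α x).stem_pre k4 (by rw [hr x k3]; omega)⟩
      obtain ⟨rt, k7, k8, c, d, k9, k10⟩ := pd (insert α F) (Fin (t.getD j 0) → Bool) r1
        (fun c r'' => ∀ x, r''.bd x → ∀ b : Fin (t.getD j 0), w x b = c b) fun r'' _ =>
          dec (I := Fin (t.getD j 0) → Bool) (A := fun c x => ∀ b : Fin (t.getD j 0), w x b = c b)
            (fun c => Ms.all fun b => hw b (c b)) r'' fun x _ => ⟨fun b => w x b, fun _ => rfl⟩
      refine ⟨cut (Iio α) rt s', (cut_le fun x hx => k4 x (B_of_le k7 hL hx)).trans k1, rt,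
        fun b => if h : b < t.getD j 0 then c ⟨b, h⟩ else false, fun x hx _ _ => ?_⟩
      have k11 := (cut_B Subset.rfl).1 hx
      refine ⟨k11, ?_, k7.trans k3, fun ξ hξ hξ' y hy => ?_, fun y hy b hb => ?_⟩
      · rw [k8 α (by simp) x k11, k5 x (k4 x (B_of_le k7 hL k11))]
      · rw [k8 ξ (by simp [hξ]) y hy, k6 ξ hξ']
      · obtain ⟨i, hi⟩ := k10 y hy
        simp only [dif_pos hb]
        exact k9 i y hi ⟨b, hb⟩
  choose d h4 h5 using h3
  choose R c h6 using h4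
  choose g hg hg' using fun t => exists_sel fun i => (d t i).ms_B hL
  have h7 : ∀ x, s.B (Iio α) x → IsLav s0 (r.tr α x) := fun x hx => by
    rw [← hr x (B_of_le h1 hL hx)]
    exact r.lav α x
  have h8 := fun x (hx : s.B (Iio α) x) t => h6 t (g t x) x (hg' t x (h5 t x hx))
  obtain ⟨q, k1, k2, k3, k4⟩ := exists_amalg s α (t0 := fun _ => s0) (len := fun _ => j + 1)
    (J := fun x => {t | t ∈ r.tr α x ∧ t.length = j + 1}) (g := g) R (Mf.const _) (Mf.const _)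
    (fun t => (r.mtr α t).and (Ms.const _)) hg (fun _ _ _ h => h.2)
    (fun x hx => by
      obtain ⟨t, h, h', -⟩ := (h7 x hx).exists_level (h7 x hx).stem (hj.trans (Nat.le_succ j))
      exact ⟨t, h, h'⟩)
    (fun x hx t ht => (h7 x hx).stem_pre ht.1 (by rw [ht.2]; omega))
    (fun x hx t ht u hu hu' hl m => by
      obtain ⟨k, k1, k2⟩ := (h7 x hx).inf u ((h7 x hx).down t ht.1 u hu) hu' m
      obtain ⟨t', k3, k4, k5⟩ := (h7 x hx).exists_level k2 (j := j + 1) (by simp; omega)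
      exact ⟨k, k1, t', ⟨k3, k4⟩, k5⟩)
    fun x hx t ht => ⟨(h8 x hx t ht.1 ht.2).1, (h8 x hx t ht.1 ht.2).2.1⟩
  have k5 : ∀ η, η ≤ α → ∀ x, q.B (Iio η) x → s.B (Iio η) x := fun η hη x hx ζ hζ => by
    rw [← (k1 ζ (lt_of_lt_of_le hζ hη) x).2]
    exact hx ζ hζ
  refine ⟨q, fun x hx => ?_, fun ξ hξ x hx => ?_, ?_, ?_, fun t x b => c t (g t x) b,
    fun t b => (hg t).comp fun i => c t i b, fun x hx b hb => ?_⟩
  · obtain ⟨k6, k7⟩ := k4 univ isLowerSet_univ trivial x hx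
    exact (h8 x (k5 α le_rfl x (hx.B _)) _ k6.1 k6.2).2.2.1 x k7
  · rcases lt_trichotomy ξ α with h | rfl | h
    · rw [(k1 ξ h x).1]
      exact h2 ξ (by simpa using ⟨hξ, h⟩) x (k5 ξ h.le x hx)
    · exact absurd hξ hF
    · obtain ⟨k6, k7⟩ := k4 (Iio ξ) (isLowerSet_Iio ξ) h x hx
      rw [k3 ξ h x]
      exact (h8 x (k5 α le_rfl x (hx.mono (Iio_subset_Iio h.le))) _ k6.1 k6.2).2.2.2.1
        ξ hξ h x k7
  · rintro _ rfl x hx
    have k6 := k5 _ le_rfl x hx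
    rw [(k2 x k6).1, hr x (B_of_le h1 hL k6)]
  · rintro _ rfl x hx u hu hl
    have k6 := k5 _ le_rfl x hx
    obtain ⟨t, k7, k8, k9⟩ := (h7 x k6).exists_level hu hl
    exact (q.lav _ x).down t ((k2 x k6).2 t ⟨k7, k8⟩) u k9
  · obtain ⟨k6, k7⟩ := k4 univ isLowerSet_univ trivial x hx
    refine (h8 x (k5 α le_rfl x (hx.B _)) _ k6.1 k6.2).2.2.2.2 x k7 b ?_
    rwa [seg_getD _ (Nat.lt_succ_self j)]

theorem slalom {α : ι} {s0 : List ℕ} {w : Om ι → ℕ → Bool}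
    (hw : ∀ b, Mf univ fun x => w x b) (q : Cond ι) (hq : ∀ x, q.B (Iio α) x → q.st α x = s0) :
    ∃ q1 ≤ q, (∀ x, q1.B (Iio α) x → q1.st α x = s0) ∧ ∃ (N : ℕ → ℕ)
      (c : List ℕ → ℕ → Om ι → ℕ → Bool), (∀ t i b, Mf (Iio α) fun x => c t i x b) ∧
        ∀ x, q1.bd x → ∀ j, s0.length ≤ j → ∃ i < N j, ∀ b < x α j,
          w x b = c (seg (x α) (j + 1)) i x b := by
  classical
  have hL := isLowerSet_Iio α
  obtain ⟨q1, h1, -, h2, h3⟩ := fusion (p := q) (Z := {α})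
    (Q := fun n r => ∃ c : List ℕ → Om ι → ℕ → Bool, (∀ t b, Mf (Iio α) fun x => c t x b) ∧
        ∀ x, r.bd x → ∀ b < x α (s0.length + n), w x b = c (seg (x α) (s0.length + n + 1)) x b)
    (fun n r r' h ⟨c, h1, h2⟩ => ⟨c, h1, fun x hx => h2 x (h x hx)⟩) (fun n F r hF hr hr' => by
      obtain ⟨r', k1, k2, k3, k4, k5⟩ := slalom_step hw (Nat.le_add_right s0.length n) F
        (fun h => hF α h rfl) r fun x hx => (hr' α rfl x hx).trans (hq x (B_of_le hr hL hx))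
      exact ⟨r', k1, k2, k3, fun ξ hξ x hx u hu hl => k4 ξ hξ x hx u hu (by omega), k5⟩)
    ∅ (by simp)
  choose R k1 k2 k3 using h3
  choose N f _ hf using fun n => (k1 n).fin_param
  choose c k4 k5 using fun n (i : Fin (N n)) => k2 n (f n i) (hf n ▸ mem_range_self i)
  refine ⟨q1, h1, fun x hx => (h2 α rfl x hx).trans (hq x (B_of_le h1 hL hx)),
    fun j => N (j - s0.length), fun t i x b =>
      if h : i < N (t.length - 1 - s0.length) then c _ ⟨i, h⟩ t x b else false,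
    fun t i b => ?_, fun x hx j hj => ?_⟩
  · by_cases h : i < N (t.length - 1 - s0.length)
    · simpa only [dif_pos h] using k4 _ ⟨i, h⟩ t b
    · simpa only [dif_neg h] using Mf.const (a := Iio α) false
  · obtain ⟨n, rfl⟩ := Nat.exists_eq_add_of_le hj
    obtain ⟨r, hr, hx'⟩ := k3 n x hx
    rw [← hf n] at hr
    obtain ⟨i, rfl⟩ := hr
    have e1 : s0.length + n - s0.length = n := by omega
    refine ⟨i, by simp only [e1]; exact i.2, fun b hb => ?_⟩
    have e2 : (seg (x α) (s0.length + n + 1)).length - 1 - s0.length = n := by simp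
    have key : ∀ m (_ : m = n), (if h : (i : ℕ) < N m then
        c m ⟨i, h⟩ (seg (x α) (s0.length + n + 1)) x b else false) =
        c n i (seg (x α) (s0.length + n + 1)) x b := by
      rintro _ rfl
      rw [dif_pos i.2]
    rw [k5 n i x hx' b hb]
    exact (key _ e2).symm

end Cond

variable {ι : Type}

/-- Borel choice of a limit point -/
theorem exists_limit {a : Set ι} {A : Om ι → ℕ → Prop} {v : ℕ → Om ι → ℕ → Bool}
    (hA : ∀ k, Ms a fun x => A x k) (hv : ∀ k b, Mf a fun x => v k x b) :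
    ∃ U : Om ι → ℕ → Bool, (∀ b, Mf a fun x => U x b) ∧
      ∀ x, (∀ m, ∃ k, m ≤ k ∧ A x k) → ∀ M m, ∃ k, m ≤ k ∧ A x k ∧ ∀ b < M, v k x b = U x b := by
  classical
  let P : Om ι → List Bool → Prop := fun x l =>
    ∀ m, ∃ k, m ≤ k ∧ A x k ∧ ∀ b < l.length, v k x b = l.getD b false
  have hP : ∀ l, Ms a fun x => P x l := fun l => Ms.all fun m => Ms.ex fun k =>
    (Ms.const _).and ((hA k).and (Ms.all fun b => Ms.imp' fun _ => hv k b _))
  let pre : ℕ → Om ι → List Bool := fun n => Nat.rec (fun _ => [])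
    (fun _ l x => if P x (l x ++ [true]) then l x ++ [true] else l x ++ [false]) n
  have h1 : ∀ n x, pre (n + 1) x =
      if P x (pre n x ++ [true]) then pre n x ++ [true] else pre n x ++ [false] := fun _ _ => rfl
  have h2 : ∀ n, Mf a (pre n) := by
    intro n
    induction n with
    | zero => exact Mf.const _
    | succ n ih =>
      exact Mf.ite (ih.subst (P := fun l x => P x (l ++ [true])) fun l => hP _)
        (ih.comp (· ++ [true])) (ih.comp (· ++ [false]))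
  have h3 : ∀ n x, ∃ e, pre (n + 1) x = pre n x ++ [e] := fun n x => by
    rw [h1]
    split_ifs
    · exact ⟨_, rfl⟩
    · exact ⟨_, rfl⟩
  have h4 : ∀ n x, (pre n x).length = n := by
    intro n x
    induction n with
    | zero => rfl
    | succ n ih => obtain ⟨e, he⟩ := h3 n x; rw [he]; simp [ih]
  have h5 : ∀ x n b, b < n → (pre n x).getD b false = (pre (b + 1) x).getD b false := by
    intro x n b hb
    induction hb with
    | refl => rfl
    | @step n hb ih =>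
      obtain ⟨e, he⟩ := h3 n x
      rw [he, List.getD_append _ _ _ _ (by rw [h4]; exact hb), ih]
  refine ⟨fun x b => (pre (b + 1) x).getD b false, fun b => (h2 (b + 1)).comp (·.getD b false),
    fun x hx M => ?_⟩
  have h6 : P x (pre M x) := by
    induction M with
    | zero => exact fun m => let ⟨k, k1, k2⟩ := hx m; ⟨k, k1, k2, fun b hb => absurd hb (by
        rw [h4]; omega)⟩
    | succ M ih =>
      rw [h1]
      split_ifs with h
      · exact h
      · simp only [P, not_forall, not_exists, not_and] at h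
        obtain ⟨m0, hm0⟩ := h
        intro m
        obtain ⟨k, k1, k2, k3⟩ := ih (max m m0)
        refine ⟨k, (le_max_left _ _).trans k1, k2, fun b hb => ?_⟩
        simp only [List.length_append, List.length_singleton] at hb
        rcases Nat.lt_succ_iff_lt_or_eq.1 hb with hb | rfl
        · rw [List.getD_append _ _ _ _ hb, k3 b hb]
        · obtain ⟨b', hb', k4⟩ := hm0 k ((le_max_right _ _).trans k1) k2
          simp only [List.length_append, List.length_singleton] at hb'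
          rcases Nat.lt_succ_iff_lt_or_eq.1 hb' with hb' | rfl
          · rw [List.getD_append _ _ _ _ hb', k3 b' hb'] at k4
            exact absurd rfl k4
          · simpa using k4
  intro m
  obtain ⟨k, k1, k2, k3⟩ := h6 m
  exact ⟨k, k1, k2, fun b hb => by rw [k3 b (by rwa [h4]), h5 x M b hb]⟩

end Pool.Agent.MP_5f86f1_lc

end MrgPart2

-- ======== part 3: formerly Pool.Agent.MP_5f86f1_lc.Cuts
section MrgPart3

/-! Dedekind cuts coded as sets of natural numbers; reflection. -/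

open Set Cardinal

namespace Pool.Agent.MP_5f86f1_lc

/-- the order of the rationals transported to `ℕ` -/
def ql (a b : ℕ) : Prop := Denumerable.ofNat ℚ a < Denumerable.ofNat ℚ b

theorem exists_ofNat (q : ℚ) : ∃ a, Denumerable.ofNat ℚ a = q :=
  ⟨_, Denumerable.ofNat_encode q⟩

theorem ql_irrefl (a : ℕ) : ¬ ql a a := lt_irrefl _
theorem ql_trans {a b c : ℕ} (h : ql a b) (h' : ql b c) : ql a c := lt_trans h h'
theorem ql_tri (a b : ℕ) : ql a b ∨ a = b ∨ ql b a := by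
  rcases lt_trichotomy (Denumerable.ofNat ℚ a) (Denumerable.ofNat ℚ b) with h | h | h
  · exact Or.inl h
  · refine Or.inr (Or.inl ?_)
    rw [← Denumerable.encode_ofNat (α := ℚ) a, h, Denumerable.encode_ofNat]
  · exact Or.inr (Or.inr h)
theorem ql_dense {a b : ℕ} (h : ql a b) : ∃ c, ql a c ∧ ql c b := by
  obtain ⟨q, h1, h2⟩ := exists_between h
  obtain ⟨c, rfl⟩ := exists_ofNat q
  exact ⟨c, h1, h2⟩
theorem ql_up (a : ℕ) : ∃ b, ql a b := by
  obtain ⟨q, h1⟩ := exists_gt (Denumerable.ofNat ℚ a)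
  obtain ⟨c, rfl⟩ := exists_ofNat q
  exact ⟨c, h1⟩
theorem ql_down (a : ℕ) : ∃ b, ql b a := by
  obtain ⟨q, h1⟩ := exists_lt (Denumerable.ofNat ℚ a)
  obtain ⟨c, rfl⟩ := exists_ofNat q
  exact ⟨c, h1⟩

def lower (z : ℕ → Prop) : Prop := ∀ a b, ql a b → z b → z a

def isReal (z : ℕ → Prop) : Prop :=
  (∃ a, z a) ∧ (∃ a, ¬ z a) ∧ lower z ∧ ∀ a, z a → ∃ b, ql a b ∧ z b

def ivl (a b : ℕ) (z : ℕ → Prop) : Prop := z a ∧ ∃ c, ql c b ∧ ¬ z c

def bas (k : ℕ) (z : ℕ → Prop) : Prop := ivl k.unpair.1 k.unpair.2 z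

def box (k : ℕ) (z z' : ℕ → Prop) : Prop := bas k.unpair.1 z ∧ bas k.unpair.2 z'

def clo (k : ℕ) (z : ℕ → Prop) : Prop := z k.unpair.1 ∧ ¬ z k.unpair.2

def nrm (u : ℕ → Prop) (a : ℕ) : Prop := ∃ b, ql a b ∧ u b

def near (k : ℕ) (u : ℕ → Prop) (M : ℕ) : Prop :=
  k.unpair.1 < M ∧ u k.unpair.1 ∧ ∃ c < M, ql c k.unpair.2 ∧ ¬ u c

def notlow (u : ℕ → Prop) (M : ℕ) : Prop := ∃ a < M, ∃ b < M, ql a b ∧ u b ∧ ¬ u a

theorem clo_of_bas {k : ℕ} {z : ℕ → Prop} (hz : lower z) (h : bas k z) : clo k z :=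
  ⟨h.1, fun h' => let ⟨_, h1, h2⟩ := h.2; h2 (hz _ _ h1 h')⟩

theorem clo_congr {k M : ℕ} {z u : ℕ → Prop} (hk : k < M) (h : ∀ b < M, z b ↔ u b)
    (h' : clo k z) : clo k u :=
  ⟨(h _ ((Nat.unpair_left_le k).trans_lt hk)).1 h'.1,
    fun h'' => h'.2 ((h _ ((Nat.unpair_right_le k).trans_lt hk)).2 h'')⟩

theorem near.mono {k M M' : ℕ} {u : ℕ → Prop} (h : near k u M) (hM : M ≤ M') : near k u M' :=
  ⟨h.1.trans_le hM, h.2.1, let ⟨c, h1, h2⟩ := h.2.2; ⟨c, h1.trans_le hM, h2⟩⟩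

theorem notlow.mono {M M' : ℕ} {u : ℕ → Prop} (h : notlow u M) (hM : M ≤ M') : notlow u M' :=
  let ⟨a, h1, b, h2, h3⟩ := h; ⟨a, h1.trans_le hM, b, h2.trans_le hM, h3⟩

theorem near.bas {k M : ℕ} {z u : ℕ → Prop} (h : near k u M) (h' : ∀ b < M, z b ↔ u b) :
    bas k z :=
  ⟨(h' _ h.1).2 h.2.1, let ⟨c, h1, h2, h3⟩ := h.2.2; ⟨c, h2, fun h4 => h3 ((h' c h1).1 h4)⟩⟩

theorem notlow.not_lower {M : ℕ} {z u : ℕ → Prop} (h : notlow u M) (h' : ∀ b < M, z b ↔ u b) :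
    ¬ lower z := fun hz =>
  let ⟨a, h1, b, h2, h3, h4, h5⟩ := h; h5 ((h' a h1).1 (hz a b h3 ((h' b h2).2 h4)))

theorem exists_notlow {u : ℕ → Prop} (h : ¬ lower u) : ∃ M, notlow u M := by
  simp only [lower, not_forall] at h
  obtain ⟨a, b, h1, h2, h3⟩ := h
  exact ⟨max a b + 1, a, by omega, b, by omega, h1, h2, h3⟩

theorem exists_near {k : ℕ} {u : ℕ → Prop} (hu : lower u) (h : bas k (nrm u)) :
    ∃ M, near k u M := by
  obtain ⟨⟨b, h1, h2⟩, c, h3, h4⟩ := h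
  obtain ⟨e, h5, h6⟩ := ql_dense h3
  exact ⟨max k.unpair.1 e + 1, by omega, hu _ _ h1 h2, e, by omega, h6, fun h => h4 ⟨e, h5, h⟩⟩

theorem exists_sep {I : Type} {S : Set I} (hS : S.Finite) {u : I → ℕ → Prop} {z : ℕ → Prop}
    (hz : isReal z) (hu : ∀ i ∈ S, lower (u i) ∧ ¬ ∀ b, nrm (u i) b ↔ z b) :
    ∃ k, bas k z ∧ ∀ i ∈ S, ¬ clo k (u i) := by
  have key : ∃ a b, ivl a b z ∧ ∀ i ∈ S, ¬ u i a ∨ u i b := by
    induction S, hS using Set.Finite.induction_on with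
    | empty =>
      obtain ⟨a, ha⟩ := hz.1
      obtain ⟨c, hc⟩ := hz.2.1
      obtain ⟨b, hb⟩ := ql_up c
      exact ⟨a, b, ⟨ha, c, hb, hc⟩, fun _ h => h.elim⟩
    | @insert i S _ _ ih =>
      obtain ⟨a, b, ⟨h1, c, h2, h3⟩, h4⟩ := ih fun j hj => hu j (Or.inr hj)
      obtain ⟨h5, h6⟩ := hu i (Or.inl rfl)
      obtain ⟨e, he⟩ := not_forall.1 h6
      by_cases h7 : z e
      · obtain ⟨a', h8, h9⟩ := hz.2.2.2 e h7
        have h10 : ¬ u i a' := fun h => he ⟨fun _ => h7, fun _ => ⟨a', h8, h⟩⟩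
        rcases ql_tri a a' with h | rfl | h
        · refine ⟨a', b, ⟨h9, c, h2, h3⟩, ?_⟩
          rintro j (rfl | hj)
          · exact Or.inl h10
          · exact (h4 j hj).imp_left fun h' h'' => h' ((hu j (Or.inr hj)).1 _ _ h h'')
        · refine ⟨a, b, ⟨h9, c, h2, h3⟩, ?_⟩
          rintro j (rfl | hj)
          · exact Or.inl h10
          · exact h4 j hj
        · refine ⟨a, b, ⟨h1, c, h2, h3⟩, ?_⟩
          rintro j (rfl | hj)
          · exact Or.inl fun h' => h10 (h5 _ _ h h')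
          · exact h4 j hj
      · obtain ⟨b', h8, h9⟩ : nrm (u i) e := by
          by_contra h
          exact he ⟨fun h' => absurd h' h, fun h' => absurd h' h7⟩
        rcases ql_tri b b' with h | rfl | h
        · refine ⟨a, b, ⟨h1, c, h2, h3⟩, ?_⟩
          rintro j (rfl | hj)
          · exact Or.inr (h5 _ _ h h9)
          · exact h4 j hj
        · refine ⟨a, b, ⟨h1, c, h2, h3⟩, ?_⟩
          rintro j (rfl | hj)
          · exact Or.inr h9
          · exact h4 j hj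
        · refine ⟨a, b', ⟨h1, e, h8, h7⟩, ?_⟩
          rintro j (rfl | hj)
          · exact Or.inr h9
          · exact (h4 j hj).imp_right fun h' => (hu j (Or.inr hj)).1 _ _ h h'
  obtain ⟨a, b, h1, h2⟩ := key
  refine ⟨Nat.pair a b, by simpa only [bas, Nat.unpair_pair] using h1, fun i hi h => ?_⟩
  simp only [clo, Nat.unpair_pair] at h
  exact (h2 i hi).elim (fun h' => h' h.1) h.2

variable {ι : Type}

/-- Borel maps to subsets of `ℕ` -/
def RV (a : Set ι) (u : Om ι → ℕ → Prop) : Prop := ∀ n, Ms a fun x => u x n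

section

variable {a b : Set ι} {u v : Om ι → ℕ → Prop}

theorem RV.mono (h : RV a u) (hab : a ⊆ b) : RV b u := fun n => (h n).mono hab

theorem RV.lower (h : RV a u) : Ms a fun x => lower (u x) :=
  Ms.all fun i => Ms.all fun j => Ms.imp' fun _ => (h j).imp (h i)

theorem RV.isReal (h : RV a u) : Ms a fun x => isReal (u x) :=
  (Ms.ex h).and ((Ms.ex fun i => (h i).not).and (h.lower.and
    (Ms.all fun i => (h i).imp (Ms.ex fun j => (Ms.const _).and (h j)))))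

theorem RV.ivl (h : RV a u) (i j : ℕ) : Ms a fun x => ivl i j (u x) :=
  (h i).and (Ms.ex fun c => (Ms.const _).and (h c).not)

theorem RV.bas (h : RV a u) (k : ℕ) : Ms a fun x => bas k (u x) := h.ivl _ _

theorem RV.box (h : RV a u) (h' : RV a v) (k : ℕ) : Ms a fun x => box k (u x) (v x) :=
  (h.bas _).and (h'.bas _)

theorem RV.clo (h : RV a u) (k : ℕ) : Ms a fun x => clo k (u x) := (h _).and (h _).not

theorem RV.nrm (h : RV a u) : RV a fun x => nrm (u x) := fun _ =>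
  Ms.ex fun j => (Ms.const _).and (h j)

theorem RV.near (h : RV a u) (k M : ℕ) : Ms a fun x => near k (u x) M :=
  (Ms.const _).and ((h _).and (Ms.ex fun c => (Ms.const _).and ((Ms.const _).and (h c).not)))

theorem RV.notlow (h : RV a u) (M : ℕ) : Ms a fun x => notlow (u x) M :=
  Ms.ex fun i => (Ms.const _).and (Ms.ex fun j => (Ms.const _).and ((Ms.const _).and
    ((h j).and (h i).not)))

end

variable [LinearOrder ι]

/-- witnesses can be found inside sets which are closed under a suitable operation -/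
theorem exists_refl {A B I J : Type} [Countable I] [Countable J] (ca : A → I → Om ι → Prop)
    (hca : Function.Injective ca) (cb : B → J → Om ι → Prop)
    (R : Cond ι → A → Cond ι → B → Prop)
    (hR : ∀ r1 r2 a r' b, r1 ≤ r2 → R r1 a r' b → R r2 a r' b) :
    ∃ Φ : Set ι → Set ι, (∀ S : Set ι, S.Countable → #(Φ S) ≤ 𝔠) ∧
      ∀ L, IsLowerSet L → (∀ S ⊆ L, S.Countable → Φ S ⊆ L) → ∀ r a, r.supp ⊆ L →
        (∀ i, Ms L (ca a i)) → (∃ r' b, (∀ j, Ms univ (cb b j)) ∧ R r a r' b) →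
        ∃ r' b, r'.supp ⊆ L ∧ (∀ j, Ms L (cb b j)) ∧ R r a r' b := by
  have : ∀ z : (Om ι → Prop) × A, ∃ c : Set ι, c.Countable ∧
      ((∃ r r' b, Cond.bd r = z.1 ∧ (∀ j, Ms univ (cb b j)) ∧ R r z.2 r' b) →
        ∃ r r' b, Cond.bd r = z.1 ∧ r'.supp ⊆ c ∧ (∀ j, Ms c (cb b j)) ∧ R r z.2 r' b) := by
    intro z
    by_cases h : ∃ r r' b, Cond.bd r = z.1 ∧ (∀ j, Ms univ (cb b j)) ∧ R r z.2 r' b
    · obtain ⟨r, r', b, h1, h2, h3⟩ := h
      obtain ⟨c, -, h4, h5⟩ := Ms.supp_family h2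
      exact ⟨c ∪ r'.supp, h4.union r'.cnt, fun _ => ⟨r, r', b, h1, subset_union_right,
        fun j => (h5 j).mono subset_union_left, h3⟩⟩
    · exact ⟨∅, countable_empty, fun h' => absurd h' h⟩
  choose c hc hc' using this
  refine ⟨fun S => ⋃ z : {z : (Om ι → Prop) × A // Ms S z.1 ∧ ∀ i, Ms S (ca z.2 i)}, c z.1,
    fun S hS => ?_, fun L hL hΦ r a h1 h2 ⟨r', b, h3, h4⟩ => ?_⟩
  · refine mk_iUnion_le_sum_mk.trans ((sum_le_sum _ (fun _ => ℵ₀) fun z =>
      le_aleph0_iff_set_countable.2 (hc _)).trans ?_)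
    rw [sum_const']
    have h1 : #{z : (Om ι → Prop) × A // Ms S z.1 ∧ ∀ i, Ms S (ca z.2 i)} ≤ 𝔠 * 𝔠 := by
      let f : {z : (Om ι → Prop) × A // Ms S z.1 ∧ ∀ i, Ms S (ca z.2 i)} →
          {P : Om ι → Prop | Ms S P} × {P : I → Om ι → Prop | ∀ i, Ms S (P i)} :=
        fun z => (⟨z.1.1, z.2.1⟩, ⟨ca z.1.2, z.2.2⟩)
      have hf : Function.Injective f := fun z z' h => by
        simp only [f, Prod.mk.injEq, Subtype.mk.injEq] at h
        exact Subtype.ext (Prod.ext h.1 (hca h.2))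
      refine (mk_le_of_injective hf).trans ?_
      rw [mk_prod, lift_id, lift_id]
      exact mul_le_mul' (card_Ms hS) (card_Ms_family hS)
    calc _ ≤ 𝔠 * 𝔠 * ℵ₀ := mul_le_mul_left h1 _
      _ = 𝔠 := by simp
  · have h5 : Ms L r.bd := (r.ms_B hL).congr fun x => (Cond.bd_iff_B h1).symm
    obtain ⟨S1, k1, k2, k3⟩ := h5.supp
    obtain ⟨S2, k4, k5, k6⟩ := Ms.supp_family h2
    have k7 := hΦ (S1 ∪ S2) (union_subset k1 k4) (k2.union k5)
    have k8 : c (r.bd, a) ⊆ L := (subset_iUnion (fun z : {z : (Om ι → Prop) × A //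
      Ms (S1 ∪ S2) z.1 ∧ ∀ i, Ms (S1 ∪ S2) (ca z.2 i)} => c z.1) ⟨(r.bd, a),
      k3.mono subset_union_left, fun i => (k6 i).mono subset_union_right⟩).trans k7
    obtain ⟨r0, r'', b', m1, m2, m3, m4⟩ := hc' (r.bd, a) ⟨r, r', b, rfl, h3, h4⟩
    exact ⟨r'', b', m2.trans k8, fun j => (m3 j).mono k8,
      hR r0 r a r'' b' (fun x hx => by rwa [m1] at hx) m4⟩

/-- the index set has order type the successor of the continuum -/
structure Long (ι : Type) [LinearOrder ι] : Prop where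
  small : ∀ ξ : ι, #(Iio ξ) ≤ 𝔠
  bdd : ∀ S : Set ι, #S ≤ 𝔠 → ∃ α, ∀ ξ ∈ S, ξ < α

theorem Long.exists_point [WellFoundedLT ι] (h : Long ι) (Φ : Set ι → Set ι)
    (hΦ : ∀ S : Set ι, S.Countable → #(Φ S) ≤ 𝔠) :
    ∃ α : ι, ∀ S ⊆ Iio α, S.Countable → Φ S ⊆ Iio α := by
  obtain ⟨A, h1, h2⟩ := exists_closed (fun S => Φ S ∪ ⋃ ξ : S, Iio ξ.1) fun S hS => by
    refine (mk_union_le _ _).trans (add_le_of_le aleph0_le_continuum (hΦ S hS) ?_)
    refine mk_iUnion_le_sum_mk.trans ((sum_le_sum _ (fun _ => 𝔠) fun ξ => h.small _).trans ?_)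
    rw [sum_const']
    exact mul_le_of_le aleph0_le_continuum
      ((le_aleph0_iff_set_countable.2 hS).trans aleph0_le_continuum) le_rfl
  obtain ⟨β, hβ⟩ := h.bdd A h1
  have hne : (Aᶜ).Nonempty := ⟨β, fun h => lt_irrefl _ (hβ β h)⟩
  have h3 : A = Iio (wellFounded_lt.min Aᶜ hne) := by
    ext ξ
    constructor
    · intro hξ
      by_contra h4
      rcases (not_lt.1 h4).lt_or_eq with h5 | h5
      · exact wellFounded_lt.min_mem Aᶜ hne (h2 {ξ} (singleton_subset_iff.2 hξ)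
          (countable_singleton ξ) (Or.inr (mem_iUnion.2 ⟨⟨ξ, rfl⟩, h5⟩)))
      · exact wellFounded_lt.min_mem Aᶜ hne (h5 ▸ hξ)
    · intro hξ
      by_contra h4
      exact wellFounded_lt.not_lt_min Aᶜ h4 hξ
  exact ⟨_, fun S hS hS' => h3 ▸ subset_union_left.trans (h2 S (h3 ▸ hS) hS')⟩

theorem long_succ : Long (Order.succ 𝔠).ord.ToType := by
  refine ⟨fun ξ => Order.lt_succ_iff.1 (mk_Iio_toType_ord_lt ξ), fun S hS => ?_⟩
  by_contra h
  push Not at h
  choose f hf hf' using h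
  have h1 : (univ : Set (Order.succ 𝔠).ord.ToType) ⊆ ⋃ ξ : S, insert ξ.1 (Iio ξ.1) :=
    fun α _ => mem_iUnion.2 ⟨⟨f α, hf α⟩, (hf' α).eq_or_lt⟩
  have h2 := (mk_le_mk_of_subset h1).trans (mk_iUnion_le_sum_mk.trans
    (sum_le_sum _ (fun _ => 𝔠) fun ξ => mk_insert_le.trans (add_le_of_le aleph0_le_continuum
      (Order.lt_succ_iff.1 (mk_Iio_toType_ord_lt ξ.1)) (one_le_aleph0.trans aleph0_le_continuum))))
  rw [sum_const', mk_univ, mk_ord_toType] at h2
  exact not_lt.2 (h2.trans (mul_le_of_le aleph0_le_continuum hS le_rfl)) (Order.lt_succ _)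

end Pool.Agent.MP_5f86f1_lc

end MrgPart3

-- ======== part 4: formerly Pool.Agent.MP_5f86f1_lc.Struct
section MrgPart4

/-! Analysis of a pair of reals along the generic real at a reflection point. -/

open Set

namespace Pool.Agent.MP_5f86f1_lc

open Cond

variable {ι : Type} [LinearOrder ι]

/-- the stage at which the node `s` is treated -/
def idx (s0 s : List ℕ) : ℕ := if s = s0 then 0 else Encodable.encode s + s.length

theorem finite_idx (s0 : List ℕ) (n : ℕ) : {s | idx s0 s ≤ n}.Finite := by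
  refine (((Set.finite_Iic n).preimage
    (Encodable.encode_injective (α := List ℕ)).injOn).insert s0).subset fun s hs => ?_
  by_cases h : s = s0
  · exact Or.inl h
  · right
    simp only [idx, mem_ofPred_eq, if_neg h] at hs
    exact (Nat.le_add_right _ _).trans hs

theorem le_idx {s0 s : List ℕ} (h : s0.length < s.length) : s.length ≤ idx s0 s := by
  rw [idx, if_neg (by rintro rfl; omega)]
  omega

/-- an abstract notion of forced membership of a Borel real in a set of reals -/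
structure Mem (p0 : Cond ι) (In : Cond ι → (Om ι → ℕ → Prop) → Prop) : Prop where
  mono : ∀ {r r' u}, r' ≤ r → In r u → In r' u
  ext : ∀ {r u v}, RV univ u → RV univ v → (∀ x, r.bd x → ∀ n, u x n ↔ v x n) → In r u → In r v
  real : ∀ {r u}, r ≤ p0 → RV univ u → In r u → ∃ r' ≤ r, ∀ x, r'.bd x → isReal (u x)

/-- `W` codes a sequence of covers by intervals -/
def Cov (In : Cond ι → (Om ι → ℕ → Prop) → Prop) (r : Cond ι) (W : Om ι → ℕ → ℕ → Prop) : Prop :=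
  ∀ r' ≤ r, ∀ z, RV univ z → In r' z → ∀ n, ∃ r'' ≤ r', ∃ k, ∀ x, r''.bd x →
    W x n k ∧ bas k (z x)

/-- `Bx` codes a sequence of covers of the square by boxes -/
def Cov2 (In : Cond ι → (Om ι → ℕ → Prop) → Prop) (r : Cond ι) (Bx : Om ι → ℕ → ℕ → Prop) :
    Prop :=
  ∀ r' ≤ r, ∀ u v, RV univ u → RV univ v → In r' u → In r' v → ∀ n, ∃ r'' ≤ r', ∃ k,
    ∀ x, r''.bd x → Bx x n k ∧ box k (u x) (v x)

variable [WellFoundedLT ι]

theorem cut_top_le {L : Set ι} (hL : IsLowerSet L) {r p : Cond ι} (h : r ≤ p) (hp : p.supp ⊆ L) :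
    cut L r top ≤ p := fun _ hx => (bd_iff_B hp).2 (B_of_le h hL (cut_top_bd.1 hx))

theorem exists_struct {p0 : Cond ι} {In : Cond ι → (Om ι → ℕ → Prop) → Prop} (hIn : Mem p0 In)
    {α : ι} (hp0 : p0.supp ⊆ Iio α) {Bx : Om ι → ℕ → ℕ → Prop}
    (hBx : ∀ n k, Ms (Iio α) fun x => Bx x n k) (hcov : Cov2 In p0 Bx)
    (R1 : ∀ r u, r.supp ⊆ Iio α → RV (Iio α) u → (∃ r' ≤ r, In r' u) →
      ∃ r' ≤ r, r'.supp ⊆ Iio α ∧ In r' u)
    {q : Cond ι} (hq : q ≤ p0) {φ ψ : Om ι → ℕ → Prop} (hφ : RV univ φ) (hψ : RV univ ψ)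
    (hbad : ∀ x, q.bd x → lower (φ x) ∧ lower (ψ x) ∧
      ∀ n k, k ≤ x α n → Bx x n k → ¬ box k (φ x) (ψ x)) :
    ∃ q1 ≤ q, ∃ s0 : List ℕ, (∀ x, q1.B (Iio α) x → q1.st α x = s0) ∧
      ∃ W : Om ι → ℕ → ℕ → Prop, (∀ n k, Ms (Iio α) fun x => W x n k) ∧
        (∀ x n n' k, n ≤ n' → W x n' k → W x n k) ∧ Cov In (cut (Iio α) q1 top) W ∧
      ∃ Ag : Om ι → List ℕ → ℕ → ℕ → Prop, (∀ s k M, Ms (Iio α) fun x => Ag x s k M) ∧
        (∀ x, q1.B (Iio α) x → ∀ s ∈ q1.tr α x, s0 <+: s → ∀ M m, ∃ k, m ≤ k ∧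
          s ++ [k] ∈ q1.tr α x ∧ Ag x s k M) ∧
        ∀ x, q1.bd x → ∀ j, s0.length ≤ j → ∀ M, Ag x (seg (x α) j) (x α j) M →
          (∀ n, idx s0 (seg (x α) j) ≤ n → ∀ k ≤ M, W x n k → ¬ bas k (φ x)) ∨
          (∀ n, idx s0 (seg (x α) j) ≤ n → ∀ k ≤ M, W x n k → ¬ bas k (ψ x)) := by
  classical
  have hL := isLowerSet_Iio α
  obtain ⟨qa, ha1, s0, ha2⟩ := dec (A := fun t x => q.st α x = t)
    (fun t => (q.mst α t).mono (subset_univ _)) q fun x _ => ⟨_, rfl⟩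
  replace ha2 : ∀ x, qa.B (Iio α) x → q.st α x = s0 := fun x hx => of_bd hL (q.mst α s0) ha2 hx
  let w : Om ι → ℕ → Bool := fun x b => decide (if b % 2 = 0 then φ x (b / 2) else ψ x (b / 2))
  have hw : ∀ b, Mf univ fun x => w x b := by
    intro b e
    have h1 : Ms univ fun x => if b % 2 = 0 then φ x (b / 2) else ψ x (b / 2) := by
      split_ifs
      · exact hφ _
      · exact hψ _
    exact (h1.iff (Ms.const (e = true))).congr fun x => by
      have key : ∀ (P : Prop) [Decidable P], (P ↔ e = true) ↔ decide P = e := fun P _ => by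
        cases e <;> simp
      exact key _
  obtain ⟨qb, hb1, hb2, N, c, hc, hb3⟩ := slalom (α := α) (s0 := s0) hw (cut (Iio α) qa q)
    fun x hx => by
      rw [cut_st_neg (L := Iio α) (lt_irrefl α)]
      exact ha2 x ((cut_B Subset.rfl).1 hx)
  replace hb1 : qb ≤ q := hb1.trans (cut_le' hL ha1)
  choose U hU hU' using fun s : List ℕ => exists_limit (a := Iio α)
    (A := fun x k => s ++ [k] ∈ qb.tr α x)
    (v := fun k x b => c (s ++ [k]) b.unpair.1 x b.unpair.2) (fun k => qb.mtr α _)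
    fun k b => hc _ _ _
  let u : List ℕ → ℕ → ℕ → Om ι → ℕ → Prop := fun s i e x n =>
    U s x (Nat.pair i (2 * n + e)) = true
  have hu : ∀ s i e, RV (Iio α) (u s i e) := fun s i e n => hU s _ true
  let Hm : Om ι → List ℕ → ℕ → ℕ → Prop := fun x s i M =>
    notlow (u s i 0 x) M ∨ notlow (u s i 1 x) M ∨ ∃ k ≤ M, Bx x s.length k ∧
      near k.unpair.1 (u s i 0 x) M ∧ near k.unpair.2 (u s i 1 x) M
  have hHm : ∀ s i M, Ms (Iio α) fun x => Hm x s i M := fun s i M =>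
    ((hu s i 0).notlow M).or (((hu s i 1).notlow M).or (Ms.ex fun k => (Ms.const _).and
      ((hBx _ k).and (((hu s i 0).near _ M).and ((hu s i 1).near _ M)))))
  have hHm' : ∀ x s i M M', M ≤ M' → Hm x s i M → Hm x s i M' := fun x s i M M' h h' =>
    h'.imp (·.mono h) (·.imp (·.mono h) fun ⟨k, k1, k2, k3, k4⟩ =>
      ⟨k, k1.trans h, k2, k3.mono h, k4.mono h⟩)
  let Out : List ℕ → ℕ → ℕ → Cond ι → Prop := fun s i e d =>
    (∀ x, d.B (Iio α) x → lower (u s i e x)) ∧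
      ∀ r : Cond ι, (∀ x, r.bd x → d.B (Iio α) x) → ¬ In r fun x => nrm (u s i e x)
  obtain ⟨s1, hs1, -, hs2⟩ := cap hL ∅ (by simp) qb
    (fun (z : List ℕ × ℕ) d => (∀ x, d.B (Iio α) x → ∃ M, Hm x z.1 z.2 M) ∨
      Out z.1 z.2 0 d ∨ Out z.1 z.2 1 d) fun ⟨s, i⟩ r hr => by
      have mH : Ms (Iio α) fun x => ∃ M, Hm x s i M := Ms.ex fun M => hHm s i M
      obtain ⟨r', k1, k2 | k2⟩ := dec2 (((hu s i 0).lower.and (hu s i 1).lower).mono
        (subset_univ _)) r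
      swap
      · refine ⟨r', k1, Or.inl fun x hx => of_bd hL mH (fun y hy => ?_) hx⟩
        rcases not_and_or.1 (k2 y hy) with h | h
        · exact let ⟨M, hM⟩ := exists_notlow h; ⟨M, Or.inl hM⟩
        · exact let ⟨M, hM⟩ := exists_notlow h; ⟨M, Or.inr (Or.inl hM)⟩
      replace k2 := fun x (hx : r'.B (Iio α) x) =>
        of_bd hL ((hu s i 0).lower.and (hu s i 1).lower) k2 hx
      by_cases k3 : ∃ r'' ≤ cut (Iio α) r' top, In r'' fun x => nrm (u s i 0 x)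
      swap
      · exact ⟨r', k1, Or.inr (Or.inl ⟨fun x hx => (k2 x hx).1, fun r'' h h' =>
          k3 ⟨r'', fun x hx => cut_top_bd.2 (h x hx), h'⟩⟩)⟩
      obtain ⟨r1, k4, k5, k6⟩ := R1 _ _ cut_top_supp (hu s i 0).nrm k3
      have k7 : ∀ r2 ≤ r1, ∀ x, r2.B (Iio α) x → r'.B (Iio α) x := fun r2 h x hx =>
        (cut_B Subset.rfl).1 (B_of_le (h.trans k4) hL hx)
      by_cases k8 : ∃ r'' ≤ r1, In r'' fun x => nrm (u s i 1 x)
      swap
      · refine ⟨cut (Iio α) r1 r', (cut_le (k7 r1 le_rfl)).trans k1, Or.inr (Or.inr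
          ⟨fun x hx => (k2 x (k7 r1 le_rfl x ((cut_B Subset.rfl).1 hx))).2, fun r'' h h' =>
          k8 ⟨r'', fun x hx => (bd_iff_B k5).2 ((cut_B Subset.rfl).1 (h x hx)), h'⟩⟩)⟩
      obtain ⟨r2, k9, k10⟩ := k8
      obtain ⟨r3, k11, k, k12⟩ := hcov r2 (k9.trans (k4.trans
        (cut_top_le hL (k1.trans (hr.trans (hb1.trans hq))) hp0))) _ _
        ((hu s i 0).nrm.mono (subset_univ _)) ((hu s i 1).nrm.mono (subset_univ _))
        (hIn.mono k9 k6) k10 s.length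
      refine ⟨cut (Iio α) r3 r', (cut_le (k7 r3 (k11.trans k9))).trans k1, Or.inl fun x hx =>
        of_bd hL mH (fun y hy => ?_) ((cut_B Subset.rfl).1 hx)⟩
      obtain ⟨m1, m2, m3⟩ := k12 y hy
      obtain ⟨m4, m5⟩ := k2 y (k7 r3 (k11.trans k9) y (hy.B _))
      obtain ⟨M1, m6⟩ := exists_near m4 m2
      obtain ⟨M2, m7⟩ := exists_near m5 m3
      exact ⟨max k (max M1 M2), Or.inr (Or.inr ⟨k, le_max_left _ _, m1,
        m6.mono (by omega), m7.mono (by omega)⟩)⟩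
  choose d hd1 hd2 using hs2
  let act : List ℕ → ℕ → ℕ → Om ι → Prop := fun s i e x =>
    ∃ j, (d (s, i) j).B (Iio α) x ∧ Out s i e (d (s, i) j)
  have hact : ∀ s i e, Ms (Iio α) (act s i e) := fun s i e =>
    Ms.ex fun j => ((d (s, i) j).ms_B hL).and (Ms.const _)
  have hq1 : cut (Iio α) s1 qb ≤ qb := cut_le' hL hs1
  have htr : ∀ x, (cut (Iio α) s1 qb).tr α x = qb.tr α x := fun x =>
    cut_tr_neg (L := Iio α) (lt_irrefl α)
  refine ⟨cut (Iio α) s1 qb, hq1.trans hb1, s0, fun x hx => ?_,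
    fun x n k => ∀ s i e, idx s0 s ≤ n → i < N s.length → e < 2 → act s i e x →
      ¬ clo k (u s i e x),
    fun n k => Ms.all fun s => Ms.all fun i => Ms.all fun e => Ms.imp' fun _ => Ms.imp' fun _ =>
      Ms.imp' fun _ => (hact s i e).imp ((hu s i e).clo k).not,
    fun x n n' k hn h s i e h1 => h s i e (h1.trans hn), fun r hr z hz hz' n => ?_,
    fun x s k M => ∃ M', M < M' ∧ 2 * M' ≤ k ∧
      (∀ i < N s.length, ∀ b < 2 * M', c (s ++ [k]) i x b = U s x (Nat.pair i b)) ∧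
      ∀ i < N s.length, (∃ M'', Hm x s i M'') → Hm x s i M',
    fun s k M => Ms.ex fun M' => (Ms.const _).and ((Ms.const _).and ((Ms.all fun i =>
      Ms.imp' fun _ => Ms.all fun b => Ms.imp' fun _ => (hc _ i b).rel (hU s _) (· = ·)).and
      (Ms.all fun i => Ms.imp' fun _ => (Ms.ex fun M => hHm s i M).imp (hHm s i M')))),
    fun x hx s hs hs' M m => ?_, fun x hx j hj M hA => ?_⟩
  · rw [cut_st_neg (L := Iio α) (lt_irrefl α)]
    exact hb2 x (B_of_le hq1 hL hx)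
  · have hr0 : r ≤ p0 := hr.trans (cut_top_le hL (hq1.trans (hb1.trans hq)) hp0)
    obtain ⟨r1, k1, k2⟩ := hIn.real hr0 hz hz'
    have mE : ∀ s i e, Ms univ fun x => ∀ b, nrm (u s i e x) b ↔ z x b := fun s i e =>
      Ms.all fun b => (((hu s i e).nrm b).mono (subset_univ _)).iff (hz b)
    obtain ⟨r2, k3, k4⟩ := exists_all (A := fun (t : List ℕ × ℕ × ℕ) x =>
      act t.1 t.2.1 t.2.2 x → ¬ ∀ b, nrm (u t.1 t.2.1 t.2.2 x) b ↔ z x b)
      (fun t => ((hact _ _ _).mono (subset_univ _)).imp (mE _ _ _).not) r1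
      fun ⟨s, i, e⟩ r' hr' h => by
        simp only [Classical.not_imp, not_not] at h
        obtain ⟨r'', m1, j, m2⟩ := dec (A := fun j x =>
          (d (s, i) j).B (Iio α) x ∧ Out s i e (d (s, i) j)) (fun j =>
            (((d (s, i) j).ms_B hL).mono (subset_univ _)).and (Ms.const _)) r'
          fun x hx => (h x hx).1
        obtain ⟨x0, hx0⟩ := r''.bd_nonempty
        exact (m2 x0 hx0).2.2 r'' (fun x hx => (m2 x hx).1) (hIn.ext hz
          ((hu s i e).nrm.mono (subset_univ _)) (fun x hx b => ((h x (m1 x hx)).2 b).symm)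
          (hIn.mono (m1.trans (hr'.trans k1)) hz'))
    obtain ⟨r3, k5, k, k6⟩ := dec (A := fun k x => (∀ s i e, idx s0 s ≤ n → i < N s.length →
      e < 2 → act s i e x → ¬ clo k (u s i e x)) ∧ bas k (z x)) (fun k => ((Ms.all fun s =>
        Ms.all fun i => Ms.all fun e => Ms.imp' fun _ => Ms.imp' fun _ => Ms.imp' fun _ =>
        (hact s i e).imp ((hu s i e).clo k).not).mono (subset_univ _)).and (hz.bas k)) r2
      fun x hx => by
        have hS : {t : List ℕ × ℕ × ℕ | idx s0 t.1 ≤ n ∧ t.2.1 < N t.1.length ∧ t.2.2 < 2 ∧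
            act t.1 t.2.1 t.2.2 x}.Finite := by
          refine ((finite_idx s0 n).biUnion fun s _ => (finite_singleton s).prod
            ((finite_Iio (N s.length)).prod (finite_Iio 2))).subset fun t ht => ?_
          exact mem_biUnion ht.1 ⟨rfl, ht.2.1, ht.2.2.1⟩
        obtain ⟨k, m1, m2⟩ := exists_sep hS (u := fun t => u t.1 t.2.1 t.2.2 x) (k2 x (k3 x hx))
          fun t ht => ⟨by obtain ⟨j, h1, h2⟩ := ht.2.2.2; exact h2.1 x h1, k4 x hx t ht.2.2.2⟩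
        exact ⟨k, fun s i e h1 h2 h3 h4 => m2 (s, i, e) ⟨h1, h2, h3, h4⟩, m1⟩
    exact ⟨r3, k5.trans (k3.trans k1), k, k6⟩
  · rw [htr] at hs ⊢
    have k1 : ∃ M', M < M' ∧ ∀ i < N s.length, (∃ M'', Hm x s i M'') → Hm x s i M' := by
      have : ∀ i, ∃ M', (∃ M'', Hm x s i M'') → Hm x s i M' := fun i => by
        by_cases h : ∃ M'', Hm x s i M''
        · exact let ⟨M'', h⟩ := h; ⟨M'', fun _ => h⟩
        · exact ⟨0, fun h' => absurd h' h⟩
      choose f hf using this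
      exact ⟨(Finset.range (N s.length)).sup f + M + 1, by omega, fun i hi h =>
        hHm' _ _ _ _ _ ((Finset.le_sup (f := f) (Finset.mem_range.2 hi)).trans (by omega))
          (hf i h)⟩
    obtain ⟨M', k2, k3⟩ := k1
    have k4 := qb.lav α x
    rw [hb2 x (B_of_le hq1 hL hx)] at k4
    obtain ⟨k, k5, k6, k7⟩ := hU' s x (k4.inf s hs hs') ((N s.length + 2 * M' + 1) ^ 2)
      (max m (2 * M'))
    refine ⟨k, (le_max_left _ _).trans k5, k6, M', k2, (le_max_right _ _).trans k5,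
      fun i hi b hb => ?_, k3⟩
    have := k7 (Nat.pair i b) ((Nat.pair_lt_max_add_one_sq i b).trans_le
      (Nat.pow_le_pow_left (by omega) 2))
    simpa only [Nat.unpair_pair] using this
  · obtain ⟨M', k1, k2, k3, k4⟩ := hA
    obtain ⟨i, hi, k5⟩ := hb3 x (hq1 x hx) j hj
    rw [seg_length] at k3 k4
    rw [← seg_succ] at k3
    have k6 : ∀ b < M', φ x b ↔ u (seg (x α) j) i 0 x b := fun b hb => by
      have h1 := (k5 (2 * b) (by omega)).trans (k3 i hi (2 * b) (by omega))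
      simp only [u, add_zero, ← h1, w, Nat.mul_mod_right, if_true, decide_eq_true_eq,
        Nat.mul_div_cancel_left b two_pos]
    have k7 : ∀ b < M', ψ x b ↔ u (seg (x α) j) i 1 x b := fun b hb => by
      have h1 := (k5 (2 * b + 1) (by omega)).trans (k3 i hi (2 * b + 1) (by omega))
      have h2 : (2 * b + 1) % 2 ≠ 0 := by omega
      have h3 : (2 * b + 1) / 2 = b := by omega
      simp only [u, ← h1, w, if_neg h2, decide_eq_true_eq, h3]
    obtain ⟨m1, m2, m3⟩ := hbad x (hb1 x (hq1 x hx))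
    obtain ⟨j', m4⟩ := hd2 (seg (x α) j, i) x ((cut_B Subset.rfl).1 (hx.B _))
    rcases hd1 (seg (x α) j, i) j' with h | h | h
    · rcases k4 i hi (h x m4) with h' | h' | ⟨k, h1, h2, h3, h4⟩
      · exact absurd m1 (h'.not_lower k6)
      · exact absurd m2 (h'.not_lower k7)
      · rw [seg_length] at h2
        exact absurd ⟨h3.bas k6, h4.bas k7⟩ (m3 j k (by omega) h2)
    · exact Or.inl fun n hn k hk hW hb => hW _ i 0 hn (by simpa using hi) two_pos ⟨j', m4, h⟩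
        (clo_congr (hk.trans_lt k1) k6 (clo_of_bas m1 hb))
    · exact Or.inr fun n hn k hk hW hb => hW _ i 1 hn (by simpa using hi) one_lt_two ⟨j', m4, h⟩
        (clo_congr (hk.trans_lt k1) k7 (clo_of_bas m2 hb))

end Pool.Agent.MP_5f86f1_lc

end MrgPart4

-- ======== part 5: formerly Pool.Agent.MP_5f86f1_lc.Core
section MrgPart5

/-! The combinatorial core: a Scheepers set has a Menger square. -/

open Set Cardinal

namespace Pool.Agent.MP_5f86f1_lc

open Cond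

variable {ι : Type} [LinearOrder ι]

/-- `z` is covered by one of the first `h x n` intervals of the `n`-th cover -/
def far (W : Om ι → ℕ → ℕ → Prop) (h : Om ι → ℕ → ℕ) (z : Om ι → ℕ → Prop) (x : Om ι)
    (n : ℕ) : Prop := ∃ k ≤ h x n, W x n k ∧ bas k (z x)

omit [LinearOrder ι] in
theorem ms_far {a : Set ι} {W : Om ι → ℕ → ℕ → Prop} {h : Om ι → ℕ → ℕ} {z : Om ι → ℕ → Prop}
    (hW : ∀ n k, Ms a fun x => W x n k) (hh : ∀ n, Mf a fun x => h x n) (hz : RV a z) (n : ℕ) :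
    Ms a fun x => far W h z x n :=
  Ms.ex fun k => ((hh n).pred (k ≤ ·)).and ((hW n k).and (hz.bas k))

/-- `h` witnesses the Scheepers property for triples -/
def Sch (In : Cond ι → (Om ι → ℕ → Prop) → Prop) (r : Cond ι) (W : Om ι → ℕ → ℕ → Prop)
    (h : Om ι → ℕ → ℕ) : Prop :=
  ∀ r' ≤ r, ∀ z1 z2 z3, RV univ z1 → RV univ z2 → RV univ z3 → In r' z1 → In r' z2 → In r' z3 →
    ∃ r'' ≤ r', ∃ n, ∀ x, r''.bd x → far W h z1 x n ∧ far W h z2 x n ∧ far W h z3 x n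

/-- `h` witnesses the Hurewicz property -/
def Hur (In : Cond ι → (Om ι → ℕ → Prop) → Prop) (r : Cond ι) (W : Om ι → ℕ → ℕ → Prop)
    (h : Om ι → ℕ → ℕ) : Prop :=
  ∀ r' ≤ r, ∀ z, RV univ z → In r' z → ∃ r'' ≤ r', ∃ m, ∀ x, r''.bd x → ∀ n, m ≤ n → far W h z x n

variable [WellFoundedLT ι]

theorem core (hι : Long ι) {p0 : Cond ι} {In : Cond ι → (Om ι → ℕ → Prop) → Prop}
    (hIn : Mem p0 In)
    (hS : ∀ r ≤ p0, ∀ W : Om ι → ℕ → ℕ → Prop, (∀ n k, Ms univ fun x => W x n k) → Cov In r W →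
      ∃ r' ≤ r, ∃ h : Om ι → ℕ → ℕ, (∀ n, Mf univ fun x => h x n) ∧ Sch In r' W h)
    {Bx : Om ι → ℕ → ℕ → Prop} (hBx : ∀ n k, Ms univ fun x => Bx x n k) (hcov : Cov2 In p0 Bx) :
    ∃ α : ι, ∀ r ≤ p0, ∀ u v, RV univ u → RV univ v → In r u → In r v → ∃ r' ≤ r, ∃ n k,
      ∀ x, r'.bd x → k ≤ x α n ∧ Bx x n k ∧ box k (u x) (v x) := by
  classical
  let cW : (Om ι → ℕ → ℕ → Prop) → ℕ × ℕ → Om ι → Prop := fun W z x => W x z.1 z.2
  have hcW : Function.Injective cW := fun W W' h => funext fun x => funext fun n =>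
    funext fun k => congrFun (congrFun h (n, k)) x
  let ch : (Om ι → ℕ → ℕ) → ℕ × ℕ → Om ι → Prop := fun h z x => h x z.1 = z.2
  have hch : Function.Injective ch := fun h h' e => funext fun x => funext fun n =>
    (congrFun (congrFun e (n, h' x n)) x).mpr rfl
  let cu : (Om ι → ℕ → Prop) → ℕ → Om ι → Prop := fun u n x => u x n
  have hcu : Function.Injective cu := fun u u' h => funext fun x => funext fun n =>
    congrFun (congrFun h n) x
  obtain ⟨Φ1, c1, R1⟩ := exists_refl cu hcu (fun (_ : Unit) (_ : Unit) _ => True)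
    (fun r u r' _ => r' ≤ r ∧ In r' u) fun _ _ _ _ _ h h' => ⟨h'.1.trans h, h'.2⟩
  obtain ⟨Φ2, c2, R2⟩ := exists_refl cW hcW ch (fun r W r' h => r' ≤ r ∧ Sch In r' W h)
    fun _ _ _ _ _ h h' => ⟨h'.1.trans h, h'.2⟩
  obtain ⟨Φ3, c3, R3⟩ := exists_refl cW hcW ch (fun r W r' h => r' ≤ r ∧ Hur In r' W h)
    fun _ _ _ _ _ h h' => ⟨h'.1.trans h, h'.2⟩
  obtain ⟨Φ4, c4, R4⟩ := exists_refl
    (fun (a : (Om ι → ℕ → ℕ → Prop) × (Om ι → ℕ → ℕ)) => Sum.elim (cW a.1) (ch a.2))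
    (fun a a' h => Prod.ext (hcW (funext fun z => congrFun h (Sum.inl z)))
      (hch (funext fun z => congrFun h (Sum.inr z)))) cu
    (fun r a r' z => r' ≤ r ∧ In r' z ∧ ∀ x, r'.bd x → ∀ m, ∃ n, m ≤ n ∧ ¬ far a.1 a.2 z x n)
    fun _ _ _ _ _ h h' => ⟨h'.1.trans h, h'.2⟩
  obtain ⟨a0, -, ha0, ha1⟩ := Ms.supp_family (P := cW Bx) fun z => hBx z.1 z.2
  have hu : ∀ {S T : Set ι}, #S ≤ 𝔠 → #T ≤ 𝔠 → #(S ∪ T : Set ι) ≤ 𝔠 := fun h h' =>
    (mk_union_le _ _).trans (add_le_of_le aleph0_le_continuum h h')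
  obtain ⟨α, hα⟩ := hι.exists_point (fun S => (Φ1 S ∪ Φ2 S) ∪ (Φ3 S ∪ Φ4 S) ∪ (a0 ∪ p0.supp))
    fun S hS => hu (hu (hu (c1 S hS) (c2 S hS)) (hu (c3 S hS) (c4 S hS)))
      ((le_aleph0_iff_set_countable.2 (ha0.union p0.cnt)).trans aleph0_le_continuum)
  have hL := isLowerSet_Iio α
  simp only [union_subset_iff] at hα
  replace R1 := R1 _ hL fun S h h' => (hα S h h').1.1.1
  replace R2 := R2 _ hL fun S h h' => (hα S h h').1.1.2
  replace R3 := R3 _ hL fun S h h' => (hα S h h').1.2.1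
  replace R4 := R4 _ hL fun S h h' => (hα S h h').1.2.2
  obtain ⟨ha2, hp0⟩ := (hα ∅ (empty_subset _) countable_empty).2
  refine ⟨α, fun r hr φ ψ hφ hψ h1 h2 => ?_⟩
  by_contra hcon
  obtain ⟨ra, k1, k2⟩ := hIn.real hr hφ h1
  obtain ⟨rb, k3, k4⟩ := hIn.real (k1.trans hr) hψ (hIn.mono k1 h2)
  obtain ⟨q, k5, k6⟩ := exists_all (A := fun (z : ℕ × ℕ) x =>
    ¬ (z.2 ≤ x α z.1 ∧ Bx x z.1 z.2 ∧ box z.2 (φ x) (ψ x))) (fun z =>
      (((Mf.coord (mem_univ α) z.1).pred (z.2 ≤ ·)).and ((hBx _ _).and (hφ.box hψ _))).not) rb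
    fun z s hs h => hcon ⟨s, hs.trans (k3.trans k1), z.1, z.2, fun x hx => not_not.1 (h x hx)⟩
  have hqr : q ≤ r := k5.trans (k3.trans k1)
  obtain ⟨q1, m1, s0, m2, W, hW, m3, m4, Ag, hAg, m5, m6⟩ := exists_struct hIn hp0
    (fun n k => (ha1 (n, k)).mono ha2) hcov (fun r u h h' ⟨r', h1, h2⟩ =>
      let ⟨r'', _, h3, _, h4⟩ := R1 r u h h' ⟨r', (), fun _ => Ms.const _, h1, h2⟩
      ⟨r'', h4.1, h3, h4.2⟩) (hqr.trans hr) hφ hψ fun x hx =>
    ⟨(k2 x (k3 x (k5 x hx))).2.2.1, (k4 x (k5 x hx)).2.2.1, fun n k h h' h'' =>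
      k6 x hx (n, k) ⟨h, h', h''⟩⟩
  have hW' : ∀ n k, Ms univ fun x => W x n k := fun n k => (hW n k).mono (subset_univ _)
  obtain ⟨r2, h, n1, hh, n2, n3⟩ := R2 (cut (Iio α) q1 top) W cut_top_supp
    (fun z => hW z.1 z.2) (by
      obtain ⟨r', h1, h, h2, h3⟩ := hS _ (cut_top_le hL (m1.trans (hqr.trans hr)) hp0) W hW' m4
      exact ⟨r', h, fun z => h2 z.1 z.2, h1, h3⟩)
  replace hh : ∀ n, Mf (Iio α) fun x => h x n := fun n k => hh (n, k)
  have thin : ∀ r3 ≤ r2, r3.supp ⊆ Iio α → ∀ A : Om ι → List ℕ → ℕ → Prop,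
      (∀ u k, Ms (Iio α) fun x => A x u k) → (∀ x, r3.bd x → q1.B (Iio α) x →
        ∀ u ∈ q1.tr α x, s0 <+: u → ∀ m, ∃ k, m ≤ k ∧ u ++ [k] ∈ q1.tr α x ∧ A x u k) →
      ∃ q3 ≤ q1, q3 ≤ r3 ∧ ∀ x, q3.bd x → ∀ j, s0.length ≤ j → A x (seg (x α) j) (x α j) := by
    intro r3 t1 t2 A t3 t4
    have t5 : ∀ x, r3.B (Iio α) x → q1.B (Iio α) x := fun x hx =>
      (cut_B Subset.rfl).1 (B_of_le (t1.trans n2) hL hx)
    obtain ⟨q3, t6, -, -, t7⟩ := exists_thin (cut (Iio α) r3 q1) α t3 fun x hx => by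
      have t6 := (cut_B Subset.rfl).1 hx
      rw [cut_tr_neg (L := Iio α) (lt_irrefl α), cut_st_neg (L := Iio α) (lt_irrefl α),
        m2 x (t5 x t6)]
      exact t4 x ((bd_iff_B t2).2 t6) (t5 x t6)
    refine ⟨q3, t6.trans (cut_le t5), t6.trans (cut_le_of_supp t2 le_rfl t2), fun x hx j hj =>
      t7 x hx j ?_⟩
    rwa [cut_st_neg (L := Iio α) (lt_irrefl α), m2 x ((cut_le t5 x (t6 x hx)).B _)]
  by_cases hA : ∃ r' H, (∀ z, Ms univ (ch H z)) ∧ r' ≤ r2 ∧ Hur In r' W H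
  · obtain ⟨r3, H, t1, hH, t2, t3⟩ := R3 r2 W n1 (fun z => hW z.1 z.2) hA
    replace hH : ∀ n, Mf (Iio α) fun x => H x n := fun n k => hH (n, k)
    obtain ⟨q3, t4, t5, t6⟩ := thin r3 t2 t1 (fun x s k => Ag x s k (H x (idx s0 s)))
      (fun s k => (hH _).subst (P := fun M x => Ag x s k M) fun M => hAg s k M)
      fun x _ hx s hs hs' m => m5 x hx s hs hs' _ m
    have t7 : q3 ≤ r := t4.trans (m1.trans hqr)
    obtain ⟨r4, t8, n1, t9⟩ := t3 q3 t5 φ hφ (hIn.mono t7 h1)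
    obtain ⟨r5, t10, n2, t11⟩ := t3 r4 (t8.trans t5) ψ hψ (hIn.mono (t8.trans t7) h2)
    obtain ⟨x, hx⟩ := r5.bd_nonempty
    have hx3 := t8 x (t10 x hx)
    have t12 := le_idx (s0 := s0) (s := seg (x α) (s0.length + n1 + n2 + 1)) (by simp; omega)
    rw [seg_length] at t12
    rcases m6 x (t4 x hx3) _ (by omega) _ (t6 x hx3 (s0.length + n1 + n2 + 1) (by omega))
      with h | h
    · obtain ⟨k, e1, e2, e3⟩ := t9 x (t10 x hx) _ (le_trans (by omega) t12)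
      exact h _ le_rfl k e1 e2 e3
    · obtain ⟨k, e1, e2, e3⟩ := t11 x hx _ (le_trans (by omega) t12)
      exact h _ le_rfl k e1 e2 e3
  · let G : Om ι → ℕ → List ℕ → ℕ → ℕ → Prop := fun x n s k v =>
      n ≤ k ∧ s ++ [k] ∈ q1.tr α x ∧ (∃ M, (∀ n' ≤ n, h x n' ≤ M) ∧ Ag x s k M) ∧
        ∀ n' < idx s0 (s ++ [k]), h x n' ≤ v
    have hG : ∀ n s k v, Ms (Iio α) fun x => G x n s k v := fun n s k v =>
      (Ms.const _).and ((q1.mtr α _).and ((Ms.ex fun M => (Ms.all fun n' => Ms.imp' fun _ =>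
        (hh n').pred (· ≤ M)).and (hAg s k M)).and (Ms.all fun n' => Ms.imp' fun _ =>
        (hh n').pred (· ≤ v))))
    choose H hH hH' using fun n => exists_sel (a := Iio α) (P := fun v x =>
      ∀ s, idx s0 s ≤ n → s ∈ q1.tr α x → s0 <+: s → ∃ k, G x n s k v) fun v =>
        Ms.all fun s => Ms.imp' fun _ => (q1.mtr α s).imp (Ms.imp' fun _ =>
          Ms.ex fun k => hG n s k v)
    have t1 : ∀ x, q1.B (Iio α) x → ∀ n s, idx s0 s ≤ n → s ∈ q1.tr α x → s0 <+: s →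
        ∃ k, G x n s k (H n x) := by
      intro x hx n
      refine hH' n x ?_
      have : ∀ s, ∃ v, s ∈ q1.tr α x → s0 <+: s → ∃ k, G x n s k v := fun s => by
        by_cases hs : s ∈ q1.tr α x ∧ s0 <+: s
        · obtain ⟨k, e1, e2, e3⟩ := m5 x hx s hs.1 hs.2 ((Finset.range (n + 1)).sup (h x)) n
          exact ⟨(Finset.range (idx s0 (s ++ [k]))).sup (h x), fun _ _ => ⟨k, e1, e2,
            ⟨_, fun n' hn' => Finset.le_sup (Finset.mem_range.2 (by omega)), e3⟩,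
            fun n' hn' => Finset.le_sup (Finset.mem_range.2 hn')⟩⟩
        · exact ⟨0, fun h h' => absurd ⟨h, h'⟩ hs⟩
      choose f hf using this
      obtain ⟨v, hv⟩ := ((finite_idx s0 n).image f).bddAbove
      refine ⟨v, fun s e1 e2 e3 => ?_⟩
      obtain ⟨k, e4, e5, e6, e7⟩ := hf s e2 e3
      exact ⟨k, e4, e5, e6, fun n' hn' => (e7 n' hn').trans (hv ⟨s, e1, rfl⟩)⟩
    have hH1 : ∀ n, Mf univ fun x => H n x := fun n => (hH n).mono (subset_univ _)
    obtain ⟨r4, z, t2, hz, t3, t4, t5⟩ := R4 r2 (W, fun x n => H n x) n1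
      (by rintro (z | z)
          · exact hW z.1 z.2
          · exact hH z.1 z.2) (by
      have : ¬ Hur In r2 W fun x n => H n x := fun h =>
        hA ⟨r2, fun x n => H n x, fun z => hH1 z.1 z.2, le_rfl, h⟩
      simp only [Hur, not_forall] at this
      obtain ⟨r', e1, z, hz, e2, e3⟩ := this
      obtain ⟨r'', e4, e5⟩ := exists_all (A := fun m x =>
        ∃ n, m ≤ n ∧ ¬ far W (fun x n => H n x) z x n) (fun m => Ms.ex fun n =>
          (Ms.const _).and (ms_far hW' hH1 hz n).not) r' fun m s hs h =>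
        e3 ⟨s, hs, m, fun x hx n hn => by_contra fun h' => h x hx ⟨n, hn, h'⟩⟩
      exact ⟨r'', z, hz, e4.trans e1, hIn.mono e4 e2, e5⟩)
    obtain ⟨q3, t6, t7, t8⟩ := thin r4 t3 t2 (fun x s k => ∃ n, idx s0 s ≤ n ∧
      ¬ far W (fun x n => H n x) z x n ∧ G x n s k (H n x))
      (fun s k => Ms.ex fun n => (Ms.const _).and ((ms_far hW hH hz n).not.and
        ((hH n).subst (P := fun v x => G x n s k v) fun v => hG n s k v)))
      fun x hx hx' s hs hs' m => by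
        obtain ⟨n, e1, e2⟩ := t5 x hx (max m (idx s0 s))
        obtain ⟨k, e3⟩ := t1 x hx' n s ((le_max_right _ _).trans e1) hs hs'
        exact ⟨k, (le_max_left _ _).trans (e1.trans e3.1), e3.2.1, n,
          (le_max_right _ _).trans e1, e2, e3⟩
    have t9 : q3 ≤ r := t6.trans (m1.trans hqr)
    obtain ⟨r5, t10, n, t11⟩ := n3 q3 (t7.trans t3) φ ψ z hφ hψ (RV.mono hz (subset_univ _))
      (hIn.mono t9 h1) (hIn.mono t9 h2) (hIn.mono t7 t4)
    obtain ⟨x, hx⟩ := r5.bd_nonempty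
    have hx3 := t10 x hx
    obtain ⟨⟨k1, f1, f2, f3⟩, ⟨k2, f4, f5, f6⟩, k3, f7, f8, f9⟩ := t11 x hx
    have hex : ∃ i, n < idx s0 (seg (x α) (s0.length + i + 1)) :=
      ⟨n, lt_of_lt_of_le (by rw [seg_length]; omega) (le_idx (by rw [seg_length]; omega))⟩
    have g1 := Nat.find_spec hex
    have g2 : idx s0 (seg (x α) (s0.length + Nat.find hex)) ≤ n := by
      rcases hi : Nat.find hex with _ | i
      · have := (q1.lav α x).seg_stem (t6 x hx3 α trivial)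
        rw [m2 x ((t6 x hx3).B _)] at this
        simp [idx, this]
      · exact not_lt.1 (Nat.find_min hex (by omega : i < Nat.find hex))
    obtain ⟨n', -, g3, -, -, ⟨M, g4, g5⟩, g6⟩ := t8 x hx3 (s0.length + Nat.find hex) (by omega)
    rw [← seg_succ] at g6
    by_cases hn : n ≤ n'
    · rcases m6 x (t6 x hx3) _ (by omega) M g5 with h | h
      · exact h n g2 k1 (f1.trans (g4 n hn)) f2 f3
      · exact h n g2 k2 (f4.trans (g4 n hn)) f5 f6
    · exact g3 ⟨k3, f7.trans (g6 n g1), m3 x n' n k3 (by omega) f8, f9⟩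

end Pool.Agent.MP_5f86f1_lc

end MrgPart5

-- ======== part 6: formerly Pool.Agent.MP_5f86f1_lc.Defs
section MrgPart6

/-! The sentence `d ≤ r and every Scheepers set of reals has a Menger square` in the language of
set theory.  Throughout `w` is `ω`, and `l` is a dense linear order on `w`, whose Dedekind cuts
are the real numbers. -/

namespace Pool.Agent.MP_5f86f1_lc

open Pool.Agent.Forcing92 Fml

variable {V : Type 1}

/-- the relation `f` is single valued -/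
def func (f : V) : Fml V :=
  all fun i => all fun z => all fun z' => imp (and (app f i z) (app f i z')) (eq z z')

/-- `D` is contained in the image of `R` under a function, that is `|D| ≤ |R|` -/
def img (R D : V) : Fml V :=
  ex fun f => and (func f) (allIn D fun z => exIn R fun i => app f i z)

/-- `F` is finite -/
def fin (w F : V) : Fml V := exIn w fun n => img n F

/-- `A ⊆ w` is infinite -/
def unb (w A : V) : Fml V := allIn w fun n => exIn A fun m => mem n m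

/-- `A ∩ Y` and `A \ Y` are infinite -/
def splits (w Y A : V) : Fml V :=
  and (allIn w fun n => exIn A fun m => and (mem n m) (mem m Y))
    (allIn w fun n => exIn A fun m => and (mem n m) (neg (mem m Y)))

/-- `f : w → w` -/
def fn (w f : V) : Fml V := and (func f) (allIn w fun n => exIn w fun m => app f n m)

/-- `D` is a dominating family -/
def dom (w D : V) : Fml V :=
  and (allIn D (fn w)) (all fun f => imp (fn w f) (exIn D fun g => exIn w fun N =>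
    allIn w fun n => imp (mem N n)
      (all fun a => all fun b => imp (and (app f n a) (app g n b)) (sub a b))))

/-- `d ≤ r` -/
def dler (w : V) : Fml V :=
  all fun R => imp
    (and (allIn R fun A => and (sub A w) (unb w A)) (neg (ex fun Y => allIn R (splits w Y))))
    (ex fun D => and (dom w D) (img R D))

/-- `l` is a dense linear order without endpoints on `w` -/
def dlo (w l : V) : Fml V :=
  and (allIn w fun a => neg (app l a a))
  (and (allIn w fun a => allIn w fun b => allIn w fun c =>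
    imp (and (app l a b) (app l b c)) (app l a c))
  (and (allIn w fun a => allIn w fun b => or (app l a b) (or (eq a b) (app l b a)))
  (and (allIn w fun a => allIn w fun b =>
    imp (app l a b) (exIn w fun c => and (app l a c) (app l c b)))
  (allIn w fun a => and (exIn w fun b => app l a b) (exIn w fun b => app l b a)))))

/-- `x` is a real number: a Dedekind cut -/
def real (w l x : V) : Fml V :=
  and (sub x w) (and (exIn w fun a => mem a x) (and (exIn w fun a => neg (mem a x))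
    (and (allIn w fun a => allIn x fun b => imp (app l a b) (mem a x))
      (allIn x fun a => exIn x fun b => app l a b))))

/-- `x` is a real number with `a < x < b`, for rationals `a`, `b` -/
def btw (w l a b x : V) : Fml V :=
  and (real w l x) (and (mem a x) (exIn w fun c => and (app l c b) (neg (mem c x))))

/-- `O` is an open subset of the line -/
def opn (w l O : V) : Fml V :=
  allIn O fun x => exIn w fun a => exIn w fun b =>
    and (btw w l a b x) (all fun y => imp (btw w l a b y) (mem y O))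

/-- the pairs in `O` form an open subset of the plane -/
def opn2 (w l O : V) : Fml V :=
  all fun x => all fun y => imp (app O x y)
    (exIn w fun a => exIn w fun b => exIn w fun c => exIn w fun d =>
      and (and (btw w l a b x) (btw w l c d y))
        (all fun x' => all fun y' => imp (and (btw w l a b x') (btw w l c d y')) (app O x' y')))

/-- `s` is a sequence -/
def seq (w s : V) : Fml V := and (func s) (allIn w fun n => ex fun U => app s n U)

/-- `t` is a sequence of finite subsets of the terms of `s` -/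
def sel (w s t : V) : Fml V :=
  and (seq w t) (allIn w fun n => all fun U => all fun F =>
    imp (and (app s n U) (app t n F)) (and (sub F U) (fin w F)))

/-- `X` has the Scheepers property -/
def scheepers (w l X : V) : Fml V :=
  all fun s => imp
    (and (seq w s) (allIn w fun n => all fun U => imp (app s n U)
      (and (allIn U (opn w l)) (allIn X fun x => exIn U fun O => mem x O))))
    (ex fun t => and (sel w s t) (all fun G => imp (and (sub G X) (fin w G))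
      (exIn w fun n => ex fun F => and (app t n F) (allIn G fun x => exIn F fun O => mem x O))))

/-- `X × X` has the Menger property -/
def menger2 (w l X : V) : Fml V :=
  all fun s => imp
    (and (seq w s) (allIn w fun n => all fun U => imp (app s n U)
      (and (allIn U (opn2 w l)) (allIn X fun x => allIn X fun y => exIn U fun O => app O x y))))
    (ex fun t => and (sel w s t) (allIn X fun x => allIn X fun y =>
      exIn w fun n => ex fun F => and (app t n F) (exIn F fun O => app O x y)))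

/-- `d ≤ r`, and every Scheepers set of reals has a Menger square -/
def sentence : Fml V :=
  ex fun w => and (omega w) (and (dler w) (ex fun l => and (dlo w l)
    (all fun X => imp (and (allIn X (real w l)) (scheepers w l X)) (menger2 w l X))))

end Pool.Agent.MP_5f86f1_lc

end MrgPart6

-- marker of a merged file
example : 731051 + 875796 = 731051 + 875796 := rfl

end MrgPart0

-- ======== part 1: formerly Pool.Agent.MP_5f86f1_lc.Names
section MrgPart1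

/-! Names for pairs, relations and Borel reals. -/

open Set

namespace Pool.Agent.MP_5f86f1_lc

open Cond Pool.Agent.Forcing92 Fml

variable {ι : Type} [LinearOrder ι]

/-- the order on conditions -/
def cle (ι : Type) [LinearOrder ι] (q p : Cond ι) : Prop := q ≤ p

instance : Pre (cle ι) := ⟨fun p => le_refl p, fun h h' => le_trans h h'⟩

/-- names -/
abbrev Nm (ι : Type) [LinearOrder ι] : Type 1 := Name (Cond ι)

/-- forcing -/
abbrev Fo (a : Fml (Nm ι)) (p : Cond ι) : Prop := Forces (cle ι) a p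
abbrev fE (a b : Nm ι) (p : Cond ι) : Prop := fEq (cle ι) a b p
abbrev fM (a b : Nm ι) (p : Cond ι) : Prop := fMem (cle ι) a b p

def nn (n : ℕ) : Nm ι := natName top n
def om : Nm ι := omegaName top
def upN (a b : Nm ι) : Nm ι := .mk Bool (fun i => cond i a b) fun _ => top
def opN (a b : Nm ι) : Nm ι := upN (upN a a) (upN a b)
def relN (I : Type) (a b : I → Nm ι) (c : I → Cond ι) : Nm ι := .mk I (fun i => opN (a i) (b i)) c

variable {p q : Cond ι} {a b a' b' z s : Nm ι}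

theorem ht (p : Cond ι) : cle ι p top := le_top p

theorem Fo.mono {φ : Fml (Nm ι)} (h : Fo φ p) (hq : q ≤ p) : Fo φ q := Forces.mono hq h
theorem fE.mono (h : fE a b p) (hq : q ≤ p) : fE a b q := fEq_mono hq h
theorem fM.mono (h : fM a b p) (hq : q ≤ p) : fM a b q := fMem_mono hq h
theorem fE.symm (h : fE a b p) : fE b a p := fEq_symm h
theorem fE.trans (h : fE a b p) (h' : fE b z p) : fE a z p := fEq_trans h h'
theorem fE.rfl : fE a a p := fEq_refl a p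
theorem fM.left (h : fM a z p) (h' : fE a b p) : fM b z p := fMem_congr_left h' h
theorem fM.right (h : fM z a p) (h' : fE a b p) : fM z b p := fMem_congr_right h' h

theorem mem_upN : fM z (upN a b) p ↔ ∀ q ≤ p, ∃ r ≤ q, fE a z r ∨ fE b z r := by
  refine fMem_mk_iff.trans (forall₂_congr fun q _ => exists_congr fun r => and_congr_right
    fun _ => ?_)
  simp only [Bool.exists_bool, cond_false, cond_true, ht, true_and]
  exact or_comm

theorem left_mem_upN : fM a (upN a b) p := mem_upN.2 fun q _ => ⟨q, le_rfl, Or.inl fE.rfl⟩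
theorem right_mem_upN : fM b (upN a b) p := mem_upN.2 fun q _ => ⟨q, le_rfl, Or.inr fE.rfl⟩

theorem upN_congr (h : fE a a' p) (h' : fE b b' p) : fE (upN a b) (upN a' b') p := by
  have key : ∀ {a b a' b' : Nm ι}, fE a a' p → fE b b' p → ∀ z, ∀ q ≤ p,
      fM z (upN a b) q → fM z (upN a' b') q := fun h h' z q hq hz => mem_upN.2 fun r hr => by
    obtain ⟨t, ht, h1⟩ := mem_upN.1 hz r hr
    have h2 := ht.trans (hr.trans hq)
    exact ⟨t, ht, h1.imp (h.mono h2).symm.trans (h'.mono h2).symm.trans⟩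
  exact fEq_of_ext fun z q hq => ⟨key h h' z q hq, key h.symm h'.symm z q hq⟩

theorem opN_congr (h : fE a a' p) (h' : fE b b' p) : fE (opN a b) (opN a' b') p :=
  upN_congr (upN_congr h h) (upN_congr h h')

theorem forces_pair : Fo (pair a b z) p ↔ fE z (upN a b) p := by
  have key : ∀ t q, Fo (or (eq t a) (eq t b)) q ↔ fM t (upN a b) q := fun t q =>
    forces_or.trans (mem_upN.trans (forall₂_congr fun _ _ => exists_congr fun _ =>
      and_congr_right fun _ => ⟨fun h => h.imp fE.symm fE.symm,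
        fun h => h.imp fE.symm fE.symm⟩)).symm
  constructor
  · intro h
    exact fEq_of_ext fun t q hq => (forces_iff.1 (h t) q hq).trans (key t q)
  · intro h t
    exact forces_iff.2 fun q hq => Iff.trans
      ⟨fun h' => fM.right h' (h.mono hq), fun h' => fM.right h' (h.mono hq).symm⟩ (key t q).symm

theorem forces_app : Fo (app s a b) p ↔ fM (opN a b) s p := by
  constructor
  · intro h
    refine fMem_dense fun q hq => ?_
    obtain ⟨r, hr, z, h1, h2⟩ := forces_exIn.1 h q hq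
    obtain ⟨r1, hr1, u, h3⟩ := forces_ex.1 h2 r le_rfl
    obtain ⟨r2, hr2, v, h4, h5, h6⟩ := forces_ex.1 h3 r1 le_rfl
    exact ⟨r2, hr2.trans (hr1.trans hr), fM.left (fM.mono h1 (hr2.trans hr1))
      ((forces_pair.1 h6).trans (upN_congr (forces_pair.1 h4) (forces_pair.1 h5)))⟩
  · intro h
    exact forces_exIn_of _ h (forces_ex_of (upN a a) (forces_ex_of (upN a b)
      ⟨forces_pair.2 fE.rfl, forces_pair.2 fE.rfl, forces_pair.2 fE.rfl⟩))

theorem eq_of_mem_sing (h : fM z (upN a a) p) : fE a z p := fEq_dense fun q hq =>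
  let ⟨r, hr, h1⟩ := mem_upN.1 h q hq; ⟨r, hr, h1.elim id id⟩

theorem opN_inj (h : fE (opN a b) (opN a' b') p) : fE a a' p ∧ fE b b' p := by
  have key : ∀ {a b a' b' : Nm ι} {p : Cond ι}, fE (opN a b) (opN a' b') p → fE a a' p := by
    intro a b a' b' p h
    refine fEq_dense fun q hq => ?_
    obtain ⟨r, hr, h1 | h1⟩ := mem_upN.1 (fM.right left_mem_upN h) q hq
    · exact ⟨r, hr, eq_of_mem_sing (fM.right left_mem_upN h1)⟩
    · exact ⟨r, hr, eq_of_mem_sing (fM.right left_mem_upN h1)⟩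
  have key2 : ∀ {a b a' b' : Nm ι} {p : Cond ι}, fE (opN a b) (opN a' b') p →
      ∀ q ≤ p, ∃ r ≤ q, fE a' b r ∨ fE b' b r := by
    intro a b a' b' p h q hq
    obtain ⟨r, hr, h1 | h1⟩ := mem_upN.1 (fM.right right_mem_upN h) q hq
    · exact ⟨r, hr, Or.inl (eq_of_mem_sing (fM.right right_mem_upN h1.symm))⟩
    · obtain ⟨t, ht, h2⟩ := mem_upN.1 (fM.right right_mem_upN h1.symm) r le_rfl
      exact ⟨t, ht.trans hr, h2⟩
  refine ⟨key h, fEq_dense fun q hq => ?_⟩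
  obtain ⟨r, hr, h1 | h1⟩ := key2 h q hq
  · obtain ⟨t, ht, h2 | h2⟩ := key2 h.symm r (hr.trans hq)
    · exact ⟨t, ht.trans hr, (h1.mono ht).symm.trans
        (((key h).mono (ht.trans (hr.trans hq))).symm.trans h2)⟩
    · exact ⟨t, ht.trans hr, h2⟩
  · exact ⟨r, hr, h1.symm⟩

theorem app_rel {I : Type} {f g : I → Nm ι} {c : I → Cond ι} :
    Fo (app (relN I f g c) a b) p ↔
      ∀ q ≤ p, ∃ r ≤ q, ∃ i, r ≤ c i ∧ fE (f i) a r ∧ fE (g i) b r :=
  forces_app.trans (fMem_mk_iff.trans (forall₂_congr fun _ _ => exists_congr fun _ =>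
    and_congr_right fun _ => exists_congr fun _ => and_congr_right fun _ =>
      ⟨opN_inj, fun h => opN_congr h.1 h.2⟩))

theorem app_rel_of {I : Type} {f g : I → Nm ι} {c : I → Cond ι} (i : I) (h : p ≤ c i) :
    Fo (app (relN I f g c) (f i) (g i)) p :=
  app_rel.2 fun q hq => ⟨q, le_rfl, i, hq.trans h, fE.rfl, fE.rfl⟩

theorem app_congr {s' : Nm ι} (h : Fo (app s a b) p) (hs : fE s s' p) (ha : fE a a' p)
    (hb : fE b b' p) : Fo (app s' a' b') p :=
  forces_app.2 (fM.right (fM.left (forces_app.1 h) (opN_congr ha hb)) hs)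

theorem nn_inj {m n : ℕ} (h : fE (nn m) (nn n) p) : m = n := natName_inj ht h

theorem nn_mem_om (n : ℕ) : fM (nn n) om p := natName_mem_omega ht n p

theorem mem_om (h : fM z om p) : ∃ r ≤ p, ∃ n, fE (nn n) z r :=
  (fMem_omegaName ht).1 h p le_rfl

theorem mem_nn {n : ℕ} (h : fM z (nn n) p) : ∃ r ≤ p, ∃ j < n, fE (nn j) z r :=
  (fMem_natName ht).1 h p le_rfl

theorem nn_mem_nn {m n : ℕ} : fM (nn m) (nn n) p ↔ m < n := by
  constructor
  · intro h
    obtain ⟨r, -, j, hj, h1⟩ := mem_nn h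
    rwa [← nn_inj h1]
  · exact fun h => (fMem_natName ht).2 fun q _ => ⟨q, le_rfl, m, h, fE.rfl⟩

theorem nn_sub_nn {m n : ℕ} (h : m ≤ n) : Fo (sub (nn m) (nn n)) p :=
  forces_sub.2 fun z q _ hz => fMem_dense fun r hr => by
    obtain ⟨t, ht, j, hj, h1⟩ := mem_nn (fM.mono hz hr)
    exact ⟨t, ht, fM.left (nn_mem_nn.2 (hj.trans_le h)) h1⟩

theorem func_eq {f i : Nm ι} (h : Fo (func f) p) (h1 : Fo (app f i a) p) (h2 : Fo (app f i b) p) :
    fE a b p := forces_imp.1 (h i a b) p le_rfl ⟨h1, h2⟩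

theorem func_of {f : Nm ι} (h : ∀ i a b, ∀ q ≤ p, Fo (app f i a) q → Fo (app f i b) q →
    ∃ r ≤ q, fE a b r) : Fo (func f) p := fun i a b => forces_imp.2 fun q hq h' =>
  fEq_dense fun r hr => h i a b r (hr.trans hq) (Fo.mono h'.1 hr) (Fo.mono h'.2 hr)

theorem func_rel {I : Type} {f g : I → Nm ι} {c : I → Cond ι}
    (h : ∀ i j, ∀ q ≤ p, q ≤ c i → q ≤ c j → fE (f i) (f j) q → ∃ r ≤ q, fE (g i) (g j) r) :
    Fo (func (relN I f g c)) p := func_of fun _ a b q hq h1 h2 => by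
  obtain ⟨r, k1, i, k2, k3, k4⟩ := app_rel.1 h1 q le_rfl
  obtain ⟨t, k5, j, k6, k7, k8⟩ := app_rel.1 h2 r k1
  obtain ⟨u, k9, k10⟩ := h i j t (k5.trans (k1.trans hq)) (k5.trans k2) k6
    ((k3.mono k5).trans k7.symm)
  exact ⟨u, k9.trans (k5.trans k1), (k4.mono (k9.trans k5)).symm.trans (k10.trans (k8.mono k9))⟩

/-- formulas which respect forced equality -/
def Cong (f : Nm ι → Fml (Nm ι)) : Prop :=
  ∀ p x y, fE x y p → Sim (fun a b => fE a b p) (f x) (f y)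

theorem Cong.fo {f : Nm ι → Fml (Nm ι)} (hf : Cong f) (h : fE a b p) (h' : Fo (f a) p) :
    Fo (f b) p := ((hf p a b h).forces p le_rfl).1 h'

theorem allIn_om {f : Nm ι → Fml (Nm ι)} (hf : Cong f) (h : ∀ n, Fo (f (nn n)) p) :
    Fo (allIn om f) p := forces_allIn.2 fun _ q hq hx => Forces.dense fun r hr => by
  obtain ⟨t, ht, n, h1⟩ := mem_om (fM.mono hx hr)
  exact ⟨t, ht, hf.fo h1 (Fo.mono (h n) (ht.trans (hr.trans hq)))⟩

theorem allIn_om' {f : Nm ι → Fml (Nm ι)} (h : Fo (allIn om f) p) (n : ℕ) : Fo (f (nn n)) p :=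
  forces_allIn.1 h _ p le_rfl (nn_mem_om n)

theorem exIn_om {f : Nm ι → Fml (Nm ι)} (hf : Cong f) (h : Fo (exIn om f) p) :
    ∃ r ≤ p, ∃ n, Fo (f (nn n)) r := by
  obtain ⟨r, hr, x, h1, h2⟩ := forces_exIn.1 h p le_rfl
  obtain ⟨t, ht, n, h3⟩ := mem_om h1
  exact ⟨t, ht.trans hr, n, hf.fo h3.symm (Fo.mono h2 ht)⟩

theorem exIn_om_of {f : Nm ι → Fml (Nm ι)} (n : ℕ) (h : Fo (f (nn n)) p) : Fo (exIn om f) p :=
  forces_exIn_of _ (nn_mem_om n) h

/-- the order of the rationals -/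
def lN : Nm ι := relN {z : ℕ × ℕ // ql z.1 z.2} (fun z => nn z.1.1) (fun z => nn z.1.2) fun _ => top

theorem app_lN {m n : ℕ} : Fo (app lN (nn m) (nn n)) p ↔ ql m n := by
  constructor
  · intro h
    obtain ⟨r, -, i, -, h1, h2⟩ := app_rel.1 h p le_rfl
    rw [← nn_inj h1, ← nn_inj h2]
    exact i.2
  · exact fun h => app_rel_of (I := {z : ℕ × ℕ // ql z.1 z.2}) ⟨(m, n), h⟩ (le_top p)

theorem cong_app1 (s b : Nm ι) : Cong fun x => app s x b := fun _ _ _ h =>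
  Sim.app (fun _ => fE.rfl) fE.rfl h fE.rfl

theorem forces_dlo (p : Cond ι) : Fo (dlo om lN) p := by
  refine ⟨allIn_om ?_ fun a q _ h => ql_irrefl a (app_lN.1 h),
    allIn_om ?_ fun a => allIn_om ?_ fun b => allIn_om ?_ fun c => forces_imp.2 fun q _ h =>
      app_lN.2 (ql_trans (app_lN.1 h.1) (app_lN.1 h.2)),
    allIn_om ?_ fun a => allIn_om ?_ fun b => forces_or.2 fun q _ => ⟨q, le_rfl, ?_⟩,
    allIn_om ?_ fun a => allIn_om ?_ fun b => forces_imp.2 fun q _ h => ?_,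
    allIn_om ?_ fun a => ⟨?_, ?_⟩⟩
  any_goals
    intro p x y h
    simp only [allIn, exIn, Fml.or, Fml.imp, ex, app, pair, Fml.iff]
    repeat' first | exact h | exact fE.rfl | constructor | intro _
  · rcases ql_tri a b with h | rfl | h
    · exact Or.inl (app_lN.2 h)
    · exact Or.inr (forces_or.2 fun r _ => ⟨r, le_rfl, Or.inl fE.rfl⟩)
    · exact Or.inr (forces_or.2 fun r _ => ⟨r, le_rfl, Or.inr (app_lN.2 h)⟩)
  · obtain ⟨c, h1, h2⟩ := ql_dense (app_lN.1 h)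
    exact exIn_om_of c ⟨app_lN.2 h1, app_lN.2 h2⟩
  · obtain ⟨c, h1⟩ := ql_up a
    exact exIn_om_of c (app_lN.2 h1)
  · obtain ⟨c, h1⟩ := ql_down a
    exact exIn_om_of c (app_lN.2 h1)

end Pool.Agent.MP_5f86f1_lc

end MrgPart1

-- marker of a merged file
example : 731051 + 326721 = 731051 + 326721 := rfl
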